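import Pool.Agent.Lib.MP_af3016_co.StepA

/-! A 2-connected set in a graph without three pairwise nonadjacent vertices spans a cycle. -/

set_option autoImplicit false
set_option linter.unusedSectionVars false

namespace Pool.Agent.Lib.MP_af3016_co

open Finset SimpleGraph

variable {V : Type} [DecidableEq V] {G : SimpleGraph V}

/-- There is a path from `a` to `b` with vertex set `X`. -/
def HP (G : SimpleGraph V) (a b : V) (X : Finset V) : Prop :=
  ∃ p : G.Walk a b, p.IsPath ∧ ∀ t, t ∈ p.support ↔ t ∈ X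

/-- There is a cycle with vertex set `X`. -/
def HC (G : SimpleGraph V) (X : Finset V) : Prop :=
  ∃ (a : V) (c : G.Walk a a), c.IsCycle ∧ c.length = X.card ∧ c.support.toFinset = X

namespace HP

variable {a b c d : V} {X Y Z : Finset V}

theorem single (a : V) : HP G a a {a} :=
  ⟨Walk.nil, Walk.IsPath.nil, by simp⟩

theorem left (h : HP G a b X) : a ∈ X := by
  obtain ⟨p, -, hp⟩ := h
  exact (hp a).1 p.start_mem_support

theorem right (h : HP G a b X) : b ∈ X := by
  obtain ⟨p, -, hp⟩ := h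
  exact (hp b).1 p.end_mem_support

theorem symm (h : HP G a b X) : HP G b a X := by
  obtain ⟨p, h1, hp⟩ := h
  exact ⟨p.reverse, h1.reverse, fun t => by rw [Walk.support_reverse, List.mem_reverse, hp]⟩

theorem join (h1 : HP G a b X) (h2 : HP G c d Y) (hXY : ∀ t ∈ X, t ∉ Y) (hbc : G.Adj b c)
    (hZ : ∀ t, t ∈ Z ↔ t ∈ X ∨ t ∈ Y) : HP G a d Z := by
  obtain ⟨p, p1, hp⟩ := h1
  obtain ⟨q, q1, hq⟩ := h2
  refine ⟨p.append (Walk.cons hbc q), ?_, fun t => ?_⟩
  · rw [Walk.isPath_def, Walk.support_append, Walk.support_cons, List.tail_cons, List.nodup_append]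
    refine ⟨p1.support_nodup, q1.support_nodup, fun s hs t ht hst => ?_⟩
    exact hXY s ((hp s).1 hs) ((hq s).1 (hst ▸ ht))
  · rw [Walk.support_append, Walk.support_cons, List.tail_cons, List.mem_append, hp, hq, hZ]

theorem eq_single (h : HP G a a X) : ∀ t ∈ X, t = a := by
  obtain ⟨p, p1, hp⟩ := h
  intro t ht
  rw [← hp, (Walk.isPath_iff_nil.1 p1).eq_nil] at ht
  simpa using ht

theorem split_walk (q : V → Prop) {a b : V} (p : G.Walk a b) : p.IsPath → ¬q a →
    (∃ t ∈ p.support, q t) → ∃ c' c X1 X2, HP G a c' X1 ∧ HP G c b X2 ∧ G.Adj c' c ∧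
      (∀ t ∈ X1, t ∉ X2) ∧ (∀ t, t ∈ p.support ↔ t ∈ X1 ∨ t ∈ X2) ∧ q c ∧ ∀ t ∈ X1, ¬q t := by
  induction p with
  | nil =>
    rintro - h ⟨t, ht, hq⟩
    rw [Walk.support_nil, List.mem_singleton] at ht
    exact absurd (ht ▸ hq) h
  | @cons a e b hae p ih =>
    rintro hp h ⟨t, ht, hq⟩
    rw [Walk.cons_isPath_iff] at hp
    by_cases he : q e
    · refine ⟨a, e, {a}, p.support.toFinset, single a, ⟨p, hp.1, by simp⟩, hae, ?_, by simp, he, ?_⟩
      · intro s hs
        rw [mem_singleton.1 hs, List.mem_toFinset]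
        exact hp.2
      · intro s hs
        rw [mem_singleton.1 hs]
        exact h
    · have ht' : t ∈ p.support := by
        rw [Walk.support_cons, List.mem_cons] at ht
        exact ht.resolve_left fun h' => h (h' ▸ hq)
      obtain ⟨c', c, X1, X2, g1, g2, g3, g4, g5, g6, g7⟩ := ih hp.1 he ⟨t, ht', hq⟩
      have ha : a ∉ X1 ∧ a ∉ X2 := not_or.1 ((g5 a).not.1 hp.2)
      refine ⟨c', c, insert a X1, X2, (single a).join g1 (fun s hs => ?_) hae (by simp), g2, g3,
        fun s hs => ?_, fun s => ?_, g6, fun s hs => ?_⟩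
      · rw [mem_singleton.1 hs]
        exact ha.1
      · rcases mem_insert.1 hs with rfl | hs
        · exact ha.2
        · exact g4 s hs
      · rw [Walk.support_cons, List.mem_cons, g5, mem_insert, or_assoc]
      · rcases mem_insert.1 hs with rfl | hs
        · exact h
        · exact g7 s hs

theorem split (h : HP G a b X) (q : V → Prop) (ha : ¬q a) (hex : ∃ t ∈ X, q t) :
    ∃ c' c X1 X2, HP G a c' X1 ∧ HP G c b X2 ∧ G.Adj c' c ∧
      (∀ t ∈ X1, t ∉ X2) ∧ (∀ t, t ∈ X ↔ t ∈ X1 ∨ t ∈ X2) ∧ q c ∧ ∀ t ∈ X1, ¬q t := by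
  obtain ⟨p, p1, hp⟩ := h
  obtain ⟨t, ht, hq⟩ := hex
  obtain ⟨c', c, X1, X2, g⟩ := split_walk q p p1 ha ⟨t, (hp t).2 ht, hq⟩
  exact ⟨c', c, X1, X2, g.1, g.2.1, g.2.2.1, g.2.2.2.1, fun s => (hp s).symm.trans (g.2.2.2.2.1 s),
    g.2.2.2.2.2⟩

theorem clique (k : ℕ) : ∀ (X : Finset V) (a b : V), X.card = k → Clq G X → a ∈ X → b ∈ X →
    a ≠ b → HP G a b X := by
  induction k with
  | zero =>
    intro X a b hk _ ha
    rw [card_eq_zero.1 hk] at ha
    simp at ha
  | succ k ih =>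
    intro X a b hk hX ha hb hab
    have hset : ∀ t, t ∈ X ↔ t ∈ ({a} : Finset V) ∨ t ∈ X.erase a := by
      intro t
      rw [mem_singleton, ← mem_insert, insert_erase ha]
    have hdis : ∀ t ∈ ({a} : Finset V), t ∉ X.erase a := by
      intro t ht
      rw [mem_singleton.1 ht]
      exact notMem_erase a X
    by_cases h : ∃ e ∈ X.erase a, e ≠ b
    · obtain ⟨e, he, heb⟩ := h
      have := ih (X.erase a) e b (by rw [card_erase_of_mem ha]; omega)
        (hX.mono fun _ h' => mem_of_mem_erase h') he (mem_erase.2 ⟨hab.symm, hb⟩) heb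
      rw [mem_erase] at he
      exact (single a).join this hdis (hX a ha e he.2 he.1.symm) hset
    · push Not at h
      have : X.erase a = {b} := eq_singleton_iff_unique_mem.2 ⟨mem_erase.2 ⟨hab.symm, hb⟩, h⟩
      rw [this] at hset hdis
      exact (single a).join (single b) hdis (hX a ha b hb hab) hset

theorem cycle (h : HP G a b X) (hba : G.Adj b a) (h3 : 3 ≤ X.card) : HC G X := by
  obtain ⟨p, p1, hp⟩ := h
  have hX : p.support.toFinset = X := by
    ext t
    rw [List.mem_toFinset, hp]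
  have hlen : p.length + 1 = X.card := by
    rw [← hX, List.toFinset_card_of_nodup p1.support_nodup, Walk.length_support]
  refine ⟨b, Walk.cons hba p, ?_, by rw [Walk.length_cons, hlen], ?_⟩
  · rw [Walk.cons_isCycle_iff]
    refine ⟨p1, fun he => ?_⟩
    cases p with
    | nil => simp at he
    | @cons _ e _ hae q =>
      rw [Walk.cons_isPath_iff] at p1
      rw [Walk.edges_cons, List.mem_cons] at he
      rcases he with he | he
      · have heb : e = b := by
          rcases Sym2.eq_iff.1 he with h' | h'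
          · exact absurd h'.1 hba.ne
          · exact h'.1.symm
        subst heb
        rw [(Walk.isPath_iff_nil.1 p1.1).eq_nil] at hlen
        simp only [Walk.length_cons, Walk.length_nil] at hlen
        omega
      · exact p1.2 (q.snd_mem_support_of_mem_edges he)
  · rw [Walk.support_cons, List.toFinset_cons, hX]
    exact insert_eq_of_mem ((hp b).1 p.end_mem_support)

end HP

theorem exists_HP (ht : Tri G) {S : Finset V} (hc : Conn G S) (hne : S.Nonempty) :
    ∃ a b, HP G a b S := by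
  classical
  obtain ⟨s, hs⟩ := hne
  obtain ⟨X, hX, hmax⟩ := exists_max_image (S.powerset.filter fun X => ∃ a b, HP G a b X) card
    ⟨{s}, mem_filter.2 ⟨mem_powerset.2 (singleton_subset_iff.2 hs), s, s, HP.single s⟩⟩
  rw [mem_filter, mem_powerset] at hX
  obtain ⟨hXS, a, b, h⟩ := hX
  by_cases hall : ∀ t ∈ S, t ∈ X
  · exact ⟨a, b, (Subset.antisymm hXS hall) ▸ h⟩
  exfalso
  push Not at hall
  obtain ⟨w0, hw0, hw0X⟩ := hall
  obtain ⟨c, -, w, hw, hcw, hcX, hwX⟩ := hc.cross (fun t => t ∈ X) (hXS h.left) hw0 h.left hw0X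
  have key : ∀ a' b', ¬HP G a' b' (insert w X) := by
    intro a' b' h'
    have := hmax (insert w X) (mem_filter.2 ⟨mem_powerset.2 (insert_subset hw hXS), a', b', h'⟩)
    rw [card_insert_of_notMem hwX] at this
    omega
  have hdis : ∀ t ∈ ({w} : Finset V), t ∉ X := fun t ht' => mem_singleton.1 ht' ▸ hwX
  have hset : ∀ t, t ∈ insert w X ↔ t ∈ ({w} : Finset V) ∨ t ∈ X := by simp
  have n1 : ¬G.Adj w a := fun g => key w b ((HP.single w).join h hdis g hset)
  have n2 : ¬G.Adj w b := fun g => key w a ((HP.single w).join h.symm hdis g hset)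
  have hca : a ≠ c := fun g => n1 (g ▸ hcw.symm)
  have hab : a ≠ b := by
    rintro rfl
    exact hca (h.eq_single c hcX).symm
  have hadj : G.Adj a b := ht w a b (fun g => hwX (g ▸ h.left)) (fun g => hwX (g ▸ h.right)) hab
    n1 n2
  obtain ⟨c', c1, X1, X2, g1, g2, -, g4, g5, g6, -⟩ := h.split (fun t => t = c) hca ⟨c, hcX, rfl⟩
  subst g6
  have h' : HP G c1 c' X := g2.join g1 (fun t ht' ht'' => g4 t ht'' ht') hadj.symm
    fun t => by rw [g5, or_comm]
  exact key w c' ((HP.single w).join h' hdis hcw.symm hset)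

theorem two_cliques {S A Y : Finset V} (hA : Clq G A) (hY : Clq G Y) (hd : ∀ t ∈ A, t ∉ Y)
    (hS : ∀ t, t ∈ S ↔ t ∈ A ∨ t ∈ Y) (h3 : 3 ≤ S.card) {a a' b b' : V} (ha : a ∈ A) (ha' : a' ∈ A)
    (hb : b ∈ Y) (hb' : b' ∈ Y) (haa : a ≠ a') (hbb : b ≠ b') (h1 : G.Adj a b) (h2 : G.Adj a' b') :
    HC G S :=
  ((HP.clique _ A a' a rfl hA ha' ha haa.symm).join (HP.clique _ Y b b' rfl hY hb hb' hbb) hd h1
    hS).cycle h2.symm h3

theorem Good.hc (ht : Tri G) {S : Finset V} (hg : Good G S) : HC G S := by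
  have h3 := hg.1
  obtain ⟨x, y, h⟩ := exists_HP ht hg.2.1 (card_pos.1 (by omega))
  by_cases hyx : G.Adj y x
  · exact h.cycle hyx h3
  have hxy : x ≠ y := by
    rintro rfl
    have : S ⊆ {x} := fun t ht' => mem_singleton.2 (h.eq_single t ht')
    have := card_le_card this
    rw [card_singleton] at this
    omega
  have nxy : ¬G.Adj x y := fun g => hyx g.symm
  have hex : ∃ t ∈ S, G.Adj t y := by
    obtain ⟨c', c1, X1, X2, g1, -, g3, -, g5, g6, -⟩ := h.split (fun t => t = y) hxy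
      ⟨y, h.right, rfl⟩
    exact ⟨c', (g5 c').2 (Or.inl g1.right), g6 ▸ g3⟩
  obtain ⟨c0, c, A, Y, g1, g2, g3, g4, g5, g6, g7⟩ := h.split (fun t => G.Adj t y) nxy hex
  by_cases hd : ∃ d ∈ Y, d ≠ c ∧ G.Adj d x
  · obtain ⟨d', d, X3, X4, f1, f2, f3, f4, f5, f6, f7⟩ := g2.split (fun t => t ≠ c ∧ G.Adj t x)
      (fun g => g.1 rfl) hd
    have hdy : G.Adj d' y := by
      by_cases e : d' = c
      · exact e ▸ g6
      · exact ht x d' y (fun g => g4 x g1.left (g ▸ (f5 d').2 (Or.inl f1.right))) hxy.symm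
          (fun g => f4 d' f1.right (g ▸ f2.right)) (fun g => f7 d' f1.right ⟨e, g.symm⟩) nxy
    have p1 : HP G c d Y := f1.join f2.symm f4 hdy f5
    exact (g1.join p1 g4 g3 g5).cycle f6.2 h3
  push Not at hd
  have hA : Clq G A := ht.clq y fun t ht' =>
    ⟨fun g => g4 t ht' (g ▸ g2.right), fun g => g7 t ht' g.symm⟩
  have hB : Clq G (Y.erase c) := ht.clq x fun t ht' => by
    rw [mem_erase] at ht'
    exact ⟨fun g => g4 x g1.left (g ▸ ht'.2), fun g => hd t ht'.2 ht'.1 g.symm⟩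
  have hcA : c ∉ A := fun g => g4 c g g2.left
  have hyB : y ∈ Y.erase c := mem_erase.2 ⟨g6.ne.symm, g2.right⟩
  obtain ⟨a, -, b, hb, hab, haA, hbA⟩ := (hg.2.2 c).cross (fun t => t ∈ A)
    (mem_erase.2 ⟨fun g => hcA (g ▸ g1.left), h.left⟩) (mem_erase.2 ⟨g6.ne.symm, h.right⟩) g1.left
    fun g => g4 y g g2.right
  rw [mem_erase] at hb
  have hbY : b ∈ Y := ((g5 b).1 hb.2).resolve_left hbA
  have hax : a ≠ x := fun g => hd b hbY hb.1 (g ▸ hab.symm)
  have hby : b ≠ y := fun g => g7 a haA (g ▸ hab)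
  by_cases hcx : G.Adj c x
  · have p1 : HP G b c Y := (HP.clique _ (Y.erase c) b y rfl hB (mem_erase.2 ⟨hb.1, hbY⟩) hyB
      hby).join (HP.single c) (fun t ht' g => (mem_erase.1 ht').1 (mem_singleton.1 g)) g6.symm
      fun t => by rw [mem_singleton, or_comm, ← mem_insert, insert_erase g2.left]
    exact ((HP.clique _ A x a rfl hA g1.left haA hax.symm).join p1 g4 hab g5).cycle hcx h3
  have hY : Clq G Y := ht.clq x fun t ht' => by
    refine ⟨fun g => g4 x g1.left (g ▸ ht'), fun g => ?_⟩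
    by_cases e : t = c
    · exact hcx (e ▸ g.symm)
    · exact hd t ht' e g.symm
  by_cases hac : a = c0
  swap
  · exact two_cliques hA hY g4 g5 h3 haA g1.right hbY g2.left hac hb.1 hab g3
  subst hac
  obtain ⟨a', ha', b', hb', hab', haA', hbA'⟩ := (hg.2.2 a).cross (fun t => t ∈ A)
    (mem_erase.2 ⟨hax.symm, h.left⟩)
    (mem_erase.2 ⟨fun g => g4 a haA (g ▸ g2.right), h.right⟩) g1.left fun g => g4 y g g2.right
  rw [mem_erase] at ha' hb'
  have hbY' : b' ∈ Y := ((g5 b').1 hb'.2).resolve_left hbA'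
  by_cases e : b = b'
  · exact two_cliques hA hY g4 g5 h3 haA haA' g2.left hbY' ha'.1.symm (e ▸ hb.1.symm) g3 hab'
  · exact two_cliques hA hY g4 g5 h3 haA haA' hbY hbY' ha'.1.symm e hab hab'

end Pool.Agent.Lib.MP_af3016_co
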