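import Pool.Agent.Lib.MP_af3016_co.StepD
import Pool.Agent.Lib.MP_af3016_co.Ham

-- part Pool.Agent.Lib.MP_af3016_co.StepC1
section

/-! A bad part that is a path on three vertices: local lemmas. -/

set_option autoImplicit false
set_option linter.unusedSectionVars false

namespace Pool.Agent.Lib.MP_af3016_co

open Finset

variable {V : Type} [DecidableEq V] {G : SimpleGraph V}

/-- `S` is the induced path `x v y`. -/
structure P3 (G : SimpleGraph V) (S : Finset V) (x v y : V) : Prop where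
  mem : ∀ a, a ∈ S ↔ a = x ∨ a = v ∨ a = y
  xv : G.Adj x v
  yv : G.Adj y v
  ne : x ≠ y
  non : ¬G.Adj x y

theorem P3.symm {S : Finset V} {x v y : V} (h : P3 G S x v y) : P3 G S y v x :=
  ⟨fun a => by rw [h.mem]; tauto, h.yv, h.xv, h.ne.symm, fun h' => h.non h'.symm⟩

theorem P3.xS {S : Finset V} {x v y : V} (h : P3 G S x v y) : x ∈ S := (h.mem x).2 (Or.inl rfl)

theorem P3.vS {S : Finset V} {x v y : V} (h : P3 G S x v y) : v ∈ S :=
  (h.mem v).2 (Or.inr (Or.inl rfl))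

theorem P3.yS {S : Finset V} {x v y : V} (h : P3 G S x v y) : y ∈ S :=
  (h.mem y).2 (Or.inr (Or.inr rfl))

theorem P3.pend {S : Finset V} {x v y : V} (h : P3 G S x v y) : Pend G S x v := by
  refine ⟨h.xS, h.vS, h.xv, fun b hb hbv hxb => ?_⟩
  rcases (h.mem b).1 hb with g | g | g
  · exact hxb.ne g.symm
  · exact hbv g
  · exact h.non (g ▸ hxb)

theorem P3.card {S : Finset V} {x v y : V} (h : P3 G S x v y) : S.card = 3 := by
  refine card_eq_three.2 ⟨x, v, y, h.xv.ne, h.ne, h.yv.ne.symm, ?_⟩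
  ext a
  simp [h.mem]

theorem P3.mem_swap {S : Finset V} {x v y : V} (h : P3 G S x v y) (t a : V) :
    a ∈ insert t (S.erase x) ↔ a = v ∨ a = y ∨ a = t := by
  simp only [mem_insert, mem_erase, h.mem]
  constructor
  · rintro (g | ⟨g1, g | g | g⟩)
    · exact Or.inr (Or.inr g)
    · exact absurd g g1
    · exact Or.inl g
    · exact Or.inr (Or.inl g)
  · rintro (rfl | rfl | g)
    · exact Or.inr ⟨h.xv.ne.symm, Or.inr (Or.inl rfl)⟩
    · exact Or.inr ⟨h.ne.symm, Or.inr (Or.inr rfl)⟩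
    · exact Or.inl g

theorem P3.eH {S : Finset V} {x v y : V} (h : P3 G S x v y) : eH G S = 2 := by
  have h1 := eH_erase (G := G) h.xS
  have h2 : Clq G (S.erase x) := by
    intro a ha b hb hab
    rw [mem_erase, h.mem] at ha hb
    rcases ha.2 with g | g | g
    · exact absurd g ha.1
    · rcases hb.2 with g' | g' | g'
      · exact absurd g' hb.1
      · exact absurd (g.trans g'.symm) hab
      · exact g ▸ g' ▸ h.yv.symm
    · rcases hb.2 with g' | g' | g'
      · exact absurd g' hb.1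
      · exact g ▸ g' ▸ h.yv
      · exact absurd (g.trans g'.symm) hab
  rw [h2.eH] at h1
  have h3 : dH G x S ≤ ({y} : Finset V).card := dH_le fun b hb hbx hn => by
    rcases (h.mem b).1 hb with g | g | g
    · exact absurd g hbx
    · exact absurd (g ▸ h.xv) hn
    · exact mem_singleton.2 g
  have h4 : ({y} : Finset V).card ≤ dH G x S := le_dH fun b hb => by
    rw [mem_singleton.1 hb]
    exact ⟨h.yS, h.ne.symm, h.non⟩
  rw [card_singleton] at h3 h4
  omega

theorem good_tri {S : Finset V} {a b c : V} (h : ∀ y, y ∈ S ↔ y = a ∨ y = b ∨ y = c)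
    (hab : G.Adj a b) (hac : G.Adj a c) (hbc : G.Adj b c) : Good G S := by
  refine ⟨?_, twoC_pair hab ((h a).2 (Or.inl rfl)) ((h b).2 (Or.inr (Or.inl rfl)))
    fun y hy h1 h2 => ?_⟩
  · rw [card_eq_three.2 ⟨a, b, c, hab.ne, hac.ne, hbc.ne, by ext y; simp [h]⟩]
  · rcases (h y).1 hy with g | g | g
    · exact absurd g h1
    · exact absurd g h2
    · exact g ▸ ⟨hac.symm, hbc.symm⟩

theorem good_tri' {a b c : V} (hab : G.Adj a b) (hac : G.Adj a c) (hbc : G.Adj b c) :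
    Good G {a, b, c} :=
  good_tri (by simp) hab hac hbc

theorem twoC_edge {a b : V} (hab : G.Adj a b) : TwoC G {a, b} := by
  refine twoC_pair hab (by simp) (by simp) fun y hy h1 h2 => ?_
  simp only [mem_insert, mem_singleton] at hy
  exact absurd (hy.resolve_left h1) h2

variable {ι : Type} [Fintype ι] [DecidableEq ι] {n : ι → ℕ} [Fintype V]

/-- The state has the least potential among states whose bad part is a path on three vertices. -/
def MinP (G : SimpleGraph V) (n : ι → ℕ) (F : ι → Finset V) : Prop :=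
  ∀ (F' : ι → Finset V) (i : ι) (x v y : V), St G n F' i → P3 G (F' i) x v y → Phi G F ≤ Phi G F'

theorem rep_tri {F : ι → Finset V} {i j : ι} (h : St G n F i) (hij : j ≠ i) (h3 : n i = 3)
    {a b d : V} (ha : a ∈ F i ∨ a ∈ F j) (hb : b ∈ F i ∨ b ∈ F j) (hd : d ∈ F i ∨ d ∈ F j)
    (hab : G.Adj a b) (had : G.Adj a d) (hbd : G.Adj b d) :
    ∃ F' : ι → Finset V, St G n F' j ∧
      (∀ y, y ∈ F' j ↔ (y ∈ F i ∨ y ∈ F j) ∧ y ≠ a ∧ y ≠ b ∧ y ≠ d) ∧
      ∀ l, l ≠ i → l ≠ j → F' l = F l := by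
  obtain ⟨F', -, e2, e3, -, -, h5⟩ := h.rep hij (S' := {a, b, d}) (T' := (F i ∪ F j) \ {a, b, d})
    (fun y => by
      simp only [mem_insert, mem_singleton, mem_sdiff, mem_union]
      constructor
      · rintro ((rfl | rfl | rfl) | g)
        · exact ha
        · exact hb
        · exact hd
        · exact g.1
      · intro g
        by_cases g' : y = a ∨ y = b ∨ y = d
        · exact Or.inl g'
        · exact Or.inr ⟨g, g'⟩)
    (fun y hy hy' => (mem_sdiff.1 hy').2 hy)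
    (by rw [h3]; exact card_eq_three.2 ⟨a, b, d, hab.ne, had.ne, hbd.ne, rfl⟩)
  refine ⟨F', h5 (good_tri' hab had hbd), fun y => ?_, e3⟩
  rw [e2]
  simp only [mem_insert, mem_singleton, mem_sdiff, mem_union, not_or]

theorem p1half (c : Ctx G n) {F : ι → Finset V} {i j : ι} (h : St G n F i) (hij : j ≠ i)
    {x v y z u c' : V} {D : Finset V} (hp : P3 G (F i) x v y) (hs : Side G (F j) u z D)
    (hD : ∀ d ∈ D, ¬G.Adj x d) (hxz : G.Adj x z) (hc' : c' ∈ F j) (hcz : c' ≠ z)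
    (hxc : G.Adj x c') : ∃ d ∈ D, Good G (insert x ((F j).erase d)) := by
  have hxT : x ∉ F j := h.1.disj i j hij.symm x hp.xS
  rcases lemF c.tri (h.2 j hij) hs hxT hD hxz hc' hcz hxc with g | ⟨d1, h1, d2, h2, h12, n1, n2, g⟩
  · exact g
  · obtain ⟨F', hst, e, -⟩ := moveF c h hij hp.pend h1 h2 h12 n1 n2
    exact (noSemi c hst g (mem_insert_self _ _) hp.xv.symm fun a => by rw [e, mem_insert]).elim

theorem p1step (c : Ctx G n) {F : ι → Finset V} {i j : ι} (h : St G n F i) (hij : j ≠ i)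
    {x v y d : V} (hp : P3 G (F i) x v y) (hmin : MinP G n F) (hd : d ∈ F j) (hxd : ¬G.Adj x d)
    (hg : Good G (insert x ((F j).erase d))) :
    eH G (F i) + eH G (F j) ≤ eH G (insert d ((F i).erase x)) + eH G (insert x ((F j).erase d)) := by
  have hdS : d ∉ F i := h.1.disj j i hij d hd
  have hyd : G.Adj y d := c.tri x y d hp.ne.symm (fun h' => hdS (h' ▸ hp.xS))
    (fun h' => hdS (h' ▸ hp.yS)) hp.non hxd
  by_cases hvd : G.Adj v d
  · exact absurd hg (c.swap_bad h hij hp.xS hd (good_tri (hp.mem_swap d) hp.yv.symm hvd hyd))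
  obtain ⟨F', e1, -, -, e4, h5, -⟩ := h.swap hij hp.xS hd
  have := hmin F' i v y d (h5 hg)
    ⟨e1 ▸ hp.mem_swap d, hp.yv.symm, hyd.symm, fun h' => hdS (h' ▸ hp.vS), hvd⟩
  omega

theorem p1a (c : Ctx G n) {F : ι → Finset V} {i j : ι} (h : St G n F i) (hij : j ≠ i)
    {x v y z : V} (hp : P3 G (F i) x v y) (hmin : MinP G n F) (h4 : 4 ≤ n j) (hz : z ∈ F j)
    (hxz : G.Adj x z) (hyz : G.Adj y z) (hvz : G.Adj v z) : False := by
  have hT := h.2 j hij
  have hxT : x ∉ F j := h.1.disj i j hij.symm x hp.xS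
  have hyT : y ∉ F j := h.1.disj i j hij.symm y hp.yS
  obtain ⟨u, D, hs, hD⟩ := cut_data hT hz hxT
    (c.swap_bad h hij hp.xS hz (good_tri (hp.mem_swap z) hp.yv.symm hvz hyz))
  obtain ⟨u', D', hs', hD'⟩ := cut_data hT hz hyT
    (c.swap_bad h hij hp.yS hz (good_tri (hp.symm.mem_swap z) hp.xv.symm hvz hxz))
  obtain ⟨e, he⟩ := hs.ne
  obtain ⟨e', he'⟩ := hs'.ne
  have se := hs.sub e he
  have se' := hs'.sub e' he'
  obtain ⟨d, hd, hg⟩ := p1half c h hij hp hs hD hxz se'.1 se'.2.2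
    (c.tri y x e' hp.ne (fun h' => hyT (h' ▸ se'.1)) (fun h' => hxT (h' ▸ se'.1)) hp.symm.non
      (hD' e' he'))
  obtain ⟨d', hd', hg'⟩ := p1half c h hij hp.symm hs' hD' hyz se.1 se.2.2
    (c.tri x y e hp.ne.symm (fun h' => hxT (h' ▸ se.1)) (fun h' => hyT (h' ▸ se.1)) hp.non
      (hD e he))
  obtain ⟨g1, g2, g3⟩ := shift_pair c.tri hT (h.1.card j ▸ h4) hxT hyT hp.ne hp.non hs hD hs' hD'
    hd hd' hg hg'
  have a1 := p1step c h hij hp hmin (hs.sub d hd).1 (hD d hd) hg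
  have a2 := p1step c h hij hp.symm hmin (hs'.sub d' hd').1 (hD' d' hd') hg'
  have b1 : ({y} : Finset V).card ≤ dH G x (F i) := le_dH fun b hb => by
    rw [mem_singleton.1 hb]
    exact ⟨hp.yS, hp.ne.symm, hp.non⟩
  have b2 : ({x} : Finset V).card ≤ dH G y (F i) := le_dH fun b hb => by
    rw [mem_singleton.1 hb]
    exact ⟨hp.xS, hp.ne, hp.symm.non⟩
  rw [card_singleton] at b1 b2
  have := shift c.tri (h.1.disj i j hij.symm) hp.xS hp.yS (hs'.sub d' hd').1 (hs.sub d hd).1 hp.ne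
    g1 hp.non g2 (hD d hd) (hD' d' hd') (by rw [hp.card]; omega) g3
  omega

theorem p2 (c : Ctx G n) {F : ι → Finset V} {i j : ι} (h : St G n F i) (hij : j ≠ i)
    {x v y z z' : V} (hp : P3 G (F i) x v y) (h3 : n j = 3) (hz : z ∈ F j) (hz' : z' ∈ F j)
    (hzz : z ≠ z') (hxz : G.Adj x z) (hyz : G.Adj y z) (hxz' : G.Adj x z') (hyz' : G.Adj y z') :
    ∃ t, (∀ a, a ∈ F j ↔ a = z ∨ a = z' ∨ a = t) ∧ G.Adj z z' ∧ G.Adj z t ∧ G.Adj z' t ∧
      ¬G.Adj v z ∧ ¬G.Adj v z' ∧ ¬G.Adj v t := by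
  have hT := h.2 j hij
  have hc3 : (F j).card = 3 := (h.1.card j).trans h3
  have hclq := hT.clq3 hc3
  have hxT : x ∉ F j := h.1.disj i j hij.symm x hp.xS
  have hyT : y ∉ F j := h.1.disj i j hij.symm y hp.yS
  obtain ⟨t, ht, htz, htz'⟩ : ∃ t ∈ F j, t ≠ z ∧ t ≠ z' := by
    by_contra hn
    push Not at hn
    have : F j ⊆ {z, z'} := by
      intro a ha
      by_cases h1 : a = z
      · simp [h1]
      · simp [hn a ha h1]
    have h2 := card_le_card this
    have h4 : ({z, z'} : Finset V).card ≤ 2 := card_le_two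
    omega
  have hS : F j = {z, z', t} := by
    symm
    apply eq_of_subset_of_card_le (sub3 hz hz' ht)
    rw [hc3, card_eq_three.2 ⟨z, z', t, hzz, htz.symm, htz'.symm, rfl⟩]
  have hmem : ∀ a, a ∈ F j ↔ a = z ∨ a = z' ∨ a = t := by simp [hS]
  have a1 := hclq z hz z' hz' hzz
  have a2 := hclq z hz t ht htz.symm
  have a3 := hclq z' hz' t ht htz'.symm
  have hxy : G.Adj x t ∨ G.Adj y t := by
    by_contra hn
    rw [not_or] at hn
    exact hp.non (c.tri t x y (fun h' => hxT (h' ▸ ht)) (fun h' => hyT (h' ▸ ht)) hp.ne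
      (fun h' => hn.1 h'.symm) fun h' => hn.2 h'.symm)
  have key : ∀ s ∈ F j, ∀ p q w : V, (∀ a, a ∈ F j ↔ a = s ∨ a = p ∨ a = q) → s ≠ p → s ≠ q →
      ∀ w' : V, P3 G (F i) w v w' → G.Adj v s → G.Adj w' s → G.Adj w p → G.Adj w q → G.Adj p q →
      False := by
    intro s hs p q w hm hsp hsq w' hp' g1 g2 g3 g4 g5
    refine c.swap_bad h hij hp'.xS hs (good_tri (hp'.mem_swap s) hp'.yv.symm g1 g2)
      (good_tri (a := w) (b := p) (c := q) (fun a => ?_) g3 g4 g5)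
    simp only [mem_insert, mem_erase, hm]
    constructor
    · rintro (g | ⟨g1, g | g | g⟩)
      · exact Or.inl g
      · exact absurd g g1
      · exact Or.inr (Or.inl g)
      · exact Or.inr (Or.inr g)
    · rintro (g | rfl | rfl)
      · exact Or.inl g
      · exact Or.inr ⟨hsp.symm, Or.inr (Or.inl rfl)⟩
      · exact Or.inr ⟨hsq.symm, Or.inr (Or.inr rfl)⟩
  refine ⟨t, hmem, a1, a2, a3, fun g => ?_, fun g => ?_, fun g => ?_⟩
  · rcases hxy with g' | g'
    · exact key z hz z' t x hmem hzz htz.symm y hp g hyz hxz' g' a3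
    · exact key z hz z' t y hmem hzz htz.symm x hp.symm g hxz hyz' g' a3
  · have hm : ∀ a, a ∈ F j ↔ a = z' ∨ a = z ∨ a = t := fun a => by rw [hmem]; tauto
    rcases hxy with g' | g'
    · exact key z' hz' z t x hm hzz.symm htz'.symm y hp g hyz' hxz g' a2
    · exact key z' hz' z t y hm hzz.symm htz'.symm x hp.symm g hxz' hyz g' a2
  · have hm : ∀ a, a ∈ F j ↔ a = t ∨ a = z ∨ a = z' := fun a => by rw [hmem]; tauto
    rcases hxy with g' | g'
    · exact key t ht z z' y hm htz htz' x hp.symm g g' hyz hyz' a1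
    · exact key t ht z z' x hm htz htz' y hp g g' hxz hxz' a1

end Pool.Agent.Lib.MP_af3016_co
end

-- part Pool.Agent.Lib.MP_af3016_co.StepC2
section

/-! A bad part that is a path on three vertices is impossible. -/

set_option autoImplicit false
set_option linter.unusedSectionVars false

namespace Pool.Agent.Lib.MP_af3016_co

open Finset

variable {V : Type} [DecidableEq V] {G : SimpleGraph V}
variable {ι : Type} [Fintype ι] [DecidableEq ι] {n : ι → ℕ} [Fintype V]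

theorem clq_tri {K : Finset V} (hK : Clq G K) (h3 : 2 < K.card) :
    ∃ a ∈ K, ∃ b ∈ K, ∃ d ∈ K, G.Adj a b ∧ G.Adj a d ∧ G.Adj b d := by
  obtain ⟨a, b, d, ha, hb, hd, h1, h2, h4⟩ := two_lt_card_iff.1 h3
  exact ⟨a, ha, b, hb, d, hd, hK a ha b hb h1, hK a ha d hd h2, hK b hb d hd h4⟩

theorem notri (c : Ctx G n) {F : ι → Finset V} {i j : ι} (h : St G n F i) (hij : j ≠ i)
    {x v y z : V} (hp : P3 G (F i) x v y) (hz : z ∈ F j) (hxz : G.Adj x z) (hyz : G.Adj y z)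
    (hvz : ¬G.Adj v z) {a b d : V} (ha : a ∈ (F j).erase z) (hb : b ∈ (F j).erase z)
    (hd : d ∈ (F j).erase z) (hab : G.Adj a b) (had : G.Adj a d) (hbd : G.Adj b d) : False := by
  rw [mem_erase] at ha hb hd
  obtain ⟨F', hst, hm, -⟩ := rep_tri h hij (h.1.card i ▸ hp.card) (Or.inr ha.2) (Or.inr hb.2)
    (Or.inr hd.2) hab had hbd
  have mS : ∀ s ∈ F i, s ∈ F' j := by
    intro s hs
    have := h.1.disj i j hij.symm s hs
    exact (hm s).2 ⟨Or.inl hs, fun h' => this (h' ▸ ha.2), fun h' => this (h' ▸ hb.2),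
      fun h' => this (h' ▸ hd.2)⟩
  have mz : z ∈ F' j := (hm z).2 ⟨Or.inr hz, ha.1.symm, hb.1.symm, hd.1.symm⟩
  have hzS : z ∉ F i := h.1.disj j i hij z hz
  have hvz' : v ≠ z := fun h' => hzS (h' ▸ hp.vS)
  have hQ : TwoC G {x, v, y, z} := by
    refine TwoC.union (twoC_edge hp.xv) (twoC_edge hyz) (fun s => ?_) (a := x) (b := z) (a' := v)
      (b' := y) (by simp) (by simp) (by simp) (by simp) hxz hp.yv.symm hp.xv.ne hyz.ne.symm hp.ne
      hvz'.symm
    simp only [mem_insert, mem_singleton]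
    tauto
  refine c.bad hst ⟨hst.1.card j ▸ c.n3 j, hQ.grow (fun s hs => ?_) fun s _ hs => ?_⟩
  · simp only [mem_insert, mem_singleton] at hs
    rcases hs with rfl | rfl | rfl | rfl
    · exact mS _ hp.xS
    · exact mS _ hp.vS
    · exact mS _ hp.yS
    · exact mz
  · simp only [mem_insert, mem_singleton, not_or] at hs
    obtain ⟨s1, s2, s3, s4⟩ := hs
    have g1 : G.Adj s x ∨ G.Adj s y := by
      by_contra hn
      rw [not_or] at hn
      exact hp.non (c.tri s x y (Ne.symm s1) (Ne.symm s3) hp.ne hn.1 hn.2)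
    have g2 : G.Adj s v ∨ G.Adj s z := by
      by_contra hn
      rw [not_or] at hn
      exact hvz (c.tri s v z (Ne.symm s2) (Ne.symm s4) hvz' hn.1 hn.2)
    rcases g1 with g1 | g1 <;> rcases g2 with g2 | g2
    · exact ⟨x, by simp, v, by simp, hp.xv.ne, g1, g2⟩
    · exact ⟨x, by simp, z, by simp, hxz.ne, g1, g2⟩
    · exact ⟨y, by simp, v, by simp, hp.yv.ne, g1, g2⟩
    · exact ⟨y, by simp, z, by simp, hyz.ne, g1, g2⟩

theorem p1c (c : Ctx G n) {F : ι → Finset V} {i j : ι} (h : St G n F i) (hij : j ≠ i)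
    {x v y z t : V} (hp : P3 G (F i) x v y) (h4 : 4 ≤ n j) (hz : z ∈ F j) (hxz : G.Adj x z)
    (hyz : G.Adj y z) (hvz : ¬G.Adj v z) (ht : t ∈ F j) (hvt : G.Adj v t) (hxt : ¬G.Adj x t) :
    False := by
  have nt := @notri _ _ _ _ _ _ _ _ c _ _ _ h hij _ _ _ _ hp hz hxz hyz hvz
  have hT := h.2 j hij
  have hST := h.1.disj i j hij.symm
  have hxT := hST x hp.xS
  have hyT := hST y hp.yS
  have hvT := hST v hp.vS
  have htz : t ≠ z := fun h' => hvz (h' ▸ hvt)
  have hyt : G.Adj y t := c.tri x y t hp.ne.symm (fun h' => hxT (h' ▸ ht))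
    (fun h' => hyT (h' ▸ ht)) hp.non hxt
  obtain ⟨u, D, hs, hD⟩ := cut_data hT ht hxT
    (c.swap_bad h hij hp.xS ht (good_tri (hp.mem_swap t) hp.yv.symm hvt hyt))
  have hzD : z ∉ D := fun h' => hD z h' hxz
  obtain ⟨d, hd⟩ := hs.ne
  have sd := hs.sub d hd
  have adjt : ∀ e ∈ D, G.Adj e t := fun e he =>
    c.tri x e t (fun h' => hxT (h' ▸ (hs.sub e he).1)) (fun h' => hxT (h' ▸ ht))
      (hs.sub e he).2.2 (hD e he) hxt
  have hD1 : ∀ e ∈ D, e = d := by
    intro e he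
    by_contra hed
    exact nt (mem_erase.2 ⟨fun h' => hzD (h' ▸ he), (hs.sub e he).1⟩)
      (mem_erase.2 ⟨fun h' => hzD (h' ▸ hd), sd.1⟩) (mem_erase.2 ⟨htz, ht⟩)
      (hs.clqD c.tri hxT hD e he d hd hed) (adjt e he) (adjt d hd)
  have hDc : D.card = 1 := card_eq_one.2 ⟨d, eq_singleton_iff_unique_mem.2 ⟨hd, hD1⟩⟩
  have hdt := adjt d hd
  have hyd : G.Adj y d := c.tri x y d hp.ne.symm (fun h' => hxT (h' ▸ sd.1))
    (fun h' => hyT (h' ▸ sd.1)) hp.non (hD d hd)
  have hud : G.Adj u d := by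
    obtain ⟨b, hb, hub⟩ := hs.attU (hT.2.2 t)
    exact hD1 b hb ▸ hub
  have hcard := hs.card_co
  rw [h.1.card j] at hcard
  have hclq := hs.clqC c.tri hxT hD
  have hC : ∀ a ∈ Side.co (F j) u t D, a ∈ F j ∧ a ≠ d ∧ a ≠ u ∧ a ≠ t := by
    intro a ha
    rw [Side.mem_co] at ha
    exact ⟨ha.1, fun h' => ha.2.1 (h' ▸ hd), ha.2.2⟩
  have hTm : ∀ a ∈ F j, a ∈ Side.co (F j) u t D ∨ a = u ∨ a = t ∨ a = d := by
    intro a ha
    by_cases g1 : a = u
    · exact Or.inr (Or.inl g1)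
    by_cases g2 : a = t
    · exact Or.inr (Or.inr (Or.inl g2))
    by_cases g3 : a ∈ D
    · exact Or.inr (Or.inr (Or.inr (hD1 a g3)))
    exact Or.inl (Side.mem_co.2 ⟨ha, g3, g1, g2⟩)
  have hxC : ∀ a ∈ Side.co (F j) u t D, G.Adj x a := fun a ha =>
    hclq x (mem_insert_self _ _) a (mem_insert_of_mem ha) fun h' => hxT (h' ▸ (hC a ha).1)
  have hCC : ∀ a ∈ Side.co (F j) u t D, ∀ b ∈ Side.co (F j) u t D, a ≠ b → G.Adj a b :=
    fun a ha b hb => hclq a (mem_insert_of_mem ha) b (mem_insert_of_mem hb)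
  have hzC : z ∈ Side.co (F j) u t D ∨ z = u := by
    rcases hTm z hz with g | g | g | g
    · exact Or.inl g
    · exact Or.inr g
    · exact absurd g.symm htz
    · exact absurd (g ▸ hd) hzD
  have hut : u ≠ z → ¬G.Adj t u := fun g g' =>
    nt (mem_erase.2 ⟨g, hs.uT⟩) (mem_erase.2 ⟨htz, ht⟩)
      (mem_erase.2 ⟨fun h' => hzD (h' ▸ hd), sd.1⟩) g'.symm hud hdt.symm
  have hF4 : Good G {v, y, t, d} :=
    (good_tri' hyt hyd hdt.symm).ear (a := y) (b := t) (by simp) (by simp) hyt.ne hp.yv.symm hvt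
  -- what remains after a triangle through x is removed
  have rem : ∀ a b : V, a ∈ F j → b ∈ F j → a ≠ t → a ≠ d → b ≠ t → b ≠ d → G.Adj x a →
      G.Adj x b → G.Adj a b → ∃ F' : ι → Finset V, St G n F' j ∧
        ∀ s, s ∈ F' j ↔ s ∈ ({v, y, t, d} : Finset V) ∨ (s ∈ F j ∧ s ≠ a ∧ s ≠ b) := by
    intro a b ha hb g1 g2 g3 g4 g5 g6 g7
    obtain ⟨F', hst, hm, -⟩ := rep_tri h hij (h.1.card i ▸ hp.card) (Or.inl hp.xS) (Or.inr ha)
      (Or.inr hb) g5 g6 g7
    refine ⟨F', hst, fun s => ?_⟩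
    rw [hm, hp.mem]
    simp only [mem_insert, mem_singleton]
    constructor
    · rintro ⟨(g | g | g) | g, g8, g9⟩
      · exact absurd g g8
      · exact Or.inl (Or.inl g)
      · exact Or.inl (Or.inr (Or.inl g))
      · exact Or.inr ⟨g, g9⟩
    · rintro ((rfl | rfl | rfl | rfl) | g)
      · exact ⟨Or.inl (Or.inr (Or.inl rfl)), hp.xv.ne.symm, fun h' => hvT (h' ▸ ha),
          fun h' => hvT (h' ▸ hb)⟩
      · exact ⟨Or.inl (Or.inr (Or.inr rfl)), hp.ne.symm, fun h' => hyT (h' ▸ ha),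
          fun h' => hyT (h' ▸ hb)⟩
      · exact ⟨Or.inr ht, fun h' => hxT (h' ▸ ht), g1.symm, g3.symm⟩
      · exact ⟨Or.inr sd.1, fun h' => hxT (h' ▸ sd.1), g2.symm, g4.symm⟩
      · exact ⟨Or.inr g.1, fun h' => hxT (h' ▸ g.1), g.2⟩
  have hle : ((Side.co (F j) u t D).erase z).card ≤ 2 := by
    by_contra hn
    obtain ⟨a, ha, b, hb, e, he, g1, g2, g3⟩ := clq_tri (G := G)
      (K := (Side.co (F j) u t D).erase z)
      (fun a ha b hb => hCC a (mem_of_mem_erase ha) b (mem_of_mem_erase hb)) (by omega)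
    rw [mem_erase] at ha hb he
    exact nt (mem_erase.2 ⟨ha.1, (hC a ha.2).1⟩) (mem_erase.2 ⟨hb.1, (hC b hb.2).1⟩)
      (mem_erase.2 ⟨he.1, (hC e he.2).1⟩) g1 g2 g3
  have hle' := pred_card_le_card_erase (s := Side.co (F j) u t D) (a := z)
  by_cases k1 : (Side.co (F j) u t D).card = 1
  · obtain ⟨c0, hc0⟩ := card_eq_one.1 k1
    have m0 : c0 ∈ Side.co (F j) u t D := hc0 ▸ mem_singleton_self _
    have s0 := hC c0 m0
    have huc : G.Adj u c0 := by
      obtain ⟨b, hb, hub⟩ := (hs.coSide ⟨c0, m0⟩).attU (hT.2.2 t)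
      rw [hc0, mem_singleton] at hb
      exact hb ▸ hub
    have hxu : G.Adj x u := by
      by_cases g : u = z
      · exact g ▸ hxz
      · exact c.tri t x u (fun h' => hxT (h' ▸ ht)) hs.uz (fun h' => hxT (h' ▸ hs.uT))
          (fun h' => hxt h'.symm) (hut g)
    obtain ⟨F', hst, hm⟩ := rem c0 u s0.1 hs.uT s0.2.2.2 s0.2.1 hs.uz sd.2.1.symm (hxC c0 m0) hxu
      huc.symm
    apply c.bad hst
    have : F' j = {v, y, t, d} := by
      ext s
      rw [hm]
      constructor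
      · rintro (g | ⟨g1, g2, g3⟩)
        · exact g
        · rcases hTm s g1 with g | g | g | g
          · rw [hc0, mem_singleton] at g
            exact absurd g g2
          · exact absurd g g3
          · simp [g]
          · simp [g]
      · exact Or.inl
    exact this ▸ hF4
  by_cases k2 : (Side.co (F j) u t D).card = 2
  · obtain ⟨c1, c2, h12, hc⟩ := card_eq_two.1 k2
    have m1 : c1 ∈ Side.co (F j) u t D := by simp [hc]
    have m2 : c2 ∈ Side.co (F j) u t D := by simp [hc]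
    have s1 := hC c1 m1
    have s2 := hC c2 m2
    obtain ⟨F', hst, hm⟩ := rem c1 c2 s1.1 s2.1 s1.2.2.2 s1.2.1 s2.2.2.2 s2.2.1 (hxC c1 m1)
      (hxC c2 m2) (hCC c1 m1 c2 m2 h12)
    refine noSemi c hst hF4 (a := d) (by simp) hud fun s => ?_
    rw [hm]
    constructor
    · rintro (g | ⟨g1, g2, g3⟩)
      · exact Or.inr g
      · rcases hTm s g1 with g | g | g | g
        · rw [hc] at g
          simp only [mem_insert, mem_singleton] at g
          exact absurd (g.resolve_left g2) g3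
        · exact Or.inl g
        · simp [g]
        · simp [g]
    · rintro (rfl | g)
      · exact Or.inr ⟨hs.uT, s1.2.2.1.symm, s2.2.2.1.symm⟩
      · exact Or.inl g
  have hzC' : z ∈ Side.co (F j) u t D := by
    by_contra g
    rw [erase_eq_of_notMem g] at hle
    omega
  have huz : u ≠ z := (hC z hzC').2.2.1.symm
  obtain ⟨c1, c2, h12, hc⟩ := card_eq_two.1
    (show ((Side.co (F j) u t D).erase z).card = 2 by omega)
  have m1' : c1 ∈ (Side.co (F j) u t D).erase z := by simp [hc]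
  have m2' : c2 ∈ (Side.co (F j) u t D).erase z := by simp [hc]
  have m1 := mem_of_mem_erase m1'
  have m2 := mem_of_mem_erase m2'
  have s1 := hC c1 m1
  have s2 := hC c2 m2
  obtain ⟨F', hst, hm⟩ := rem c1 c2 s1.1 s2.1 s1.2.2.2 s1.2.1 s2.2.2.2 s2.2.1 (hxC c1 m1)
    (hxC c2 m2) (hCC c1 m1 c2 m2 h12)
  have hm' : ∀ s, s ∈ F' j ↔ s = u ∨ s ∈ insert z ({v, y, t, d} : Finset V) := by
    intro s
    rw [hm, mem_insert (a := s) (b := z)]
    constructor
    · rintro (g | ⟨g1, g2, g3⟩)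
      · exact Or.inr (Or.inr g)
      · rcases hTm s g1 with g | g | g | g
        · by_cases g4 : s = z
          · exact Or.inr (Or.inl g4)
          · have g5 : s ∈ (Side.co (F j) u t D).erase z := mem_erase.2 ⟨g4, g⟩
            rw [hc] at g5
            simp only [mem_insert, mem_singleton] at g5
            exact absurd (g5.resolve_left g2) g3
        · exact Or.inl g
        · simp [g]
        · simp [g]
    · rintro (rfl | rfl | g)
      · exact Or.inr ⟨hs.uT, s1.2.2.1.symm, s2.2.2.1.symm⟩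
      · exact Or.inr ⟨hz, (mem_erase.1 m1').1.symm, (mem_erase.1 m2').1.symm⟩
      · exact Or.inl g
  by_cases hzt : G.Adj z t
  · exact noSemi c hst (hF4.ear (a := y) (b := t) (by simp) (by simp) hyt.ne hyz.symm hzt)
      (a := d) (by simp) hud hm'
  · have hzu : G.Adj z u := c.tri t z u htz.symm hs.uz huz.symm (fun h' => hzt h'.symm) (hut huz)
    refine c.bad hst ⟨hst.1.card j ▸ c.n3 j, TwoC.union hF4.2 (twoC_edge hzu) (fun s => ?_)
      (a := y) (b := z) (a' := d) (b' := u) (by simp) (by simp) (by simp) (by simp) hyz hud.symm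
      hyd.ne hzu.ne (fun h' => hyT (h' ▸ hs.uT)) fun h' => hzD (h' ▸ hd)⟩
    rw [hm']
    simp only [mem_insert, mem_singleton]
    tauto

theorem p1 (c : Ctx G n) {F : ι → Finset V} {i j : ι} (h : St G n F i) (hij : j ≠ i)
    {x v y z : V} (hp : P3 G (F i) x v y) (hmin : MinP G n F) (h4 : 4 ≤ n j) (hz : z ∈ F j)
    (hxz : G.Adj x z) (hyz : G.Adj y z) : False := by
  have hvz : ¬G.Adj v z := p1a c h hij hp hmin h4 hz hxz hyz
  have hvT := h.1.disj i j hij.symm v hp.vS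
  obtain ⟨t, ht, hvt⟩ : ∃ t ∈ F j, G.Adj v t := by
    by_contra hn
    push Not at hn
    obtain ⟨a, ha, b, hb, e, he, g1, g2, g3⟩ := clq_tri (G := G) (K := (F j).erase z)
      (c.tri.clq v fun a ha => ⟨fun h' => hvT (h' ▸ mem_of_mem_erase ha),
        hn a (mem_of_mem_erase ha)⟩) (by rw [card_erase_of_mem hz, h.1.card]; omega)
    exact notri c h hij hp hz hxz hyz hvz ha hb he g1 g2 g3
  by_cases hxt : G.Adj x t
  · exact p1c c h hij hp.symm h4 hz hyz hxz hvz ht hvt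
      fun hyt => p1a c h hij hp hmin h4 ht hxt hyt hvt
  · exact p1c c h hij hp h4 hz hxz hyz hvz ht hvt hxt

theorem p3pick (c : Ctx G n) {F : ι → Finset V} {i : ι} (h : St G n F i) {x v y : V}
    (hp : P3 G (F i) x v y) (hmin : MinP G n F) :
    ∃ j, j ≠ i ∧ n j = 3 ∧ ∃ z ∈ F j, ∃ z' ∈ F j, z ≠ z' ∧ G.Adj x z ∧ G.Adj y z ∧
      G.Adj x z' ∧ G.Adj y z' := by
  classical
  obtain ⟨j, hj, h1⟩ := c.pigeon h.1 (i := i) (v := v) hp.ne hp.non fun w hw g1 g2 => by
    rcases (hp.mem w).1 hw with g | g | g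
    · exact absurd g.symm g1.ne
    · exact g
    · exact absurd g.symm g2.ne
  have h3 : n j = 3 := by
    by_contra hn
    obtain ⟨z, hz⟩ := card_pos.1 (lt_of_lt_of_le (Nat.succ_pos _) h1)
    rw [mem_filter] at hz
    have := c.n3 j
    exact p1 c h hj hp hmin (by omega) hz.1 hz.2.1 hz.2.2
  rw [h3] at h1
  obtain ⟨z, hz, z', hz', hzz⟩ := one_lt_card.1 h1
  rw [mem_filter] at hz hz'
  exact ⟨j, hj, h3, z, hz.1, z', hz'.1, hzz, hz.2.1, hz.2.2, hz'.2.1, hz'.2.2⟩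

theorem p3fin (c : Ctx G n) {F : ι → Finset V} {i j : ι} (h : St G n F i) (hij : j ≠ i)
    {x v y z z' t : V} (hp : P3 G (F i) x v y) (hmin : MinP G n F)
    (hm : ∀ a, a ∈ F j ↔ a = z ∨ a = z' ∨ a = t) (a1 : G.Adj z z') (a2 : G.Adj z t)
    (a3 : G.Adj z' t) (n1 : ¬G.Adj v z) (n2 : ¬G.Adj v z') (n3 : ¬G.Adj v t) (hxz : G.Adj x z)
    (hyz : G.Adj y z) (hxz' : G.Adj x z') (hyz' : G.Adj y z') (hyt : G.Adj y t) : False := by
  have hz : z ∈ F j := (hm z).2 (Or.inl rfl)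
  have hz' : z' ∈ F j := (hm z').2 (Or.inr (Or.inl rfl))
  have ht : t ∈ F j := (hm t).2 (Or.inr (Or.inr rfl))
  have hST := h.1.disj i j hij.symm
  have hvz : v ≠ z := fun h' => hST v hp.vS (h' ▸ hz)
  have hsw : ∀ w a, a ∈ insert w ((F j).erase z) ↔ a = w ∨ a = z' ∨ a = t := by
    intro w a
    simp only [mem_insert, mem_erase, hm]
    constructor
    · rintro (g | ⟨g1, g | g | g⟩)
      · exact Or.inl g
      · exact absurd g g1
      · exact Or.inr (Or.inl g)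
      · exact Or.inr (Or.inr g)
    · rintro (g | rfl | rfl)
      · exact Or.inl g
      · exact Or.inr ⟨a1.ne.symm, Or.inr (Or.inl rfl)⟩
      · exact Or.inr ⟨a2.ne.symm, Or.inr (Or.inr rfl)⟩
  have hgT := good_tri hm a1 a2 a3
  have hj3 : n j = 3 := by
    rw [← h.1.card j]
    exact card_eq_three.2 ⟨z, z', t, a1.ne, a2.ne, a3.ne, by ext a; simp [hm]⟩
  -- first plateau state
  obtain ⟨F1, e1, e2, e3, e4, h5, -⟩ := h.swap hij hp.yS hz
  have hg1 := good_tri (hsw y) hyz' hyt a3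
  have st1 := h5 hg1
  have hp1 : P3 G (F1 i) v x z := ⟨e1 ▸ hp.symm.mem_swap z, hp.xv.symm, hxz.symm, hvz, n1⟩
  have hmin1 : MinP G n F1 := by
    intro F' i' x' v' y' g1 g2
    have g3 := hmin F' i' x' v' y' g1 g2
    have g4 := hp.eH
    have g5 := hp1.eH
    have g6 := (hgT.clq3 ((h.1.card j).trans hj3)).eH
    have g7 := (hg1.clq3 (e2 ▸ (st1.1.card j).trans hj3)).eH
    rw [e1] at g5
    omega
  obtain ⟨l, hl, l3, g, hg, g', hg', hgg, b1, b2, b3, b4⟩ := p3pick c st1 hp1 hmin1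
  have hlj : l ≠ j := by
    rintro rfl
    rw [e2, hsw] at hg hg'
    have f1 : g = y := by
      rcases hg with f | f | f
      · exact f
      · exact absurd (f ▸ b1) n2
      · exact absurd (f ▸ b1) n3
    have f2 : g' = y := by
      rcases hg' with f | f | f
      · exact f
      · exact absurd (f ▸ b3) n2
      · exact absurd (f ▸ b3) n3
    exact hgg (f1.trans f2.symm)
  obtain ⟨k, hk, c1, c2, c3, d1, d2, d3⟩ := p2 c st1 hl hp1 l3 hg hg' hgg b1 b2 b3 b4
  rw [e3 l hl hlj] at hg hg' hk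
  have hkl : k ∈ F l := (hk k).2 (Or.inr (Or.inr rfl))
  have hSl := h.1.disj i l hl.symm
  by_cases hxt : G.Adj x t
  · obtain ⟨F2, f1, f2, f3, -, h6, -⟩ := h.swap hij hp.xS hz
    have st2 := h6 (good_tri (hsw x) hxz' hxt a3)
    have hp2 : P3 G (F2 i) v y z := ⟨f1 ▸ hp.mem_swap z, hp.yv.symm, hyz.symm, hvz, n1⟩
    obtain ⟨-, -, -, -, -, d4, -⟩ := p2 c st2 hl hp2 l3 (f3 l hl hlj ▸ hg) (f3 l hl hlj ▸ hg')
      hgg b1 b2 b3 b4
    exact hp.non (c.tri g x y (fun h' => hSl x hp.xS (h' ▸ hg)) (fun h' => hSl y hp.yS (h' ▸ hg))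
      hp.ne (fun h' => d1 h'.symm) fun h' => d4 h'.symm)
  · -- three parts are rebuilt
    obtain ⟨F3, st3, hm3, f3⟩ := rep_tri h hij (h.1.card i ▸ hp.card) (Or.inl hp.xS) (Or.inr hz)
      (Or.inr hz') hxz hxz' a1
    have hvj : v ∈ F3 j := (hm3 v).2 ⟨Or.inl hp.vS, hp.xv.ne.symm, hvz,
      fun h' => hST v hp.vS (h' ▸ hz')⟩
    have hkl3 : k ∈ F3 l := f3 l hl hlj ▸ hkl
    have hxT := hST x hp.xS
    have hyk : G.Adj y k := c.tri x y k hp.ne.symm (fun h' => hSl x hp.xS (h' ▸ hkl))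
      (fun h' => hSl y hp.yS (h' ▸ hkl)) hp.non d3
    have htk : G.Adj t k := c.tri x t k (fun h' => hxT (h' ▸ ht))
      (fun h' => hSl x hp.xS (h' ▸ hkl)) (fun h' => h.1.disj j l hlj.symm t ht (h' ▸ hkl)) hxt d3
    refine c.swap_bad st3 hlj hvj hkl3 (good_tri (a := k) (b := y) (c := t) (fun a => ?_)
      hyk.symm htk.symm hyt) (good_tri (a := v) (b := g) (c := g') (fun a => ?_) b1 b3 c1)
    · simp only [mem_insert, mem_erase, hm3, hp.mem, hm]
      constructor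
      · rintro (f | ⟨f1, (f | f | f) | f | f | f, f4, f5, f6⟩)
        · exact Or.inl f
        · exact absurd f f4
        · exact absurd f f1
        · exact Or.inr (Or.inl f)
        · exact absurd f f5
        · exact absurd f f6
        · exact Or.inr (Or.inr f)
      · rintro (f | rfl | rfl)
        · exact Or.inl f
        · exact Or.inr ⟨hp.yv.ne, Or.inl (Or.inr (Or.inr rfl)), hp.ne.symm, hyz.ne, hyz'.ne⟩
        · exact Or.inr ⟨fun h' => hST v hp.vS (h' ▸ ht), Or.inr (Or.inr (Or.inr rfl)),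
            fun h' => hxT (h' ▸ ht), a2.ne.symm, a3.ne.symm⟩
    · simp only [mem_insert, mem_erase, f3 l hl hlj, hk]
      constructor
      · rintro (f | ⟨f1, f | f | f⟩)
        · exact Or.inl f
        · exact Or.inr (Or.inl f)
        · exact Or.inr (Or.inr f)
        · exact absurd f f1
      · rintro (f | rfl | rfl)
        · exact Or.inl f
        · exact Or.inr ⟨c2.ne, Or.inl rfl⟩
        · exact Or.inr ⟨c3.ne, Or.inr (Or.inl rfl)⟩

theorem stepC (c : Ctx G n) (m : ℕ) : ∀ (F : ι → Finset V) (i : ι) (x v y : V), Phi G F = m →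
    St G n F i → P3 G (F i) x v y → False := by
  induction m using Nat.strong_induction_on with
  | _ m ih =>
  intro F i x v y hm h hp
  have hmin : MinP G n F := by
    intro F' i' x' v' y' g1 g2
    by_contra hn
    exact ih (Phi G F') (by omega) F' i' x' v' y' rfl g1 g2
  obtain ⟨j, hj, j3, z, hz, z', hz', hzz, b1, b2, b3, b4⟩ := p3pick c h hp hmin
  obtain ⟨t, ht, a1, a2, a3, n1, n2, n3⟩ := p2 c h hj hp j3 hz hz' hzz b1 b2 b3 b4
  by_cases hyt : G.Adj y t
  · exact p3fin c h hj hp hmin ht a1 a2 a3 n1 n2 n3 b1 b2 b3 b4 hyt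
  · have htT : t ∈ F j := (ht t).2 (Or.inr (Or.inr rfl))
    have hST := h.1.disj i j hj.symm
    exact p3fin c h hj hp.symm hmin ht a1 a2 a3 n1 n2 n3 b2 b1 b4 b3
      (c.tri y x t hp.ne (fun h' => hST y hp.yS (h' ▸ htT)) (fun h' => hST x hp.xS (h' ▸ htT))
        hp.symm.non hyt)

end Pool.Agent.Lib.MP_af3016_co
end

-- part Pool.Agent.Lib.MP_af3016_co.StepE
section

/-! No state with a connected exceptional part exists. -/

set_option autoImplicit false
set_option linter.unusedSectionVars false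

namespace Pool.Agent.Lib.MP_af3016_co

open Finset

variable {V : Type} [DecidableEq V] {G : SimpleGraph V}

/-- every vertex has two neighbours inside -/
def Deg2 (G : SimpleGraph V) (S : Finset V) : Prop :=
  ∀ a ∈ S, ∃ b ∈ S, ∃ b' ∈ S, b ≠ b' ∧ G.Adj a b ∧ G.Adj a b'

theorem validE (ht : Tri G) {T D : Finset V} {u z w : V} (hT : Good G T) (hs : Side G T u z D)
    (hw : w ∉ T) (hD : ∀ d ∈ D, ¬G.Adj w d) (h2 : Deg2 G (insert w (T.erase z))) :
    ∃ d ∈ D, Good G (insert w (T.erase d)) := by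
  have hDn : ∀ d ∈ D, ∃ b b', b ≠ b' ∧ G.Adj d b ∧ G.Adj d b' ∧ (b ∈ D ∨ b = u) ∧
      (b' ∈ D ∨ b' = u) := by
    intro d hd
    have sd := hs.sub d hd
    obtain ⟨b, hb, b', hb', hbb, g1, g2⟩ := h2 d (mem_insert_of_mem (mem_erase.2 ⟨sd.2.2, sd.1⟩))
    have f : ∀ b ∈ insert w (T.erase z), G.Adj d b → b ∈ D ∨ b = u := by
      intro b hb g
      rcases mem_insert.1 hb with h | h
      · exact absurd (h ▸ g.symm) (hD d hd)
      rw [mem_erase] at h
      by_contra hn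
      rw [not_or] at hn
      exact hs.sep d hd b h.2 hn.1 hn.2 h.1 g
    exact ⟨b, b', hbb, g1, g2, f b hb g1, f b' hb' g2⟩
  have hwn : ∃ b b', b ≠ b' ∧ G.Adj w b ∧ G.Adj w b' ∧ (b ∈ Side.co T u z D ∨ b = u) ∧
      (b' ∈ Side.co T u z D ∨ b' = u) := by
    obtain ⟨b, hb, b', hb', hbb, g1, g2⟩ := h2 w (mem_insert_self _ _)
    have f : ∀ b ∈ insert w (T.erase z), G.Adj w b → b ∈ Side.co T u z D ∨ b = u := by
      intro b hb g
      rcases mem_insert.1 hb with h | h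
      · exact absurd h g.ne.symm
      rw [mem_erase] at h
      by_cases h1 : b = u
      · exact Or.inr h1
      · exact Or.inl (Side.mem_co.2 ⟨h.2, fun h' => hD b h' g, h1, h.1⟩)
    exact ⟨b, b', hbb, g1, g2, f b hb g1, f b' hb' g2⟩
  have hD2 : 1 < D.card := by
    obtain ⟨d, hd⟩ := hs.ne
    obtain ⟨b, b', hbb, g1, g2, g3, g4⟩ := hDn d hd
    rcases g3 with g3 | g3
    · exact one_lt_card.2 ⟨d, hd, b, g3, g1.ne⟩
    · rcases g4 with g4 | g4
      · exact one_lt_card.2 ⟨d, hd, b', g4, g2.ne⟩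
      · exact absurd (g3.trans g4.symm) hbb
  have hD3 : 2 < D.card ∨ (∀ d ∈ D, G.Adj u d) ∨ ∀ d ∈ D, G.Adj z d := by
    by_cases h3 : 2 < D.card
    · exact Or.inl h3
    refine Or.inr (Or.inl fun d hd => ?_)
    obtain ⟨b, b', hbb, g1, g2, g3, g4⟩ := hDn d hd
    rcases g3 with g3 | g3
    · rcases g4 with g4 | g4
      · exact absurd (two_lt_card_iff.2 ⟨d, b, b', hd, g3, g4, g1.ne, g2.ne, hbb⟩) h3
      · exact g4 ▸ g2.symm
    · exact g3 ▸ g1.symm
  obtain ⟨b, b', hbb, g1, g2, g3, g4⟩ := hwn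
  have hC : (Side.co T u z D).Nonempty := by
    rcases g3 with g3 | g3
    · exact ⟨b, g3⟩
    · rcases g4 with g4 | g4
      · exact ⟨b', g4⟩
      · exact absurd (g3.trans g4.symm) hbb
  by_cases hC2 : 1 < (Side.co T u z D).card
  · obtain ⟨a, ha, a', ha', haa, f1, f2⟩ := (hs.coSide hC).att2 hT hC2
    exact hs.valid_big ht hT hw hD (mem_insert_of_mem ha) (mem_insert_of_mem ha') f1 f2
      (Or.inl haa) hD2 hD3
  · have hwu : G.Adj w u := by
      rcases g3 with g3 | g3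
      · rcases g4 with g4 | g4
        · exact absurd (one_lt_card.2 ⟨b, g3, b', g4, hbb⟩) hC2
        · exact g4 ▸ g2
      · exact g3 ▸ g1
    obtain ⟨a', ha', f2⟩ := (hs.coSide hC).attZ hT
    exact hs.valid_big ht hT hw hD (mem_insert_self _ _) (mem_insert_of_mem ha') hwu.symm f2
      (Or.inl fun h => hw (h ▸ (Side.mem_co.1 ha').1)) hD2 hD3

/-- `S` consists of two sides without edges between them and the vertex `v`. -/
structure Bip (G : SimpleGraph V) (S A B : Finset V) (v : V) : Prop where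
  mem : ∀ a, a ∈ S ↔ a ∈ A ∨ a ∈ B ∨ a = v
  vA : v ∉ A
  vB : v ∉ B
  dis : ∀ a ∈ A, a ∉ B
  neA : A.Nonempty
  neB : B.Nonempty
  non : ∀ a ∈ A, ∀ b ∈ B, ¬G.Adj a b

namespace Bip

variable {S A B : Finset V} {v : V}

theorem symm (h : Bip G S A B v) : Bip G S B A v :=
  ⟨fun a => by rw [h.mem]; tauto, h.vB, h.vA, fun a ha ha' => h.dis a ha' ha, h.neB, h.neA,
    fun a ha b hb h' => h.non b hb a ha h'.symm⟩

theorem clq (h : Bip G S A B v) (ht : Tri G) : Clq G A := by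
  obtain ⟨b, hb⟩ := h.neB
  exact ht.clq b fun a ha => ⟨fun h' => h.dis a ha (h' ▸ hb), fun h' => h.non a ha b hb h'.symm⟩

theorem mA (h : Bip G S A B v) {a : V} (ha : a ∈ A) : a ∈ S := (h.mem a).2 (Or.inl ha)

theorem pick (h : Bip G S A B v) (hc : Conn G S) (h2 : Deg2 G S) :
    ∃ x ∈ A, ∃ w ∈ A, ∃ a1 ∈ A, ∃ a2 ∈ A, w ≠ x ∧ a1 ≠ x ∧ G.Adj v a1 ∧ a2 ≠ w ∧ G.Adj v a2 ∧
      (a2 ≠ x ∨ ∀ a ∈ A.erase w, a = a2) := by
  have nb : ∀ a ∈ A, ∀ b ∈ S, G.Adj a b → b ∈ A ∨ b = v := by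
    intro a ha b hb hab
    rcases (h.mem b).1 hb with g | g | g
    · exact Or.inl g
    · exact absurd hab (h.non a ha b g)
    · exact Or.inr g
  obtain ⟨a0, ha0⟩ := h.neA
  obtain ⟨a1, -, b, hb, hab, ha1, hbA⟩ := hc.cross (fun y => y ∈ A) (h.mA ha0)
    ((h.mem v).2 (Or.inr (Or.inr rfl))) ha0 h.vA
  have hv1 : G.Adj v a1 := ((nb a1 ha1 b hb hab).resolve_left hbA) ▸ hab.symm
  obtain ⟨x, hx, hx1⟩ : ∃ x ∈ A, a1 ≠ x := by
    obtain ⟨b, hb, b', hb', hbb, g1, g2⟩ := h2 a1 (h.mA ha1)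
    rcases nb a1 ha1 b hb g1 with g | g
    · exact ⟨b, g, g1.ne⟩
    · rcases nb a1 ha1 b' hb' g2 with g' | g'
      · exact ⟨b', g', g2.ne⟩
      · exact absurd (g.trans g'.symm) hbb
  by_cases h3 : ∃ w ∈ A, w ≠ x ∧ w ≠ a1
  · obtain ⟨w, hw, g1, g2⟩ := h3
    exact ⟨x, hx, w, hw, a1, ha1, a1, ha1, g1, hx1, hv1, g2.symm, hv1, Or.inl hx1⟩
  push Not at h3
  refine ⟨x, hx, a1, ha1, a1, ha1, x, hx, hx1, hx1, hv1, hx1.symm, ?_, Or.inr fun a ha => ?_⟩
  · obtain ⟨b, hb, b', hb', hbb, g1, g2⟩ := h2 x (h.mA hx)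
    rcases nb x hx b hb g1 with g | g
    · rcases nb x hx b' hb' g2 with g' | g'
      · exact absurd ((h3 b g g1.ne.symm).trans (h3 b' g' g2.ne.symm).symm) hbb
      · exact g' ▸ g2.symm
    · exact g ▸ g1.symm
  · rw [mem_erase] at ha
    by_contra g
    exact ha.1 (h3 a ha.2 g)

theorem mem_erase' (h : Bip G S A B v) {w : V} (hw : w ∈ A) (a : V) :
    a ∈ S.erase w ↔ a ∈ A.erase w ∨ a ∈ B ∨ a = v := by
  simp only [mem_erase, h.mem]
  constructor
  · rintro ⟨g1, g | g | g⟩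
    · exact Or.inl ⟨g1, g⟩
    · exact Or.inr (Or.inl g)
    · exact Or.inr (Or.inr g)
  · rintro (g | g | rfl)
    · exact ⟨g.1, Or.inl g.2⟩
    · exact ⟨fun h' => h.dis w hw (h' ▸ g), Or.inr (Or.inl g)⟩
    · exact ⟨fun h' => h.vA (h' ▸ hw), Or.inr (Or.inr rfl)⟩

theorem repair (h : Bip G S A B v) (ht : Tri G) (h3 : 3 ≤ S.card) {x w a2 y b1 z : V}
    (hx : x ∈ A) (hw : w ∈ A) (ha2 : a2 ∈ A) (hwx : w ≠ x) (ha2w : a2 ≠ w) (hv2 : G.Adj v a2)
    (hor : a2 ≠ x ∨ ∀ a ∈ A.erase w, a = a2) (hy : y ∈ B) (hb1 : b1 ∈ B) (hb1y : b1 ≠ y)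
    (hv1 : G.Adj v b1) (hz : z ∉ S) (hxz : G.Adj x z) (hyz : G.Adj y z) :
    Good G (insert z (S.erase w)) := by
  refine ⟨by rw [card_swap (h.mA hw) hz]; exact h3, ?_⟩
  refine twoC_conn ((h.clq ht).mono (R := A.erase w) fun _ g => mem_of_mem_erase g)
    (h.symm.clq ht) (α := v) (β := z) (fun a => ?_)
    (fun g => hz (g ▸ (h.mem v).2 (Or.inr (Or.inr rfl)))) (fun g => h.vA (mem_of_mem_erase g))
    h.vB (fun g => hz (h.mA (mem_of_mem_erase g))) (fun g => hz (h.symm.mA g))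
    (fun a ha => h.dis a (mem_of_mem_erase ha)) (mem_erase.2 ⟨ha2w, ha2⟩) hb1
    (mem_erase.2 ⟨hwx.symm, hx⟩) hy hv2 hv1 hxz.symm hyz.symm hor (Or.inl hb1y)
  rw [mem_insert, h.mem_erase' hw]
  tauto

theorem conn_swap (h : Bip G S A B v) (ht : Tri G) {w a2 b1 d : V} (hw : w ∈ A) (ha2 : a2 ∈ A)
    (ha2w : a2 ≠ w) (hv2 : G.Adj v a2) (hb1 : b1 ∈ B) (hv1 : G.Adj v b1) (hd : d ∉ S)
    (hwd : ¬G.Adj w d) : Conn G (insert d (S.erase w)) := by
  have c1 : Conn G (insert v B) := (h.symm.clq ht).conn.grow (fun a ha => mem_insert_of_mem ha)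
    fun a ha ha' => ⟨b1, hb1, ((mem_insert.1 ha).resolve_right ha') ▸ hv1⟩
  have c2 : Conn G (S.erase w) := by
    refine ((h.clq ht).mono (R := A.erase w) fun _ g => mem_of_mem_erase g).conn.union c1
      (fun a => ?_) (mem_erase.2 ⟨ha2w, ha2⟩) (mem_insert_self _ _) hv2.symm
    rw [h.mem_erase' hw, mem_insert]
    tauto
  refine c2.grow (fun a ha => mem_insert_of_mem ha) fun a ha ha' => ⟨b1, ?_, ?_⟩
  · exact (h.mem_erase' hw b1).2 (Or.inr (Or.inl hb1))
  · rw [(mem_insert.1 ha).resolve_right ha']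
    exact ht w d b1 (fun g => hd (g ▸ h.mA hw)) (fun g => h.dis w hw (g ▸ hb1))
      (fun g => hd (g ▸ h.symm.mA hb1)) hwd (h.non w hw b1 hb1)

theorem dH_ge (h : Bip G S A B v) {w : V} (hw : w ∈ A) : B.card ≤ dH G w S :=
  le_dH fun b hb => ⟨h.symm.mA hb, fun g => h.dis w hw (g ▸ hb), h.non w hw b hb⟩

theorem card_le (h : Bip G S A B v) : S.card ≤ A.card + B.card + 1 := by
  have : S ⊆ insert v (A ∪ B) := by
    intro a ha
    rw [h.mem] at ha
    simp only [mem_insert, mem_union]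
    tauto
  have h1 := card_le_card this
  have h2 := card_insert_le v (A ∪ B)
  have h3 := card_union_le A B
  omega

end Bip

theorem exists_bip {S : Finset V} (h3 : 3 ≤ S.card) (hc : Conn G S) (hb : ¬Good G S) :
    ∃ A B v, Bip G S A B v := by
  obtain ⟨v, hv⟩ : ∃ v, ¬Conn G (S.erase v) := by
    by_contra hn
    push Not at hn
    exact hb ⟨h3, hc, hn⟩
  have hvS : v ∈ S := by
    by_contra h
    rw [erase_eq_of_notMem h] at hv
    exact hv hc
  obtain ⟨D, hne, hsub, -, ⟨a, ha, haD⟩, hsep⟩ := notConn_split hv v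
  refine ⟨D, S.erase v \ D, v, fun y => ?_, fun g => notMem_erase v S (hsub v g),
    fun g => notMem_erase v S (mem_sdiff.1 g).1, fun y hy g => (mem_sdiff.1 g).2 hy, hne,
    ⟨a, mem_sdiff.2 ⟨ha, haD⟩⟩, fun y hy b hb => hsep y hy b (mem_sdiff.1 hb).1 (mem_sdiff.1 hb).2⟩
  simp only [mem_sdiff, mem_erase]
  constructor
  · intro g
    by_cases g1 : y = v
    · exact Or.inr (Or.inr g1)
    by_cases g2 : y ∈ D
    · exact Or.inl g2
    exact Or.inr (Or.inl ⟨⟨g1, g⟩, g2⟩)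
  · rintro (g | g | rfl)
    · exact mem_of_mem_erase (hsub y g)
    · exact g.1.2
    · exact hvS

variable {ι : Type} [Fintype ι] [DecidableEq ι] {n : ι → ℕ} [Fintype V]

theorem noPend (c : Ctx G n) {F : ι → Finset V} {i : ι} (h : St G n F i) {x v : V}
    (hp : Pend G (F i) x v) (hc : Conn G (F i)) : False := by
  have hcS := h.1.card i
  have hcB := hp.cardB
  have h3 := c.n3 i
  obtain ⟨b0, hb0⟩ := card_pos.1 (show 0 < (((F i).erase x).erase v).card by omega)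
  rw [mem_erase, mem_erase] at hb0
  obtain ⟨a, -, u0, hu, hau, ha, hu'⟩ := hc.cross (fun y => y = x ∨ y = v) hp.xS hb0.2.2
    (Or.inl rfl) (not_or.2 ⟨hb0.2.1, hb0.1⟩)
  rw [not_or] at hu'
  have hvu : G.Adj v u0 := by
    rcases ha with g | g
    · exact absurd (g ▸ hau) (hp.non u0 hu hu'.2)
    · exact g ▸ hau
  have huB : u0 ∈ ((F i).erase x).erase v := mem_erase.2 ⟨hu'.2, mem_erase.2 ⟨hu'.1, hu⟩⟩
  by_cases h4 : 4 ≤ n i
  swap
  · refine stepC c _ F i x v u0 rfl h ⟨fun y => ?_, hp.xv, hvu.symm, Ne.symm hu'.1,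
      hp.non u0 hu hu'.2⟩
    constructor
    · intro hy
      by_cases g1 : y = x
      · exact Or.inl g1
      by_cases g2 : y = v
      · exact Or.inr (Or.inl g2)
      refine Or.inr (Or.inr ?_)
      exact card_le_one.1 (show (((F i).erase x).erase v).card ≤ 1 by omega) y
        (mem_erase.2 ⟨g2, mem_erase.2 ⟨g1, hy⟩⟩) u0 huB
    · rintro (rfl | rfl | rfl)
      · exact hp.xS
      · exact hp.vS
      · exact hu
  by_cases h5 : ∃ b ∈ F i, b ≠ x ∧ b ≠ u0 ∧ G.Adj v b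
  · obtain ⟨b, g1, g2, g3, g4⟩ := h5
    have hbB : b ∈ ((F i).erase x).erase v := mem_erase.2 ⟨g4.ne.symm, mem_erase.2 ⟨g2, g1⟩⟩
    have hvK : v ∈ (F i).erase x := mem_erase.2 ⟨hp.xv.ne.symm, hp.vS⟩
    have hK := (hp.clqB c.tri).twoC.ear hbB huB g3 g4 hvu
    rw [insert_erase hvK] at hK
    refine noSemi c h (K := (F i).erase x) ⟨by rw [card_erase_of_mem hp.xS]; omega, hK⟩ hvK hp.xv
      fun y => ?_
    rw [← mem_insert, insert_erase hp.xS]
  · push Not at h5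
    exact stepD c h hp hu hu'.1 hvu h5 h4

theorem deg2 (c : Ctx G n) {F : ι → Finset V} {i : ι} (h : St G n F i) (hc : Conn G (F i)) :
    Deg2 G (F i) := by
  intro a ha
  have h3 := c.n3 i
  obtain ⟨e, he⟩ := card_pos.1 (show 0 < ((F i).erase a).card by
    rw [card_erase_of_mem ha, h.1.card]
    omega)
  rw [mem_erase] at he
  obtain ⟨s, -, b, hb, hab, hs, -⟩ := hc.cross (fun y => y = a) ha he.2 rfl he.1
  subst hs
  by_contra hn
  refine noPend c h ⟨ha, hb, hab, fun b' hb' hbb hab' => hn ⟨b', hb', b, hb, hbb, hab', hab⟩⟩ hc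

theorem halfE (c : Ctx G n) {F : ι → Finset V} {i j : ι} (h : St G n F i) (hij : j ≠ i)
    {w z u t : V} {D : Finset V} (hw : w ∈ F i) (hz : z ∈ F j)
    (hg : Good G (insert z ((F i).erase w))) (hs : Side G (F j) u z D) (hD : ∀ d ∈ D, ¬G.Adj w d)
    (ht : t ∈ (F j).erase z) (hwt : G.Adj w t) :
    4 ≤ (F j).card ∧ ∃ d ∈ D, Good G (insert w ((F j).erase d)) := by
  have hT := h.2 j hij
  have hwT := h.1.disj i j hij.symm w hw
  obtain ⟨F', -, e2, -, -, -, h5⟩ := h.swap hij hw hz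
  have hc : Conn G (insert w ((F j).erase z)) := (hT.2.2 z).grow (fun a ha => mem_insert_of_mem ha)
    fun a ha ha' => ⟨t, ht, ((mem_insert.1 ha).resolve_right ha') ▸ hwt⟩
  have h2 := deg2 c (h5 hg) (e2 ▸ hc)
  rw [e2] at h2
  refine ⟨?_, validE c.tri hT hs hwT hD h2⟩
  obtain ⟨b, hb, b', hb', hbb, g1, g2⟩ := h2 w (mem_insert_self _ _)
  obtain ⟨d, hd⟩ := hs.ne
  have sd := hs.sub d hd
  have m1 := (mem_insert.1 hb).resolve_left g1.ne.symm
  have m2 := (mem_insert.1 hb').resolve_left g2.ne.symm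
  have := two_lt_card_iff.2 ⟨d, b, b', mem_erase.2 ⟨sd.2.2, sd.1⟩, m1, m2,
    fun g => hD d hd (g ▸ g1), fun g => hD d hd (g ▸ g2), hbb⟩
  rw [card_erase_of_mem hz] at this
  omega

theorem stepE (c : Ctx G n) (m : ℕ) : ∀ (F : ι → Finset V) (i : ι), Phi G F = m →
    St G n F i → Conn G (F i) → False := by
  induction m using Nat.strong_induction_on with
  | _ m ih =>
  intro F i hm h hc
  have h3 : 3 ≤ (F i).card := h.1.card i ▸ c.n3 i
  have h2 := deg2 c h hc
  obtain ⟨A, B, v, hb⟩ := exists_bip h3 hc (c.bad h)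
  obtain ⟨x, hx, w, hw, a1, ha1, a2, ha2, f1, f2, f3, f4, f5, f6⟩ := hb.pick hc h2
  obtain ⟨y, hy, w', hw', b1, hb1, b2, hb2, g1, g2, g3, g4, g5, g6⟩ := hb.symm.pick hc h2
  obtain ⟨j, hj, z, hz, hxz, hyz⟩ := c.exists_z h.1 (i := i) (v := v)
    (fun g : x = y => hb.dis x hx (g ▸ hy)) (hb.non x hx y hy) fun a ha k1 k2 => by
      rcases (hb.mem a).1 ha with g | g | g
      · exact absurd k2.symm (hb.non a g y hy)
      · exact absurd k1 (hb.non x hx a g)
      · exact g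
  have hT := h.2 j hj
  have hST := h.1.disj i j hj.symm
  have hTS := h.1.disj j i hj
  have hwS := hb.mA hw
  have hwS' := hb.symm.mA hw'
  have hww : w ≠ w' := fun g => hb.dis w hw (g ▸ hw')
  have nww := hb.non w hw w' hw'
  have r1 := hb.repair c.tri h3 hx hw ha2 f1 f4 f5 f6 hy hb1 g2 g3 (hTS z hz) hxz hyz
  have r2 := hb.symm.repair c.tri h3 hy hw' hb2 g1 g4 g5 g6 hx ha1 f2 f3 (hTS z hz) hyz hxz
  obtain ⟨u, D, hs, hD⟩ := cut_data hT hz (hST w hwS) (c.swap_bad h hj hwS hz r1)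
  obtain ⟨u', D', hs', hD'⟩ := cut_data hT hz (hST w' hwS') (c.swap_bad h hj hwS' hz r2)
  obtain ⟨e, he⟩ := hs.ne
  obtain ⟨e', he'⟩ := hs'.ne
  have se := hs.sub e he
  have se' := hs'.sub e' he'
  obtain ⟨h4, d, hd, hg⟩ := halfE c h hj hwS hz r1 hs hD (mem_erase.2 ⟨se'.2.2, se'.1⟩)
    (c.tri w' w e' hww (fun g => hST w' hwS' (g ▸ se'.1)) (fun g => hST w hwS (g ▸ se'.1))
      (fun g => nww g.symm) (hD' e' he'))
  obtain ⟨-, d', hd', hg'⟩ := halfE c h hj hwS' hz r2 hs' hD' (mem_erase.2 ⟨se.2.2, se.1⟩)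
    (c.tri w w' e hww.symm (fun g => hST w hwS (g ▸ se.1)) (fun g => hST w' hwS' (g ▸ se.1))
      nww (hD e he))
  obtain ⟨k1, k2, k3⟩ := shift_pair c.tri hT h4 (hST w hwS) (hST w' hwS') hww nww hs hD hs' hD'
    hd hd' hg hg'
  have sd := (hs.sub d hd).1
  have sd' := (hs'.sub d' hd').1
  have l1 := hb.dH_ge hw
  have l2 := hb.symm.dH_ge hw'
  have l3 := hb.card_le
  rcases shift c.tri hST hwS hwS' sd' sd hww k1 nww k2 (hD d hd) (hD' d' hd') (by omega) k3 with
    q | q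
  · obtain ⟨F', e1, -, -, e4, h5, -⟩ := h.swap hj hwS sd
    exact ih (Phi G F') (by omega) F' i rfl (h5 hg)
      (e1 ▸ hb.conn_swap c.tri hw ha2 f4 f5 hb1 g3 (hTS d sd) (hD d hd))
  · obtain ⟨F', e1, -, -, e4, h5, -⟩ := h.swap hj hwS' sd'
    exact ih (Phi G F') (by omega) F' i rfl (h5 hg')
      (e1 ▸ hb.symm.conn_swap c.tri hw' hb2 g4 g5 ha1 f3 (hTS d' sd') (hD' d' hd'))

end Pool.Agent.Lib.MP_af3016_co
end

-- part Pool.Agent.Lib.MP_af3016_co.Main
section

/-! Induction on the number of non-edges. -/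

set_option autoImplicit false
set_option linter.unusedSectionVars false

namespace Pool.Agent.Lib.MP_af3016_co

open Finset

variable {V : Type} [DecidableEq V]

/-- `G` with the edge `x y` added -/
def addE (G : SimpleGraph V) {x y : V} (h : x ≠ y) : SimpleGraph V where
  Adj a b := G.Adj a b ∨ (a = x ∧ b = y) ∨ (a = y ∧ b = x)
  symm := ⟨fun a b g => by
    rcases g with g | g | g
    · exact Or.inl g.symm
    · exact Or.inr (Or.inr ⟨g.2, g.1⟩)
    · exact Or.inr (Or.inl ⟨g.2, g.1⟩)⟩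
  loopless := ⟨fun a g => by
    rcases g with g | g | g
    · exact g.ne rfl
    · exact h (g.1.symm.trans g.2)
    · exact h (g.2.symm.trans g.1)⟩

theorem conn_of_addE {G : SimpleGraph V} {x y : V} {h : x ≠ y} {S : Finset V}
    (hc : Conn (addE G h) S) (hS : x ∉ S ∨ y ∉ S) : Conn G S := by
  intro p hp
  refine hc p fun c hc' d hd g => ?_
  rcases g with g | g | g
  · exact hp c hc' d hd g
  · exact absurd (And.intro (g.1 ▸ hc') (g.2 ▸ hd)) (not_and_or.2 hS)
  · exact absurd (And.intro (g.2 ▸ hd) (g.1 ▸ hc')) (not_and_or.2 hS)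

theorem conn_of_good_addE {G : SimpleGraph V} {x y : V} {h : x ≠ y} {S : Finset V}
    (hg : Good (addE G h) S) : Conn G S := by
  have c1 := conn_of_addE (hg.2.2 x) (Or.inl (notMem_erase x S))
  have c2 := conn_of_addE (hg.2.2 y) (Or.inr (notMem_erase y S))
  obtain ⟨e, he, hex, hey⟩ : ∃ e ∈ S, e ≠ x ∧ e ≠ y := by
    by_contra hn
    push Not at hn
    have : S ⊆ {x, y} := by
      intro c hc
      by_cases h1 : c = x
      · simp [h1]
      · simp [hn c hc h1]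
    have h2 := card_le_card this
    have h4 : ({x, y} : Finset V).card ≤ 2 := card_le_two
    have := hg.1
    omega
  intro p hp a ha b hb hpa
  have d1 := c1 p fun c hc d hd => hp c (mem_of_mem_erase hc) d (mem_of_mem_erase hd)
  have d2 := c2 p fun c hc d hd => hp c (mem_of_mem_erase hc) d (mem_of_mem_erase hd)
  have hpe : p e := by
    by_cases g : a = x
    · exact d2 a (mem_erase.2 ⟨g ▸ h, ha⟩) e (mem_erase.2 ⟨hey, he⟩) hpa
    · exact d1 a (mem_erase.2 ⟨g, ha⟩) e (mem_erase.2 ⟨hex, he⟩) hpa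
  by_cases g : b = x
  · exact d2 e (mem_erase.2 ⟨hey, he⟩) b (mem_erase.2 ⟨g ▸ h, hb⟩) hpe
  · exact d1 e (mem_erase.2 ⟨hex, he⟩) b (mem_erase.2 ⟨g, hb⟩) hpe

variable {ι : Type} [Fintype ι] [DecidableEq ι] [Fintype V]

open Classical in
theorem main_part (n : ι → ℕ) (h3 : ∀ i, 3 ≤ n i) (hs : ∑ i, n i = Fintype.card V) (m : ℕ) :
    ∀ G : SimpleGraph V, eH G univ = m → Tri G →
      (∀ v, ∑ i, (n i + 1) / 2 ≤ (univ.filter fun w => G.Adj v w).card) →
      ∃ F : ι → Finset V, IsPart n F ∧ ∀ i, Good G (F i) := by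
  induction m using Nat.strong_induction_on with
  | _ m ih =>
  intro G hm ht hdeg
  by_contra hn
  have c : Ctx G n := ⟨ht, h3, hs, hdeg, fun F h1 h2 => hn ⟨F, h1, h2⟩⟩
  by_cases hK : Clq G univ
  · exact c.notSpl mem_univ (Spl.clq h3 univ univ hK hs)
  obtain ⟨x, y, hxy, nxy⟩ : ∃ x y, x ≠ y ∧ ¬G.Adj x y := by
    by_contra h'
    push Not at h'
    exact hK fun a _ b _ hab => h' a b hab
  have hlt : eH (addE G hxy) univ < eH G univ := by
    unfold eH dH
    refine sum_lt_sum (fun a _ => card_le_card fun b hb => ?_) ⟨x, mem_univ _, card_lt_card ?_⟩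
    · rw [mem_filter] at hb ⊢
      exact ⟨hb.1, hb.2.1, fun g => hb.2.2 (Or.inl g)⟩
    · refine (ssubset_iff_of_subset fun b hb => ?_).2 ⟨y, ?_, ?_⟩
      · rw [mem_filter] at hb ⊢
        exact ⟨hb.1, hb.2.1, fun g => hb.2.2 (Or.inl g)⟩
      · exact mem_filter.2 ⟨mem_univ _, hxy.symm, nxy⟩
      · exact fun g => (mem_filter.1 g).2.2 (Or.inr (Or.inl ⟨rfl, rfl⟩))
  obtain ⟨F, hF, hg⟩ := ih _ (hm ▸ hlt) (addE G hxy) rfl
    (fun u a b g1 g2 g3 g4 g5 => Or.inl (ht u a b g1 g2 g3 (fun g => g4 (Or.inl g))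
      fun g => g5 (Or.inl g)))
    fun v => (hdeg v).trans (card_le_card fun b hb => by
      rw [mem_filter] at hb ⊢
      exact ⟨hb.1, Or.inl hb.2⟩)
  obtain ⟨i, hi⟩ := hF.cover x
  refine stepE c _ F i rfl ⟨hF, fun j hj => ?_⟩ (conn_of_good_addE (hg i))
  have hx : x ∉ F j := hF.disj i j hj.symm x hi
  exact ⟨(hg j).1, conn_of_addE (hg j).2.1 (Or.inl hx),
    fun v => conn_of_addE ((hg j).2.2 v) (Or.inl fun g => hx (mem_of_mem_erase g))⟩

theorem tri_of_indepNum {G : SimpleGraph V} (h : G.indepNum ≤ 2) : Tri G := by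
  intro u a b h1 h2 h3 n1 n2
  by_contra n3
  have hi : G.IsIndepSet (({u, a, b} : Finset V) : Set V) := by
    intro s hs t ht hst
    simp only [coe_insert, coe_singleton, Set.mem_insert_iff, Set.mem_singleton_iff] at hs ht
    rcases hs with rfl | rfl | rfl <;> rcases ht with rfl | rfl | rfl
    all_goals first
      | exact absurd rfl hst
      | assumption
      | exact fun g => n1 g.symm
      | exact fun g => n2 g.symm
      | exact fun g => n3 g.symm
  have := hi.card_le_indepNum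
  rw [card_eq_three.2 ⟨u, a, b, h1.symm, h2.symm, h3, rfl⟩] at this
  omega

theorem main (G : SimpleGraph V) [DecidableRel G.Adj] (n : ι → ℕ) (hα : G.indepNum ≤ 2)
    (h3 : ∀ i, 3 ≤ n i) (hs : ∑ i, n i = Fintype.card V)
    (hdeg : ∑ i, (n i + 1) / 2 ≤ G.minDegree) :
    ∃ (v : ι → V) (c : ∀ i, G.Walk (v i) (v i)),
      (∀ i, (c i).IsCycle ∧ (c i).length = n i) ∧
      ∀ i j, i ≠ j → Disjoint (c i).support.toFinset (c j).support.toFinset := by
  have ht := tri_of_indepNum hα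
  obtain ⟨F, hF, hg⟩ := main_part n h3 hs _ G rfl ht fun v => by
    refine hdeg.trans ((G.minDegree_le_degree v).trans (le_of_eq ?_))
    rw [← G.card_neighborFinset_eq_degree]
    congr 1
    ext w
    simp
  choose v c h1 h2 h4 using fun i => (hg i).hc ht
  refine ⟨v, c, fun i => ⟨h1 i, (h2 i).trans (hF.card i)⟩, fun i j hij => ?_⟩
  rw [h4, h4]
  exact disjoint_left.2 (hF.disj i j hij)

end Pool.Agent.Lib.MP_af3016_co
end
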