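import Mathlib

-- part Pool.Agent.Lib.MP_af3016_co.Conn
section

/-! Connectivity of induced subgraphs on finite vertex sets, and constructions of
2-connected sets. -/

set_option autoImplicit false

namespace Pool.Agent.Lib.MP_af3016_co

open Finset

variable {V : Type} [DecidableEq V] {G : SimpleGraph V}

/-- The graph induced on `S` is connected or empty. -/
def Conn (G : SimpleGraph V) (S : Finset V) : Prop :=
  ∀ p : V → Prop, (∀ c ∈ S, ∀ d ∈ S, G.Adj c d → p c → p d) → ∀ a ∈ S, ∀ b ∈ S, p a → p b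

/-- The graph induced on `S` is connected and has no cut vertex. -/
def TwoC (G : SimpleGraph V) (S : Finset V) : Prop :=
  Conn G S ∧ ∀ v, Conn G (S.erase v)

/-- The graph induced on `S` is 2-connected. -/
def Good (G : SimpleGraph V) (S : Finset V) : Prop :=
  3 ≤ S.card ∧ TwoC G S

/-- `S` is a clique. -/
def Clq (G : SimpleGraph V) (S : Finset V) : Prop :=
  ∀ a ∈ S, ∀ b ∈ S, a ≠ b → G.Adj a b

/-- No three pairwise nonadjacent vertices. -/
def Tri (G : SimpleGraph V) : Prop :=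
  ∀ u a b, a ≠ u → b ≠ u → a ≠ b → ¬G.Adj u a → ¬G.Adj u b → G.Adj a b

omit [DecidableEq V] in
theorem Conn.cross {S : Finset V} (h : Conn G S) (p : V → Prop) {a b : V} (ha : a ∈ S)
    (hb : b ∈ S) (hpa : p a) (hpb : ¬p b) : ∃ c ∈ S, ∃ d ∈ S, G.Adj c d ∧ p c ∧ ¬p d := by
  by_contra hc
  apply hpb
  refine h p ?_ a ha b hb hpa
  intro c hcS d hdS hcd hpc
  by_contra hpd
  exact hc ⟨c, hcS, d, hdS, hcd, hpc, hpd⟩

omit [DecidableEq V] in
theorem Clq.mono {S R : Finset V} (h : Clq G S) (hR : ∀ x ∈ R, x ∈ S) : Clq G R :=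
  fun a ha b hb hab => h a (hR a ha) b (hR b hb) hab

theorem Clq.conn {S : Finset V} (h : Clq G S) : Conn G S := by
  intro p hp a ha b hb hpa
  by_cases hab : a = b
  · exact hab ▸ hpa
  · exact hp a ha b hb (h a ha b hb hab) hpa

theorem Clq.twoC {S : Finset V} (h : Clq G S) : TwoC G S :=
  ⟨h.conn, fun v => (h.mono (R := S.erase v) fun _ hx => mem_of_mem_erase hx).conn⟩

theorem Clq.good {S : Finset V} (h : Clq G S) (h3 : 3 ≤ S.card) : Good G S :=
  ⟨h3, h.twoC⟩

omit [DecidableEq V] in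
theorem Tri.clq (ht : Tri G) (u : V) {S : Finset V} (h : ∀ a ∈ S, a ≠ u ∧ ¬G.Adj u a) :
    Clq G S :=
  fun a ha b hb hab => ht u a b (h a ha).1 (h b hb).1 hab (h a ha).2 (h b hb).2

theorem Conn.grow {K R : Finset V} (h : Conn G K) (hK : ∀ x ∈ K, x ∈ R)
    (hR : ∀ x ∈ R, x ∉ K → ∃ a ∈ K, G.Adj x a) : Conn G R := by
  intro p hp a ha b hb hpa
  have hK' : ∀ c ∈ K, ∀ d ∈ K, p c → p d :=
    h p fun c hc d hd hcd hpc => hp c (hK c hc) d (hK d hd) hcd hpc
  have h1 : ∃ c ∈ K, p c := by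
    by_cases haK : a ∈ K
    · exact ⟨a, haK, hpa⟩
    · obtain ⟨c, hc, hac⟩ := hR a ha haK
      exact ⟨c, hc, hp a ha c (hK c hc) hac hpa⟩
  obtain ⟨c, hc, hpc⟩ := h1
  by_cases hbK : b ∈ K
  · exact hK' c hc b hbK hpc
  · obtain ⟨d, hd, hbd⟩ := hR b hb hbK
    exact hp d (hK d hd) b hb hbd.symm (hK' c hc d hd hpc)

omit [DecidableEq V] in
theorem Conn.union {X Y R : Finset V} (hX : Conn G X) (hY : Conn G Y)
    (hR : ∀ x, x ∈ R ↔ x ∈ X ∨ x ∈ Y) {a b : V} (ha : a ∈ X) (hb : b ∈ Y) (hab : G.Adj a b) :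
    Conn G R := by
  intro p hp c hc d hd hpc
  have hX' : ∀ c ∈ X, ∀ d ∈ X, p c → p d :=
    hX p fun c hc d hd hcd hpc => hp c ((hR c).2 (Or.inl hc)) d ((hR d).2 (Or.inl hd)) hcd hpc
  have hY' : ∀ c ∈ Y, ∀ d ∈ Y, p c → p d :=
    hY p fun c hc d hd hcd hpc => hp c ((hR c).2 (Or.inr hc)) d ((hR d).2 (Or.inr hd)) hcd hpc
  have haR := (hR a).2 (Or.inl ha)
  have hbR := (hR b).2 (Or.inr hb)
  rcases (hR c).1 hc with hc | hc <;> rcases (hR d).1 hd with hd | hd
  · exact hX' c hc d hd hpc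
  · exact hY' b hb d hd (hp a haR b hbR hab (hX' c hc a ha hpc))
  · exact hX' a ha d hd (hp b hbR a haR hab.symm (hY' c hc b hb hpc))
  · exact hY' c hc d hd hpc

/-- Adding ears with two distinct neighbours in the core. -/
theorem TwoC.grow {K R : Finset V} (h : TwoC G K) (hK : ∀ x ∈ K, x ∈ R)
    (hR : ∀ x ∈ R, x ∉ K → ∃ a ∈ K, ∃ b ∈ K, a ≠ b ∧ G.Adj x a ∧ G.Adj x b) : TwoC G R := by
  refine ⟨h.1.grow hK fun x hx hxK => ?_, fun v => (h.2 v).grow ?_ ?_⟩
  · obtain ⟨a, ha, b, -, -, hxa, -⟩ := hR x hx hxK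
    exact ⟨a, ha, hxa⟩
  · intro x hx
    rw [mem_erase] at hx ⊢
    exact ⟨hx.1, hK x hx.2⟩
  · intro x hx hxK
    rw [mem_erase] at hx hxK
    obtain ⟨a, ha, b, hb, hab, hxa, hxb⟩ := hR x hx.2 fun h' => hxK ⟨hx.1, h'⟩
    by_cases hav : a = v
    · exact ⟨b, mem_erase.2 ⟨fun h' => hab (hav.trans h'.symm), hb⟩, hxb⟩
    · exact ⟨a, mem_erase.2 ⟨hav, ha⟩, hxa⟩

theorem TwoC.ear {K : Finset V} (h : TwoC G K) {x a b : V} (ha : a ∈ K) (hb : b ∈ K)
    (hab : a ≠ b) (hxa : G.Adj x a) (hxb : G.Adj x b) : TwoC G (insert x K) := by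
  refine h.grow (fun y hy => mem_insert_of_mem hy) fun y hy hyK => ?_
  rcases mem_insert.1 hy with rfl | hy
  · exact ⟨a, ha, b, hb, hab, hxa, hxb⟩
  · exact absurd hy hyK

/-- Two pieces without cut vertex joined by two disjoint edges. -/
theorem TwoC.union {X Y R : Finset V} (hX : TwoC G X) (hY : TwoC G Y)
    (hR : ∀ x, x ∈ R ↔ x ∈ X ∨ x ∈ Y) {a b a' b' : V} (ha : a ∈ X) (hb : b ∈ Y)
    (ha' : a' ∈ X) (hb' : b' ∈ Y) (hab : G.Adj a b) (hab' : G.Adj a' b')
    (h1 : a ≠ a') (h2 : b ≠ b') (h3 : a ≠ b') (h4 : b ≠ a') : TwoC G R := by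
  refine ⟨hX.1.union hY.1 hR ha hb hab, fun v => ?_⟩
  have hR' : ∀ x, x ∈ R.erase v ↔ x ∈ X.erase v ∨ x ∈ Y.erase v := by
    intro x
    simp only [mem_erase, hR x]
    tauto
  by_cases hv : a = v ∨ b = v
  · refine (hX.2 v).union (hY.2 v) hR' (a := a') (b := b') ?_ ?_ hab'
    · refine mem_erase.2 ⟨?_, ha'⟩
      rintro rfl
      rcases hv with h | h
      · exact h1 h
      · exact h4 h
    · refine mem_erase.2 ⟨?_, hb'⟩
      rintro rfl
      rcases hv with h | h
      · exact h3 h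
      · exact h2 h
  · push Not at hv
    exact (hX.2 v).union (hY.2 v) hR' (mem_erase.2 ⟨hv.1, ha⟩) (mem_erase.2 ⟨hv.2, hb⟩) hab

theorem prop_aux {A B C D : Prop} (h1 : A ∨ B) (h2 : A ∨ D) (h3 : B ∨ C) (h4 : C ∨ D) :
    (A ∧ C) ∨ (B ∧ D) := by tauto

theorem prop_aux' {A B C D : Prop} (h1 : A ∨ C) (h2 : A ∨ D) (h3 : B ∨ C) (h4 : B ∨ D) :
    (A ∧ B) ∨ (C ∧ D) := by tauto

/-- Two cliques and two connecting vertices. -/
theorem twoC_conn {X Y R : Finset V} (hX : Clq G X) (hY : Clq G Y) {α β a b a' b' : V}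
    (hR : ∀ x, x ∈ R ↔ x ∈ X ∨ x ∈ Y ∨ x = α ∨ x = β) (hαβ : α ≠ β)
    (hαX : α ∉ X) (hαY : α ∉ Y) (hβX : β ∉ X) (hβY : β ∉ Y) (hXY : ∀ x ∈ X, x ∉ Y)
    (ha : a ∈ X) (hb : b ∈ Y) (ha' : a' ∈ X) (hb' : b' ∈ Y)
    (h1 : G.Adj α a) (h2 : G.Adj α b) (h3 : G.Adj β a') (h4 : G.Adj β b')
    (hXa : a ≠ a' ∨ ∀ x ∈ X, x = a) (hYb : b ≠ b' ∨ ∀ x ∈ Y, x = b) : TwoC G R := by
  have key : ∀ ok : V → Prop, (∀ s t, s ≠ t → ok s ∨ ok t) → ∀ p : V → Prop,
      (∀ c ∈ R, ∀ d ∈ R, ok c → ok d → G.Adj c d → p c → p d) →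
      ∀ c ∈ R, ∀ d ∈ R, ok c → ok d → p c → p d := by
    intro ok hok p hp
    have mX : ∀ x ∈ X, x ∈ R := fun x hx => (hR x).2 (Or.inl hx)
    have mY : ∀ x ∈ Y, x ∈ R := fun x hx => (hR x).2 (Or.inr (Or.inl hx))
    have mα : α ∈ R := (hR α).2 (Or.inr (Or.inr (Or.inl rfl)))
    have mβ : β ∈ R := (hR β).2 (Or.inr (Or.inr (Or.inr rfl)))
    have e : ∀ c ∈ R, ∀ d ∈ R, G.Adj c d → ok c → ok d → (p c ↔ p d) :=
      fun c hc d hd hcd hcv hdv => ⟨hp c hc d hd hcv hdv hcd, hp d hd c hc hdv hcv hcd.symm⟩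
    have eX : ∀ c ∈ X, ∀ d ∈ X, ok c → ok d → (p c ↔ p d) := by
      intro c hc d hd hcv hdv
      by_cases hcd : c = d
      · rw [hcd]
      · exact e c (mX c hc) d (mX d hd) (hX c hc d hd hcd) hcv hdv
    have eY : ∀ c ∈ Y, ∀ d ∈ Y, ok c → ok d → (p c ↔ p d) := by
      intro c hc d hd hcv hdv
      by_cases hcd : c = d
      · rw [hcd]
      · exact e c (mY c hc) d (mY d hd) (hY c hc d hd hcd) hcv hdv
    have e1 := e α mα a (mX a ha) h1
    have e2 := e α mα b (mY b hb) h2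
    have e3 := e β mβ a' (mX a' ha') h3
    have e4 := e β mβ b' (mY b' hb') h4
    have eaa := eX a ha a' ha'
    have ebb := eY b hb b' hb'
    have n0 := hok α β hαβ
    have n1 := hok α a fun h => hαX (h ▸ ha)
    have n2 := hok α a' fun h => hαX (h ▸ ha')
    have n3 := hok α b fun h => hαY (h ▸ hb)
    have n4 := hok α b' fun h => hαY (h ▸ hb')
    have n5 := hok β a fun h => hβX (h ▸ ha)
    have n6 := hok β a' fun h => hβX (h ▸ ha')
    have n7 := hok β b fun h => hβY (h ▸ hb)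
    have n8 := hok β b' fun h => hβY (h ▸ hb')
    have n9 := hok a b fun h => hXY a ha (h ▸ hb)
    have n10 := hok a b' fun h => hXY a ha (h ▸ hb')
    have n11 := hok a' b fun h => hXY a' ha' (h ▸ hb)
    have n12 := hok a' b' fun h => hXY a' ha' (h ▸ hb')
    -- every surviving vertex has the value of a surviving connector
    have red : ∀ c ∈ R, ok c → (ok α ∧ (p c ↔ p α)) ∨ (ok β ∧ (p c ↔ p β)) := by
      intro c hc hcv
      rcases (hR c).1 hc with hc | hc | hc | hc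
      · have f1 := eX c hc a ha hcv
        have f2 := eX c hc a' ha' hcv
        have f3 : (ok a ∨ ok a') := by
          rcases hXa with h | h
          · exact hok _ _ h
          · exact Or.inl (h c hc ▸ hcv)
        have f4 : ok a ∨ ok a' → (ok α ∧ ok a) ∨ (ok β ∧ ok a') := prop_aux n0 n2 n5
        rcases f4 f3 with h | h
        · exact Or.inl ⟨h.1, (f1 h.2).trans (e1 h.1 h.2).symm⟩
        · exact Or.inr ⟨h.1, (f2 h.2).trans (e3 h.1 h.2).symm⟩
      · have f1 := eY c hc b hb hcv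
        have f2 := eY c hc b' hb' hcv
        have f3 : (ok b ∨ ok b') := by
          rcases hYb with h | h
          · exact hok _ _ h
          · exact Or.inl (h c hc ▸ hcv)
        have f4 : ok b ∨ ok b' → (ok α ∧ ok b) ∨ (ok β ∧ ok b') := prop_aux n0 n4 n7
        rcases f4 f3 with h | h
        · exact Or.inl ⟨h.1, (f1 h.2).trans (e2 h.1 h.2).symm⟩
        · exact Or.inr ⟨h.1, (f2 h.2).trans (e4 h.1 h.2).symm⟩
      · subst hc
        exact Or.inl ⟨hcv, Iff.rfl⟩
      · subst hc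
        exact Or.inr ⟨hcv, Iff.rfl⟩
    have hαβ' : ok α → ok β → (p α ↔ p β) := by
      intro oα oβ
      have f4 : (ok a ∧ ok a') ∨ (ok b ∧ ok b') := prop_aux' n9 n10 n11 n12
      rcases f4 with h | h
      · exact (e1 oα h.1).trans ((eaa h.1 h.2).trans (e3 oβ h.2).symm)
      · exact (e2 oα h.1).trans ((ebb h.1 h.2).trans (e4 oβ h.2).symm)
    intro c hc d hd hcv hdv hpc
    rcases red c hc hcv with r1 | r1 <;> rcases red d hd hdv with r2 | r2
    · exact r2.2.2 (r1.2.1 hpc)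
    · exact r2.2.2 ((hαβ' r1.1 r2.1).1 (r1.2.1 hpc))
    · exact r2.2.2 ((hαβ' r2.1 r1.1).2 (r1.2.1 hpc))
    · exact r2.2.2 (r1.2.1 hpc)
  refine ⟨fun p hp c hc d hd hpc => key (fun _ => True) (fun _ _ _ => Or.inl trivial) p
    (fun c hc d hd _ _ => hp c hc d hd) c hc d hd trivial trivial hpc,
    fun v p hp c hc d hd hpc => ?_⟩
  rw [mem_erase] at hc hd
  refine key (fun s => s ≠ v) ?_ p (fun c hc d hd hcv hdv => hp c (mem_erase.2 ⟨hcv, hc⟩) d
    (mem_erase.2 ⟨hdv, hd⟩)) c hc.2 d hd.2 hc.1 hd.1 hpc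
  intro s t hst
  by_cases hs : s = v
  · exact Or.inr fun ht => hst (hs.trans ht.symm)
  · exact Or.inl hs

/-- A 2-connected set of size three is a clique. -/
theorem Good.clq3 {S : Finset V} (h : Good G S) (h3 : S.card = 3) : Clq G S := by
  intro a ha b hb hab
  obtain ⟨c, hc, hca, hcb⟩ : ∃ c ∈ S, c ≠ a ∧ c ≠ b := by
    by_contra hn
    push Not at hn
    have : S ⊆ {a, b} := by
      intro c hc
      by_cases h1 : c = a
      · simp [h1]
      · simp [hn c hc h1]
    have h2 := card_le_card this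
    have h4 : ({a, b} : Finset V).card ≤ 2 := card_le_two
    omega
  have hS : S = {a, b, c} := by
    symm
    apply eq_of_subset_of_card_le
    · intro x hx
      simp only [mem_insert, mem_singleton] at hx
      rcases hx with rfl | rfl | rfl <;> assumption
    · rw [h3, card_eq_three.2 ⟨a, b, c, hab, hca.symm, hcb.symm, rfl⟩]
  obtain ⟨x, hx, y, hy, hxy, hxa, hya⟩ := (h.2.2 c).cross (fun x => x = a)
    (mem_erase.2 ⟨hca.symm, ha⟩) (mem_erase.2 ⟨hcb.symm, hb⟩) rfl hab.symm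
  rw [mem_erase, hS] at hy
  simp only [mem_insert, mem_singleton] at hy
  subst hxa
  rcases hy with ⟨h1, h2 | h2 | h2⟩
  · exact absurd h2 hya
  · exact h2 ▸ hxy
  · exact absurd h2 h1

end Pool.Agent.Lib.MP_af3016_co
end

-- part Pool.Agent.Lib.MP_af3016_co.Cut
section

/-! Structure of a 2-connected set `T` when exchanging one vertex destroys 2-connectivity. -/

set_option autoImplicit false
set_option linter.unusedSectionVars false

namespace Pool.Agent.Lib.MP_af3016_co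

open Finset

variable {V : Type} [DecidableEq V] {G : SimpleGraph V}

theorem notConn_split {S : Finset V} (h : ¬Conn G S) (w : V) :
    ∃ D : Finset V, D.Nonempty ∧ (∀ d ∈ D, d ∈ S) ∧ w ∉ D ∧ (∃ a ∈ S, a ∉ D) ∧
      ∀ d ∈ D, ∀ c ∈ S, c ∉ D → ¬G.Adj d c := by
  classical
  unfold Conn at h
  push Not at h
  obtain ⟨p, hp, a, ha, b, hb, hpa, hpb⟩ := h
  by_cases hw : p w
  · refine ⟨S.filter fun x => ¬p x, ⟨b, by simp [hb, hpb]⟩, fun d hd => (mem_filter.1 hd).1,
      by simp [hw], ⟨a, ha, by simp [hpa]⟩, ?_⟩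
    intro d hd c hc hcD hdc
    rw [mem_filter] at hd hcD
    have : p c := by
      by_contra h'
      exact hcD ⟨hc, h'⟩
    exact hd.2 (hp c hc d hd.1 hdc.symm this)
  · refine ⟨S.filter fun x => p x, ⟨a, by simp [ha, hpa]⟩, fun d hd => (mem_filter.1 hd).1,
      by simp [hw], ⟨b, hb, by simp [hpb]⟩, ?_⟩
    intro d hd c hc hcD hdc
    rw [mem_filter] at hd hcD
    exact hcD ⟨hc, hp d hd.1 c hc hdc hd.2⟩

/-- `D` is a nonempty union of components of `T - u - z`. -/
structure Side (G : SimpleGraph V) (T : Finset V) (u z : V) (D : Finset V) : Prop where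
  uT : u ∈ T
  zT : z ∈ T
  uz : u ≠ z
  ne : D.Nonempty
  sub : ∀ d ∈ D, d ∈ T ∧ d ≠ u ∧ d ≠ z
  sep : ∀ d ∈ D, ∀ c ∈ T, c ∉ D → c ≠ u → c ≠ z → ¬G.Adj d c

theorem card_swap {T : Finset V} {z w : V} (hz : z ∈ T) (hw : w ∉ T) :
    (insert w (T.erase z)).card = T.card := by
  rw [card_insert_of_notMem (fun h => hw (mem_of_mem_erase h)), card_erase_of_mem hz]
  have := card_pos.2 ⟨z, hz⟩
  omega

theorem cut_data {T : Finset V} {z w : V} (hT : Good G T) (hz : z ∈ T) (hw : w ∉ T)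
    (hb : ¬Good G (insert w (T.erase z))) :
    ∃ u D, Side G T u z D ∧ ∀ d ∈ D, ¬G.Adj w d := by
  have hcard := card_swap hz hw
  have h3 := hT.1
  have hwR : w ∈ insert w (T.erase z) := mem_insert_self _ _
  have hdis : ¬Conn G (insert w (T.erase z)) → ∃ u D, Side G T u z D ∧ ∀ d ∈ D, ¬G.Adj w d := by
    intro hn
    obtain ⟨D, hne, hsub, hwD, -, hsep⟩ := notConn_split hn w
    have hsub' : ∀ d ∈ D, d ∈ T.erase z := by
      intro d hd
      rcases mem_insert.1 (hsub d hd) with h | h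
      · exact absurd (h ▸ hd) hwD
      · exact h
    have hall : ∀ c ∈ T.erase z, c ∈ D := by
      intro c hc
      by_contra hcD
      obtain ⟨d, hd⟩ := hne
      obtain ⟨a, -, b, hb', hab, haD, hbD⟩ :=
        (hT.2.2 z).cross (fun x => x ∈ D) (hsub' d hd) hc hd hcD
      exact hsep a haD b (mem_insert_of_mem hb') hbD hab
    have h2 : 1 < (T.erase z).card := by
      rw [card_erase_of_mem hz]
      omega
    obtain ⟨u, hu, u', hu', huu⟩ := one_lt_card.1 h2
    refine ⟨u, D.erase u, ⟨mem_of_mem_erase hu, hz, (mem_erase.1 hu).1,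
      ⟨u', mem_erase.2 ⟨huu.symm, hall u' hu'⟩⟩, ?_, ?_⟩, ?_⟩
    · intro d hd
      rw [mem_erase] at hd
      have := mem_erase.1 (hsub' d hd.2)
      exact ⟨this.2, hd.1, this.1⟩
    · intro d _ c hc hcD hcu hcz
      exact absurd (mem_erase.2 ⟨hcu, hall c (mem_erase.2 ⟨hcz, hc⟩)⟩) hcD
    · intro d hd hwd
      exact hsep d (mem_of_mem_erase hd) w hwR hwD hwd.symm
  by_cases hc : Conn G (insert w (T.erase z))
  swap
  · exact hdis hc
  have : ∃ v, ¬Conn G ((insert w (T.erase z)).erase v) := by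
    by_contra hn
    push Not at hn
    exact hb ⟨by omega, hc, hn⟩
  obtain ⟨v, hv⟩ := this
  by_cases hvw : v = w
  · subst hvw
    rw [erase_insert fun h => hw (mem_of_mem_erase h)] at hv
    exact absurd (hT.2.2 z) hv
  by_cases hvT : v ∈ T.erase z
  swap
  · rw [erase_eq_of_notMem (by simp only [mem_insert, not_or]; exact ⟨hvw, hvT⟩)] at hv
    exact absurd hc hv
  obtain ⟨D, hne, hsub, hwD, -, hsep⟩ := notConn_split hv w
  refine ⟨v, D, ⟨mem_of_mem_erase hvT, hz, (mem_erase.1 hvT).1, hne, ?_, ?_⟩, ?_⟩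
  · intro d hd
    have h1 := mem_erase.1 (hsub d hd)
    rcases mem_insert.1 h1.2 with h | h
    · exact absurd (h ▸ hd) hwD
    · exact ⟨mem_of_mem_erase h, h1.1, (mem_erase.1 h).1⟩
  · intro d hd c hc hcD hcv hcz
    exact hsep d hd c (mem_erase.2 ⟨hcv, mem_insert_of_mem (mem_erase.2 ⟨hcz, hc⟩)⟩) hcD
  · intro d hd hwd
    exact hsep d hd w (mem_erase.2 ⟨fun h => hvw h.symm, hwR⟩) hwD hwd.symm

namespace Side

variable {T D : Finset V} {u z : V}

omit [DecidableEq V] in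
theorem symm (h : Side G T u z D) : Side G T z u D :=
  ⟨h.zT, h.uT, h.uz.symm, h.ne, fun d hd => ⟨(h.sub d hd).1, (h.sub d hd).2.2, (h.sub d hd).2.1⟩,
    fun d hd c hc h1 h2 h3 => h.sep d hd c hc h1 h3 h2⟩

omit [DecidableEq V] in
theorem uD (h : Side G T u z D) : u ∉ D := fun hu => (h.sub u hu).2.1 rfl

omit [DecidableEq V] in
theorem zD (h : Side G T u z D) : z ∉ D := fun hz => (h.sub z hz).2.2 rfl

theorem attU (h : Side G T u z D) (hc : Conn G (T.erase z)) : ∃ b ∈ D, G.Adj u b := by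
  obtain ⟨d, hd⟩ := h.ne
  obtain ⟨a, -, b, hb, hab, haD, hbD⟩ := hc.cross (fun x => x ∈ D)
    (mem_erase.2 ⟨(h.sub d hd).2.2, (h.sub d hd).1⟩) (mem_erase.2 ⟨h.uz, h.uT⟩) hd h.uD
  rw [mem_erase] at hb
  by_cases hbu : b = u
  · exact ⟨a, haD, hbu ▸ hab.symm⟩
  · exact absurd hab (h.sep a haD b hb.2 hbD hbu hb.1)

theorem attZ (h : Side G T u z D) (hT : Good G T) : ∃ b ∈ D, G.Adj z b :=
  h.symm.attU (hT.2.2 u)

/-- distinct attachments when the side has two vertices -/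
theorem att2 (h : Side G T u z D) (hT : Good G T) (h2 : 1 < D.card) :
    ∃ b ∈ D, ∃ b' ∈ D, b ≠ b' ∧ G.Adj u b ∧ G.Adj z b' := by
  obtain ⟨b, hb, hub⟩ := h.attU (hT.2.2 z)
  obtain ⟨b', hb', hzb⟩ := h.attZ hT
  by_cases hbb : b = b'
  swap
  · exact ⟨b, hb, b', hb', hbb, hub, hzb⟩
  subst hbb
  obtain ⟨e, he, heb⟩ : ∃ e ∈ D, e ≠ b := by
    obtain ⟨s, hs, t, ht, hst⟩ := one_lt_card.1 h2
    by_cases h1 : s = b
    · exact ⟨t, ht, fun h' => hst (h1.trans h'.symm)⟩
    · exact ⟨s, hs, h1⟩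
  obtain ⟨s, hs, t, ht, hst, hsD, htD⟩ := (hT.2.2 b).cross (fun x => x ∈ D)
    (mem_erase.2 ⟨heb, (h.sub e he).1⟩) (mem_erase.2 ⟨(h.sub b hb).2.1.symm, h.uT⟩) he h.uD
  rw [mem_erase] at hs ht
  by_cases htu : t = u
  · exact ⟨s, hsD, b, hb, hs.1, htu ▸ hst.symm, hzb⟩
  by_cases htz : t = z
  · exact ⟨b, hb, s, hsD, hs.1.symm, hub, htz ▸ hst.symm⟩
  exact absurd hst (h.sep s hsD t ht.2 htD htu htz)

/-- The other side. -/
def co (T : Finset V) (u z : V) (D : Finset V) : Finset V :=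
  T.filter fun c => c ∉ D ∧ c ≠ u ∧ c ≠ z

theorem mem_co {c : V} : c ∈ co T u z D ↔ c ∈ T ∧ c ∉ D ∧ c ≠ u ∧ c ≠ z := mem_filter

theorem coSide (h : Side G T u z D) (hne : (co T u z D).Nonempty) : Side G T u z (co T u z D) := by
  refine ⟨h.uT, h.zT, h.uz, hne, fun c hc => ?_, fun c hc d hd hdC hdu hdz hcd => ?_⟩
  · rw [mem_co] at hc
    exact ⟨hc.1, hc.2.2⟩
  · rw [mem_co] at hc hdC
    have hdD : d ∈ D := by
      by_contra h'
      exact hdC ⟨hd, h', hdu, hdz⟩
    exact h.sep d hdD c hc.1 hc.2.1 hc.2.2.1 hc.2.2.2 hcd.symm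

theorem card_co (h : Side G T u z D) : (co T u z D).card + D.card + 2 = T.card := by
  have hT : T = insert u (insert z (co T u z D ∪ D)) := by
    ext c
    simp only [mem_insert, mem_union, mem_co]
    constructor
    · intro hc
      by_cases h1 : c = u
      · exact Or.inl h1
      by_cases h2 : c = z
      · exact Or.inr (Or.inl h2)
      by_cases h3 : c ∈ D
      · exact Or.inr (Or.inr (Or.inr h3))
      exact Or.inr (Or.inr (Or.inl ⟨hc, h3, h1, h2⟩))
    · rintro (rfl | rfl | h1 | h1)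
      · exact h.uT
      · exact h.zT
      · exact h1.1
      · exact (h.sub c h1).1
  have hd : Disjoint (co T u z D) D := by
    rw [disjoint_left]
    intro c hc
    exact (mem_co.1 hc).2.1
  have h1 : z ∉ co T u z D ∪ D := by
    simp only [mem_union, mem_co, not_or]
    exact ⟨fun h' => h'.2.2.2 rfl, h.zD⟩
  have h2 : u ∉ insert z (co T u z D ∪ D) := by
    simp only [mem_insert, mem_union, mem_co, not_or]
    exact ⟨h.uz, fun h' => h'.2.2.1 rfl, h.uD⟩
  have := congrArg card hT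
  rw [card_insert_of_notMem h2, card_insert_of_notMem h1, card_union_of_disjoint hd] at this
  omega

theorem clqD (h : Side G T u z D) (ht : Tri G) {w : V} (hw : w ∉ T) (hwD : ∀ d ∈ D, ¬G.Adj w d) :
    Clq G D :=
  ht.clq w fun d hd => ⟨fun h' => hw (h' ▸ (h.sub d hd).1), hwD d hd⟩

theorem clqC (h : Side G T u z D) (ht : Tri G) {w : V} (hw : w ∉ T) (hwD : ∀ d ∈ D, ¬G.Adj w d) :
    Clq G (insert w (co T u z D)) := by
  obtain ⟨d, hd⟩ := h.ne
  refine ht.clq d fun c hc => ?_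
  rcases mem_insert.1 hc with rfl | hc
  · exact ⟨fun h' => hw (h' ▸ (h.sub d hd).1), fun h' => hwD d hd h'.symm⟩
  · rw [mem_co] at hc
    exact ⟨fun h' => hc.2.1 (h' ▸ hd), h.sep d hd c hc.1 hc.2.1 hc.2.2.1 hc.2.2.2⟩

/-- Exchange of a vertex `d` of the side for `w`. -/
theorem valid (h : Side G T u z D) (ht : Tri G) (hT : Good G T) {w : V} (hw : w ∉ T)
    (hwD : ∀ d ∈ D, ¬G.Adj w d) {d a a' b b' : V} (hd : d ∈ D)
    (ha : a ∈ insert w (co T u z D)) (ha' : a' ∈ insert w (co T u z D))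
    (hua : G.Adj u a) (hza : G.Adj z a') (haa : a ≠ a' ∨ ∀ x ∈ insert w (co T u z D), x = a)
    (hb : b ∈ D.erase d) (hb' : b' ∈ D.erase d) (hub : G.Adj u b) (hzb : G.Adj z b')
    (hbb : b ≠ b' ∨ ∀ x ∈ D.erase d, x = b) : Good G (insert w (T.erase d)) := by
  have hdT := h.sub d hd
  refine ⟨by rw [card_swap hdT.1 hw]; exact hT.1, ?_⟩
  refine twoC_conn (h.clqC ht hw hwD)
    ((h.clqD ht hw hwD).mono (R := D.erase d) fun _ hx => mem_of_mem_erase hx) ?_ h.uz
    ?_ ?_ ?_ ?_ ?_ ha hb ha' hb' hua hub hza hzb haa hbb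
  · intro x
    simp only [mem_insert, mem_erase, mem_co]
    constructor
    · rintro (h1 | ⟨h1, h2⟩)
      · exact Or.inl (Or.inl h1)
      · by_cases h3 : x = u
        · exact Or.inr (Or.inr (Or.inl h3))
        by_cases h4 : x = z
        · exact Or.inr (Or.inr (Or.inr h4))
        by_cases h5 : x ∈ D
        · exact Or.inr (Or.inl ⟨h1, h5⟩)
        exact Or.inl (Or.inr ⟨h2, h5, h3, h4⟩)
    · rintro ((h1 | h1) | h1 | rfl | rfl)
      · exact Or.inl h1
      · exact Or.inr ⟨fun h' => h1.2.1 (h' ▸ hd), h1.1⟩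
      · exact Or.inr ⟨h1.1, (h.sub x h1.2).1⟩
      · exact Or.inr ⟨hdT.2.1.symm, h.uT⟩
      · exact Or.inr ⟨hdT.2.2.symm, h.zT⟩
  · simp only [mem_insert, mem_co, not_or]
    exact ⟨fun h' => hw (h' ▸ h.uT), fun h' => h'.2.2.1 rfl⟩
  · exact fun h' => h.uD (mem_of_mem_erase h')
  · simp only [mem_insert, mem_co, not_or]
    exact ⟨fun h' => hw (h' ▸ h.zT), fun h' => h'.2.2.2 rfl⟩
  · exact fun h' => h.zD (mem_of_mem_erase h')
  · intro x hx hx'
    have hxD := mem_of_mem_erase hx'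
    rcases mem_insert.1 hx with rfl | hx
    · exact hw (h.sub x hxD).1
    · exact (mem_co.1 hx).2.1 hxD

/-- With at least three vertices on the side, or two both joined to `u`, a valid exchange exists,
given good attachments on the other side. -/
theorem valid_big (h : Side G T u z D) (ht : Tri G) (hT : Good G T) {w : V} (hw : w ∉ T)
    (hwD : ∀ d ∈ D, ¬G.Adj w d) {a a' : V}
    (ha : a ∈ insert w (co T u z D)) (ha' : a' ∈ insert w (co T u z D))
    (hua : G.Adj u a) (hza : G.Adj z a') (haa : a ≠ a' ∨ ∀ x ∈ insert w (co T u z D), x = a)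
    (h2 : 1 < D.card)
    (h3 : 2 < D.card ∨ (∀ d ∈ D, G.Adj u d) ∨ ∀ d ∈ D, G.Adj z d) :
    ∃ d ∈ D, Good G (insert w (T.erase d)) := by
  obtain ⟨b, hb, b', hb', hbb, hub, hzb⟩ := h.att2 hT h2
  by_cases h4 : 2 < D.card
  · obtain ⟨d, hd, hdb, hdb'⟩ : ∃ d ∈ D, d ≠ b ∧ d ≠ b' := by
      by_contra hn
      push Not at hn
      have : D ⊆ {b, b'} := by
        intro c hc
        by_cases h1 : c = b
        · simp [h1]
        · simp [hn c hc h1]
      have h5 := card_le_card this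
      have h6 : ({b, b'} : Finset V).card ≤ 2 := card_le_two
      omega
    exact ⟨d, hd, h.valid ht hT hw hwD hd ha ha' hua hza haa (mem_erase.2 ⟨hdb.symm, hb⟩)
      (mem_erase.2 ⟨hdb'.symm, hb'⟩) hub hzb (Or.inl hbb)⟩
  have hD : D = {b, b'} := by
    symm
    apply eq_of_subset_of_card_le
    · intro x hx
      simp only [mem_insert, mem_singleton] at hx
      rcases hx with rfl | rfl <;> assumption
    · rw [card_pair hbb]
      omega
  rcases h3 with h3 | h3 | h3
  · exact absurd h3 h4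
  · refine ⟨b, hb, h.valid ht hT hw hwD hb ha ha' hua hza haa (mem_erase.2 ⟨hbb.symm, hb'⟩)
      (mem_erase.2 ⟨hbb.symm, hb'⟩) (h3 b' hb') hzb (Or.inr ?_)⟩
    intro x hx
    rw [mem_erase, hD] at hx
    simp only [mem_insert, mem_singleton] at hx
    exact hx.2.resolve_left hx.1
  · refine ⟨b', hb', h.valid ht hT hw hwD hb' ha ha' hua hza haa (mem_erase.2 ⟨hbb, hb⟩)
      (mem_erase.2 ⟨hbb, hb⟩) hub (h3 b hb) (Or.inr ?_)⟩
    intro x hx
    rw [mem_erase, hD] at hx
    simp only [mem_insert, mem_singleton] at hx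
    exact hx.2.resolve_right hx.1

end Side

open Side in
/-- Either a vertex of the side can be exchanged for `x`, or two non-neighbours of `x` can be
removed and `x` added. -/
theorem lemF (ht : Tri G) {T D : Finset V} {u z x c' : V} (hT : Good G T) (h : Side G T u z D)
    (hx : x ∉ T) (hxD : ∀ d ∈ D, ¬G.Adj x d) (hxz : G.Adj x z) (hc' : c' ∈ T) (hc'z : c' ≠ z)
    (hxc' : G.Adj x c') :
    (∃ d ∈ D, Good G (insert x (T.erase d))) ∨
      ∃ d1 ∈ T, ∃ d2 ∈ T, d1 ≠ d2 ∧ ¬G.Adj x d1 ∧ ¬G.Adj x d2 ∧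
        Good G (insert x ((T.erase d1).erase d2)) := by
  have hxC : x ∈ insert x (co T u z D) := mem_insert_self _ _
  have hclq := h.clqC ht hx hxD
  have hcard := h.card_co
  have hc'D : c' ∉ D := fun h' => hxD c' h' hxc'
  -- attachments on the side of x
  obtain ⟨a, ha, hua, haa⟩ : ∃ a ∈ insert x (co T u z D), G.Adj u a ∧
      (a ≠ x ∨ ∀ y ∈ insert x (co T u z D), y = a) := by
    by_cases hC : (co T u z D).Nonempty
    · obtain ⟨a, ha, hua⟩ := (h.coSide hC).attU (hT.2.2 z)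
      exact ⟨a, mem_insert_of_mem ha, hua, Or.inl fun h' => hx (h' ▸ (mem_co.1 ha).1)⟩
    · have hcu : c' = u := by
        by_contra h'
        exact hC ⟨c', mem_co.2 ⟨hc', hc'D, h', hc'z⟩⟩
      refine ⟨x, hxC, hcu ▸ hxc'.symm, Or.inr fun y hy => ?_⟩
      rcases mem_insert.1 hy with h' | h'
      · exact h'
      · exact absurd ⟨y, h'⟩ hC
  -- the set co + x + z has no cut vertex
  have hCz : TwoC G (insert z (insert x (co T u z D))) := by
    by_cases hC : (co T u z D).Nonempty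
    · obtain ⟨e, he, hze⟩ := (h.coSide hC).attZ hT
      exact hclq.twoC.ear hxC (mem_insert_of_mem he) (fun h' => hx (h' ▸ (mem_co.1 he).1))
        hxz.symm hze
    · rw [not_nonempty_iff_eq_empty] at hC
      rw [hC]
      apply Clq.twoC
      intro s hs t ht' hst
      simp only [mem_insert, notMem_empty, or_false] at hs ht'
      rcases hs with rfl | rfl <;> rcases ht' with rfl | rfl
      · exact absurd rfl hst
      · exact hxz.symm
      · exact hxz
      · exact absurd rfl hst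
  by_cases h2 : 1 < D.card
  · by_cases h3 : 2 < D.card ∨ (∀ d ∈ D, G.Adj u d) ∨ ∀ d ∈ D, G.Adj z d
    · exact Or.inl (h.valid_big ht hT hx hxD ha hxC hua hxz.symm haa h2 h3)
    push Not at h3
    obtain ⟨h3, ⟨d2, hd2, hud2⟩, -⟩ := h3
    obtain ⟨d1, hd1, hd12⟩ : ∃ e ∈ D, e ≠ d2 := by
      obtain ⟨s, hs, t, ht, hst⟩ := one_lt_card.1 h2
      by_cases h1 : s = d2
      · exact ⟨t, ht, fun h' => hst (h1.trans h'.symm)⟩
      · exact ⟨s, hs, h1⟩
    have hD : D = {d1, d2} := by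
      symm
      apply eq_of_subset_of_card_le
      · intro y hy
        simp only [mem_insert, mem_singleton] at hy
        rcases hy with rfl | rfl <;> assumption
      · rw [card_pair hd12]
        omega
    have hs1 := h.sub d1 hd1
    have hs2 := h.sub d2 hd2
    have hux : G.Adj u x := ht d2 u x hs2.2.1.symm (fun h' => hx (h' ▸ hs2.1))
      (fun h' => hx (h' ▸ h.uT)) (fun h' => hud2 h'.symm) (fun h' => hxD d2 hd2 h'.symm)
    refine Or.inr ⟨d1, hs1.1, d2, hs2.1, hd12, hxD d1 hd1, hxD d2 hd2, ?_, ?_⟩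
    · rw [card_insert_of_notMem fun h' => hx (mem_of_mem_erase (mem_of_mem_erase h')),
        card_erase_of_mem (mem_erase.2 ⟨hd12.symm, hs2.1⟩), card_erase_of_mem hs1.1]
      omega
    · -- u has a second neighbour
      obtain ⟨e, he, hex, hue⟩ : ∃ e ∈ insert z (insert x (co T u z D)), e ≠ x ∧ G.Adj u e := by
        obtain ⟨s, -, t, ht', hst, hsu, htu⟩ := (hT.2.2 d1).cross (fun y => y = u)
          (mem_erase.2 ⟨hs1.2.1.symm, h.uT⟩) (mem_erase.2 ⟨hs1.2.2.symm, h.zT⟩) rfl h.uz.symm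
        subst hsu
        rw [mem_erase] at ht'
        refine ⟨t, ?_, fun h' => hx (h' ▸ ht'.2), hst⟩
        by_cases htz : t = z
        · simp [htz]
        refine mem_insert_of_mem (mem_insert_of_mem (mem_co.2 ⟨ht'.2, ?_, htu, htz⟩))
        rw [hD]
        simp only [mem_insert, mem_singleton, not_or]
        exact ⟨ht'.1, fun h' => hud2 (h' ▸ hst)⟩
      have := hCz.ear he (mem_insert_of_mem hxC) hex hue hux
      convert this using 1
      ext y
      simp only [mem_insert, mem_erase, mem_co, hD, mem_singleton, not_or]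
      constructor
      · rintro (h1 | ⟨h1, h4, h5⟩)
        · exact Or.inr (Or.inr (Or.inl h1))
        · by_cases h6 : y = u
          · exact Or.inl h6
          by_cases h7 : y = z
          · exact Or.inr (Or.inl h7)
          exact Or.inr (Or.inr (Or.inr ⟨h5, ⟨h4, h1⟩, h6, h7⟩))
      · rintro (rfl | rfl | h1 | h1)
        · exact Or.inr ⟨hs2.2.1.symm, hs1.2.1.symm, h.uT⟩
        · exact Or.inr ⟨hs2.2.2.symm, hs1.2.2.symm, h.zT⟩
        · exact Or.inl h1
        · exact Or.inr ⟨h1.2.1.2, h1.2.1.1, h1.1⟩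
  -- one vertex on the side
  obtain ⟨d, hd⟩ := h.ne
  have hD : D = {d} := by
    symm
    apply eq_of_subset_of_card_le
    · intro y hy
      rw [mem_singleton.1 hy]
      exact hd
    · rw [card_singleton]
      omega
  have hs := h.sub d hd
  have hDc : D.card = 1 := by rw [hD, card_singleton]
  have hset : ∀ y, y ∈ insert x (T.erase d) ↔ y ∈ insert u (insert z (insert x (co T u z D))) := by
    intro y
    simp only [mem_insert, mem_erase, mem_co, hD, mem_singleton]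
    constructor
    · rintro (h1 | ⟨h1, h5⟩)
      · exact Or.inr (Or.inr (Or.inl h1))
      · by_cases h6 : y = u
        · exact Or.inl h6
        by_cases h7 : y = z
        · exact Or.inr (Or.inl h7)
        exact Or.inr (Or.inr (Or.inr ⟨h5, h1, h6, h7⟩))
    · rintro (rfl | rfl | h1 | h1)
      · exact Or.inr ⟨hs.2.1.symm, h.uT⟩
      · exact Or.inr ⟨hs.2.2.symm, h.zT⟩
      · exact Or.inl h1
      · exact Or.inr ⟨h1.2.1, h1.1⟩
  have hear : ∀ e ∈ insert z (insert x (co T u z D)), e ≠ a → G.Adj u e →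
      Good G (insert x (T.erase d)) := by
    intro e he hea hue
    refine ⟨by rw [card_swap hs.1 hx]; exact hT.1, ?_⟩
    have := hCz.ear he (mem_insert_of_mem ha) hea hue hua
    convert this using 1
    ext y
    exact hset y
  have hza : z ≠ a := by
    rintro rfl
    rcases mem_insert.1 ha with h' | h'
    · exact hx (h' ▸ h.zT)
    · exact (mem_co.1 h').2.2.2 rfl
  by_cases huz : G.Adj u z
  · exact Or.inl ⟨d, hd, hear z (mem_insert_self _ _) hza huz⟩
  have hC : (co T u z D).Nonempty := by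
    by_contra hC
    rw [not_nonempty_iff_eq_empty] at hC
    rw [hC, card_empty] at hcard
    exact huz (hT.clq3 (by omega) u h.uT z h.zT h.uz)
  have hax : a ≠ x := by
    rcases haa with h' | h'
    · exact h'
    · obtain ⟨e, he⟩ := hC
      have h1 := h' e (mem_insert_of_mem he)
      have h4 := h' x hxC
      exact absurd ((h1.trans h4.symm) ▸ (mem_co.1 he).1) hx
  by_cases hux : G.Adj u x
  · exact Or.inl ⟨d, hd, hear x (mem_insert_of_mem hxC) hax.symm hux⟩
  refine Or.inr ⟨u, h.uT, d, hs.1, hs.2.1.symm, fun h' => hux h'.symm, hxD d hd, ?_, ?_⟩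
  · rw [card_insert_of_notMem fun h' => hx (mem_of_mem_erase (mem_of_mem_erase h')),
      card_erase_of_mem (mem_erase.2 ⟨hs.2.1, hs.1⟩), card_erase_of_mem h.uT]
    have := card_pos.2 hC
    omega
  · convert hCz using 1
    ext y
    simp only [mem_insert, mem_erase, mem_co, hD, mem_singleton]
    constructor
    · rintro (h1 | ⟨h1, h4, h5⟩)
      · exact Or.inr (Or.inl h1)
      · by_cases h7 : y = z
        · exact Or.inl h7
        exact Or.inr (Or.inr ⟨h5, h1, h4, h7⟩)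
    · rintro (rfl | h1 | h1)
      · exact Or.inr ⟨hs.2.2.symm, h.uz.symm, h.zT⟩
      · exact Or.inl h1
      · exact Or.inr ⟨h1.2.1, h1.2.2.1, h1.1⟩

end Pool.Agent.Lib.MP_af3016_co
end

-- part Pool.Agent.Lib.MP_af3016_co.Part
section

/-! Partitions with prescribed sizes, the potential, exchanges and counting. -/

set_option autoImplicit false
set_option linter.unusedSectionVars false

namespace Pool.Agent.Lib.MP_af3016_co

open Finset

variable {V : Type} [DecidableEq V] {G : SimpleGraph V}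

open Classical in
/-- number of non-neighbours of `a` in `S` other than `a` -/
noncomputable def dH (G : SimpleGraph V) (a : V) (S : Finset V) : ℕ :=
  (S.filter fun b => b ≠ a ∧ ¬G.Adj a b).card

/-- twice the number of nonadjacent pairs in `S` -/
noncomputable def eH (G : SimpleGraph V) (S : Finset V) : ℕ := ∑ a ∈ S, dH G a S

theorem le_dH {a : V} {S R : Finset V} (h : ∀ b ∈ R, b ∈ S ∧ b ≠ a ∧ ¬G.Adj a b) :
    R.card ≤ dH G a S := by
  classical
  unfold dH
  apply card_le_card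
  intro b hb
  simpa using h b hb

theorem dH_le {a : V} {S R : Finset V} (h : ∀ b ∈ S, b ≠ a → ¬G.Adj a b → b ∈ R) :
    dH G a S ≤ R.card := by
  classical
  unfold dH
  apply card_le_card
  intro b hb
  rw [mem_filter] at hb
  exact h b hb.1 hb.2.1 hb.2.2

theorem dH_insert_self (a : V) (R : Finset V) : dH G a (insert a R) = dH G a R := by
  classical
  unfold dH
  congr 1
  ext b
  simp only [mem_filter, mem_insert]
  tauto

theorem dH_insert_adj {a b : V} (R : Finset V) (h : G.Adj a b) :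
    dH G a (insert b R) = dH G a R := by
  classical
  unfold dH
  congr 1
  ext c
  simp only [mem_filter, mem_insert]
  constructor
  · rintro ⟨rfl | h1, h2⟩
    · exact absurd h h2.2
    · exact ⟨h1, h2⟩
  · rintro ⟨h1, h2⟩
    exact ⟨Or.inr h1, h2⟩

theorem dH_insert_non {a b : V} {R : Finset V} (hb : b ∉ R) (hab : b ≠ a) (h : ¬G.Adj a b) :
    dH G a (insert b R) = dH G a R + 1 := by
  classical
  unfold dH
  rw [filter_insert, if_pos ⟨hab, h⟩, card_insert_of_notMem]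
  exact fun h' => hb (mem_filter.1 h').1

theorem eH_insert {a : V} {R : Finset V} (ha : a ∉ R) :
    eH G (insert a R) = eH G R + 2 * dH G a R := by
  classical
  unfold eH
  rw [sum_insert ha, dH_insert_self]
  have h1 : ∀ b ∈ R, dH G b (insert a R) = dH G b R + if b ≠ a ∧ ¬G.Adj a b then 1 else 0 := by
    intro b hb
    have hba : b ≠ a := fun h => ha (h ▸ hb)
    by_cases h : G.Adj a b
    · rw [dH_insert_adj R h.symm]
      simp [h]
    · rw [dH_insert_non ha hba.symm fun h' => h h'.symm]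
      simp [h, hba]
  rw [sum_congr rfl h1, sum_add_distrib, ← card_filter]
  unfold dH
  omega

theorem eH_erase {w : V} {S : Finset V} (hw : w ∈ S) :
    eH G S = eH G (S.erase w) + 2 * dH G w S := by
  conv_lhs => rw [← insert_erase hw]
  rw [eH_insert (notMem_erase w S)]
  conv_rhs => rw [← insert_erase hw, dH_insert_self, erase_insert (notMem_erase w S)]

theorem Clq.eH {S : Finset V} (h : Clq G S) : eH G S = 0 := by
  unfold Lib.MP_af3016_co.eH
  refine sum_eq_zero fun a ha => ?_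
  have := dH_le (G := G) (a := a) (S := S) (R := ∅)
    fun b hb hba hn => absurd (h a ha b hb hba.symm) hn
  simpa using this

theorem dH_add_le (ht : Tri G) {c d : V} (hcd : c ≠ d) (h : ¬G.Adj c d) (S : Finset V) :
    dH G c S + dH G d S ≤ S.card := by
  classical
  unfold dH
  rw [← card_union_of_disjoint]
  · apply card_le_card
    intro b hb
    simp only [mem_union, mem_filter] at hb
    tauto
  · rw [disjoint_left]
    intro b h1 h2
    rw [mem_filter] at h1 h2
    exact h (ht b c d h1.2.1.symm h2.2.1.symm hcd (fun h' => h1.2.2 h'.symm)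
      fun h' => h2.2.2 h'.symm)

theorem swap_eH {S : Finset V} {w d : V} (hw : w ∈ S) (hd : d ∉ S) (hwd : ¬G.Adj w d) :
    eH G (insert d (S.erase w)) + 2 * dH G w S + 2 = eH G S + 2 * dH G d S := by
  have h1 := eH_insert (G := G) (a := d) (R := S.erase w) fun h => hd (mem_of_mem_erase h)
  have h2 := eH_erase (G := G) hw
  have h3 := dH_insert_non (G := G) (a := d) (notMem_erase w S) (fun h => hd (h ▸ hw))
    fun h => hwd h.symm
  rw [insert_erase hw] at h3
  omega

/-- One of two opposite exchanges lowers the potential. -/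
theorem shift (ht : Tri G) {S T : Finset V} {w w' c d : V} (hST : ∀ a ∈ S, a ∉ T)
    (hw : w ∈ S) (hw' : w' ∈ S) (hc : c ∈ T) (hd : d ∈ T) (hww : w ≠ w') (hcd : c ≠ d)
    (n1 : ¬G.Adj w w') (n2 : ¬G.Adj c d) (n3 : ¬G.Adj w d) (n4 : ¬G.Adj w' c)
    (hS : S.card ≤ dH G w S + dH G w' S + 1) (hT : T.card ≤ dH G c T + dH G d T + 2) :
    eH G (insert d (S.erase w)) + eH G (insert w (T.erase d)) < eH G S + eH G T ∨
      eH G (insert c (S.erase w')) + eH G (insert w' (T.erase c)) < eH G S + eH G T := by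
  have h1 := swap_eH hw (fun h => hST d h hd) n3
  have h2 := swap_eH hd (hST w hw) fun h => n3 h.symm
  have h3 := swap_eH hw' (fun h => hST c h hc) n4
  have h4 := swap_eH hc (hST w' hw') fun h => n4 h.symm
  have h5 := dH_add_le ht hww n1 T
  have h6 := dH_add_le ht hcd n2 S
  omega

variable {ι : Type} [Fintype ι] [DecidableEq ι] {n : ι → ℕ}

/-- A partition of the vertex set into parts of the prescribed sizes. -/
structure IsPart (n : ι → ℕ) (F : ι → Finset V) : Prop where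
  card : ∀ i, (F i).card = n i
  disj : ∀ i j, i ≠ j → ∀ v ∈ F i, v ∉ F j
  cover : ∀ v, ∃ i, v ∈ F i

/-- the potential -/
noncomputable def Phi (G : SimpleGraph V) (F : ι → Finset V) : ℕ := ∑ i, eH G (F i)

theorem IsPart.rep {F : ι → Finset V} (h : IsPart n F) {i j : ι} (hij : j ≠ i) {S' T' : Finset V}
    (hU : ∀ a, a ∈ S' ∨ a ∈ T' ↔ a ∈ F i ∨ a ∈ F j) (hd : ∀ a ∈ S', a ∉ T')
    (hc : S'.card = n i) :
    ∃ F' : ι → Finset V, IsPart n F' ∧ F' i = S' ∧ F' j = T' ∧
      (∀ l, l ≠ i → l ≠ j → F' l = F l) ∧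
      Phi G F' + eH G (F i) + eH G (F j) = Phi G F + eH G S' + eH G T' := by
  have hT : T'.card = n j := by
    have h1 : S' ∪ T' = F i ∪ F j := by
      ext a
      simp only [mem_union]
      exact hU a
    have h2 := congrArg Finset.card h1
    rw [card_union_of_disjoint (disjoint_left.2 hd),
      card_union_of_disjoint (disjoint_left.2 (h.disj i j hij.symm)), h.card, h.card] at h2
    omega
  set F' : ι → Finset V := fun l => if l = i then S' else if l = j then T' else F l with hF'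
  have e1 : F' i = S' := by simp [hF']
  have e2 : F' j = T' := by simp [hF', hij]
  have e3 : ∀ l, l ≠ i → l ≠ j → F' l = F l := fun l h1 h2 => by simp [hF', h1, h2]
  have out : ∀ l, l ≠ i → l ≠ j → ∀ a ∈ F l, a ∉ S' ∧ a ∉ T' := by
    intro l h1 h2 a ha
    have := (hU a).not.2 (not_or.2 ⟨h.disj l i h1 a ha, h.disj l j h2 a ha⟩)
    exact not_or.1 this
  refine ⟨F', ⟨fun l => ?_, fun l l' hl a ha ha' => ?_, fun a => ?_⟩, e1, e2, e3, ?_⟩
  · by_cases h1 : l = i
    · rw [h1, e1, hc]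
    by_cases h2 : l = j
    · rw [h2, e2, hT]
    rw [e3 l h1 h2, h.card]
  · by_cases h1 : l = i <;> by_cases h2 : l = j <;> by_cases h3 : l' = i <;>
      by_cases h4 : l' = j
    all_goals first
      | exact hl (h1.trans h3.symm)
      | exact hl (h2.trans h4.symm)
      | exact hij (h2.symm.trans h1)
      | exact hij (h4.symm.trans h3)
      | (rw [h1, e1] at ha; rw [h4, e2] at ha'; exact hd a ha ha')
      | (rw [h2, e2] at ha; rw [h3, e1] at ha'; exact hd a ha' ha)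
      | (rw [h1, e1] at ha; rw [e3 l' h3 h4] at ha'; exact (out l' h3 h4 a ha').1 ha)
      | (rw [h2, e2] at ha; rw [e3 l' h3 h4] at ha'; exact (out l' h3 h4 a ha').2 ha)
      | (rw [h3, e1] at ha'; rw [e3 l h1 h2] at ha; exact (out l h1 h2 a ha).1 ha')
      | (rw [h4, e2] at ha'; rw [e3 l h1 h2] at ha; exact (out l h1 h2 a ha).2 ha')
      | (rw [e3 l' h3 h4] at ha'; rw [e3 l h1 h2] at ha; exact h.disj l l' hl a ha ha')
  · obtain ⟨l, hl⟩ := h.cover a
    by_cases h1 : l = i ∨ l = j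
    · have : a ∈ S' ∨ a ∈ T' := by
        rw [hU]
        rcases h1 with rfl | rfl
        · exact Or.inl hl
        · exact Or.inr hl
      rcases this with h2 | h2
      · exact ⟨i, e1 ▸ h2⟩
      · exact ⟨j, e2 ▸ h2⟩
    · push Not at h1
      exact ⟨l, (e3 l h1.1 h1.2) ▸ hl⟩
  · unfold Phi
    have hj : j ∈ (univ : Finset ι).erase i := mem_erase.2 ⟨hij, mem_univ _⟩
    rw [← add_sum_erase _ _ (mem_univ i), ← add_sum_erase _ _ hj,
      ← add_sum_erase _ (fun l => eH G (F l)) (mem_univ i),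
      ← add_sum_erase _ (fun l => eH G (F l)) hj, e1, e2]
    have : ∑ l ∈ (univ.erase i).erase j, eH G (F' l) =
        ∑ l ∈ (univ.erase i).erase j, eH G (F l) := by
      refine sum_congr rfl fun l hl => ?_
      rw [mem_erase, mem_erase] at hl
      rw [e3 l hl.2.1 hl.1]
    rw [this]
    omega

/-- All parts but the `i`-th are 2-connected. -/
def St (G : SimpleGraph V) (n : ι → ℕ) (F : ι → Finset V) (i : ι) : Prop :=
  IsPart n F ∧ ∀ j, j ≠ i → Good G (F j)

theorem St.rep {F : ι → Finset V} {i j : ι} (h : St G n F i) (hij : j ≠ i) {S' T' : Finset V}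
    (hU : ∀ a, a ∈ S' ∨ a ∈ T' ↔ a ∈ F i ∨ a ∈ F j) (hd : ∀ a ∈ S', a ∉ T')
    (hc : S'.card = n i) :
    ∃ F' : ι → Finset V, F' i = S' ∧ F' j = T' ∧ (∀ l, l ≠ i → l ≠ j → F' l = F l) ∧
      Phi G F' + eH G (F i) + eH G (F j) = Phi G F + eH G S' + eH G T' ∧
      (Good G T' → St G n F' i) ∧ (Good G S' → St G n F' j) := by
  obtain ⟨F', hp, e1, e2, e3, e4⟩ := h.1.rep (G := G) hij hU hd hc
  refine ⟨F', e1, e2, e3, e4, fun hg => ⟨hp, fun l hl => ?_⟩, fun hg => ⟨hp, fun l hl => ?_⟩⟩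
  · by_cases h2 : l = j
    · rw [h2, e2]
      exact hg
    · rw [e3 l hl h2]
      exact h.2 l hl
  · by_cases h2 : l = i
    · rw [h2, e1]
      exact hg
    · rw [e3 l h2 hl]
      exact h.2 l h2

theorem St.swap {F : ι → Finset V} {i j : ι} (h : St G n F i) (hij : j ≠ i) {w t : V}
    (hw : w ∈ F i) (ht : t ∈ F j) :
    ∃ F' : ι → Finset V, F' i = insert t ((F i).erase w) ∧ F' j = insert w ((F j).erase t) ∧
      (∀ l, l ≠ i → l ≠ j → F' l = F l) ∧
      Phi G F' + eH G (F i) + eH G (F j) =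
        Phi G F + eH G (insert t ((F i).erase w)) + eH G (insert w ((F j).erase t)) ∧
      (Good G (insert w ((F j).erase t)) → St G n F' i) ∧
      (Good G (insert t ((F i).erase w)) → St G n F' j) := by
  have h1 : t ∉ F i := h.1.disj j i hij t ht
  have h2 : w ∉ F j := h.1.disj i j hij.symm w hw
  refine h.rep hij (fun a => ?_) (fun a ha ha' => ?_) (by rw [card_swap hw h1, h.1.card])
  · simp only [mem_insert, mem_erase]
    constructor
    · rintro ((rfl | h3) | (rfl | h3))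
      · exact Or.inr ht
      · exact Or.inl h3.2
      · exact Or.inl hw
      · exact Or.inr h3.2
    · rintro (h3 | h3)
      · by_cases h4 : a = w
        · exact Or.inr (Or.inl h4)
        · exact Or.inl (Or.inr ⟨h4, h3⟩)
      · by_cases h4 : a = t
        · exact Or.inl (Or.inl h4)
        · exact Or.inr (Or.inr ⟨h4, h3⟩)
  · simp only [mem_insert, mem_erase] at ha ha'
    rcases ha with rfl | ha <;> rcases ha' with h3 | ha'
    · exact h1 (h3 ▸ hw)
    · exact ha'.1 rfl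
    · exact ha.1 h3
    · exact h.1.disj i j hij.symm a ha.2 ha'.2

variable [Fintype V]

open Classical in
/-- The standing assumptions on a counterexample. -/
structure Ctx (G : SimpleGraph V) (n : ι → ℕ) : Prop where
  tri : Tri G
  n3 : ∀ i, 3 ≤ n i
  sum : ∑ i, n i = Fintype.card V
  deg : ∀ v, ∑ i, (n i + 1) / 2 ≤ (univ.filter fun w => G.Adj v w).card
  no : ∀ F : ι → Finset V, IsPart n F → ¬∀ i, Good G (F i)

theorem Ctx.bad (c : Ctx G n) {F : ι → Finset V} {i : ι} (h : St G n F i) : ¬Good G (F i) := by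
  intro hg
  refine c.no F h.1 fun j => ?_
  by_cases hj : j = i
  · exact hj ▸ hg
  · exact h.2 j hj

theorem Ctx.rep_bad (c : Ctx G n) {F : ι → Finset V} {i j : ι} (h : St G n F i) (hij : j ≠ i)
    {S' T' : Finset V} (hU : ∀ a, a ∈ S' ∨ a ∈ T' ↔ a ∈ F i ∨ a ∈ F j) (hd : ∀ a ∈ S', a ∉ T')
    (hc : S'.card = n i) (h1 : Good G S') (h2 : Good G T') : False := by
  obtain ⟨F', e1, -, -, -, h3, -⟩ := h.rep hij hU hd hc
  exact c.bad (h3 h2) (e1 ▸ h1)

theorem Ctx.swap_bad (c : Ctx G n) {F : ι → Finset V} {i j : ι} (h : St G n F i) (hij : j ≠ i)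
    {w t : V} (hw : w ∈ F i) (ht : t ∈ F j) (h1 : Good G (insert t ((F i).erase w))) :
    ¬Good G (insert w ((F j).erase t)) := by
  intro h2
  obtain ⟨F', e1, -, -, -, h3, -⟩ := h.swap hij hw ht
  exact c.bad (h3 h2) (e1 ▸ h1)

theorem two_mul_sum (n : ι → ℕ) :
    2 * ∑ i, (n i + 1) / 2 = ∑ i, n i + ∑ i, n i % 2 := by
  rw [mul_sum, ← sum_add_distrib]
  refine sum_congr rfl fun i _ => ?_
  omega

open Classical in
theorem Ctx.codeg (c : Ctx G n) {x y : V} (hxy : x ≠ y) (h : ¬G.Adj x y) :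
    ∑ i, n i % 2 + 2 ≤ (univ.filter fun w => G.Adj x w ∧ G.Adj y w).card := by
  have h1 := c.deg x
  have h2 := c.deg y
  have h3 := two_mul_sum n
  have h4 := c.sum
  have h5 := card_union_add_card_inter (univ.filter fun w => G.Adj x w)
    (univ.filter fun w => G.Adj y w)
  have h6 : (univ.filter fun w => G.Adj x w) ∩ (univ.filter fun w => G.Adj y w) =
      univ.filter fun w => G.Adj x w ∧ G.Adj y w := by
    ext w
    simp
  have h7 : (univ.filter fun w => G.Adj x w) ∪ (univ.filter fun w => G.Adj y w) ⊆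
      (univ.erase x).erase y := by
    intro w hw
    simp only [mem_union, mem_filter, mem_univ, true_and] at hw
    simp only [mem_erase, mem_univ, and_true]
    rcases hw with hw | hw
    · exact ⟨fun h' => h (h' ▸ hw), hw.ne.symm⟩
    · exact ⟨hw.ne.symm, fun h' => h (h' ▸ hw).symm⟩
  have h8 := card_le_card h7
  rw [card_erase_of_mem (mem_erase.2 ⟨hxy.symm, mem_univ _⟩), card_erase_of_mem (mem_univ _),
    card_univ] at h8
  have h9 : 1 < Fintype.card V := Fintype.one_lt_card_iff.2 ⟨x, y, hxy⟩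
  rw [h6] at h5
  omega

open Classical in
theorem Ctx.pigeon (c : Ctx G n) {F : ι → Finset V} (hF : IsPart n F) {i : ι} {x y v : V}
    (hxy : x ≠ y) (h : ¬G.Adj x y) (hv : ∀ w ∈ F i, G.Adj x w → G.Adj y w → w = v) :
    ∃ j, j ≠ i ∧ n j % 2 + 1 ≤ ((F j).filter fun w => G.Adj x w ∧ G.Adj y w).card := by
  by_contra hn
  push Not at hn
  have h1 := c.codeg hxy h
  have h2 : (univ.filter fun w => G.Adj x w ∧ G.Adj y w) ⊆
      univ.biUnion fun j => (F j).filter fun w => G.Adj x w ∧ G.Adj y w := by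
    intro w hw
    obtain ⟨j, hj⟩ := hF.cover w
    exact mem_biUnion.2 ⟨j, mem_univ _, mem_filter.2 ⟨hj, (mem_filter.1 hw).2⟩⟩
  have h3 := (card_le_card h2).trans card_biUnion_le
  rw [← add_sum_erase _ _ (mem_univ i)] at h3
  have h4 : ((F i).filter fun w => G.Adj x w ∧ G.Adj y w).card ≤ 1 := by
    rw [← card_singleton v]
    apply card_le_card
    intro w hw
    rw [mem_filter] at hw
    exact mem_singleton.2 (hv w hw.1 hw.2.1 hw.2.2)
  have h5 : ∑ j ∈ univ.erase i, ((F j).filter fun w => G.Adj x w ∧ G.Adj y w).card ≤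
      ∑ j ∈ univ.erase i, n j % 2 :=
    sum_le_sum fun j hj => Nat.lt_succ_iff.1 (hn j (mem_erase.1 hj).1)
  have h6 : ∑ j ∈ univ.erase i, n j % 2 ≤ ∑ j, n j % 2 :=
    sum_le_sum_of_subset (subset_univ _)
  omega

theorem Ctx.exists_z (c : Ctx G n) {F : ι → Finset V} (hF : IsPart n F) {i : ι} {x y v : V}
    (hxy : x ≠ y) (h : ¬G.Adj x y) (hv : ∀ w ∈ F i, G.Adj x w → G.Adj y w → w = v) :
    ∃ j, j ≠ i ∧ ∃ z ∈ F j, G.Adj x z ∧ G.Adj y z := by
  classical
  obtain ⟨j, hj, h1⟩ := c.pigeon hF hxy h hv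
  obtain ⟨z, hz⟩ := card_pos.1 (lt_of_lt_of_le (Nat.succ_pos _) h1)
  rw [mem_filter] at hz
  exact ⟨j, hj, z, hz.1, hz.2⟩

end Pool.Agent.Lib.MP_af3016_co
end

-- part Pool.Agent.Lib.MP_af3016_co.StepA
section

/-! Bad parts with a pendant vertex: the basic exchanges. -/

set_option autoImplicit false
set_option linter.unusedSectionVars false

namespace Pool.Agent.Lib.MP_af3016_co

open Finset

variable {V : Type} [DecidableEq V] {G : SimpleGraph V}

theorem Good.two_nbrs {K : Finset V} (h : Good G K) {v : V} (hv : v ∈ K) :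
    ∃ a ∈ K, ∃ b ∈ K, a ≠ b ∧ G.Adj v a ∧ G.Adj v b := by
  have h3 := h.1
  have h2 : 1 < (K.erase v).card := by
    rw [card_erase_of_mem hv]
    omega
  obtain ⟨s, hs, t, ht, hst⟩ := one_lt_card.1 h2
  rw [mem_erase] at hs ht
  obtain ⟨p, -, a, ha, hpa, hp, hav⟩ := h.2.1.cross (fun x => x = v) hv hs.2 rfl hs.1
  subst hp
  obtain ⟨e, he, hea, hep⟩ : ∃ e ∈ K, e ≠ a ∧ e ≠ p := by
    by_cases h1 : s = a
    · exact ⟨t, ht.2, fun h' => hst (h1.trans h'.symm), ht.1⟩
    · exact ⟨s, hs.2, h1, hs.1⟩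
  obtain ⟨q, -, b, hb, hqb, hq, -⟩ := (h.2.2 a).cross (fun x => x = p)
    (mem_erase.2 ⟨fun h' => hav h'.symm, hv⟩) (mem_erase.2 ⟨hea, he⟩) rfl hep
  subst hq
  rw [mem_erase] at hb
  exact ⟨a, ha, b, hb.2, hb.1.symm, hpa, hqb⟩

theorem Good.ear {K : Finset V} (h : Good G K) {x a b : V} (ha : a ∈ K) (hb : b ∈ K)
    (hab : a ≠ b) (hxa : G.Adj x a) (hxb : G.Adj x b) : Good G (insert x K) :=
  ⟨h.1.trans (card_le_card (subset_insert _ _)), h.2.ear ha hb hab hxa hxb⟩

/-- `x` has the single neighbour `v` in `S`. -/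
structure Pend (G : SimpleGraph V) (S : Finset V) (x v : V) : Prop where
  xS : x ∈ S
  vS : v ∈ S
  xv : G.Adj x v
  non : ∀ b ∈ S, b ≠ v → ¬G.Adj x b

namespace Pend

variable {S : Finset V} {x v : V}

theorem clqB (h : Pend G S x v) (ht : Tri G) : Clq G ((S.erase x).erase v) :=
  ht.clq x fun b hb => by
    rw [mem_erase, mem_erase] at hb
    exact ⟨hb.2.1, h.non b hb.2.2 hb.1⟩

theorem cardB (h : Pend G S x v) : ((S.erase x).erase v).card + 2 = S.card := by
  rw [card_erase_of_mem (mem_erase.2 ⟨h.xv.ne.symm, h.vS⟩), card_erase_of_mem h.xS]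
  have : 1 < S.card := one_lt_card.2 ⟨x, h.xS, v, h.vS, h.xv.ne⟩
  omega

/-- a common neighbour of `x` and `y` repairs the part -/
theorem repair (h : Pend G S x v) (ht : Tri G) (h3 : 3 ≤ S.card) {z y w y' : V} (hz : z ∉ S)
    (hzx : G.Adj x z) (hzy : G.Adj y z) (hy : y ∈ S) (hyx : y ≠ x) (hyv : y ≠ v) (hw : w ∈ S)
    (hwx : w ≠ x) (hwv : w ≠ v) (hwy : w ≠ y) (hy' : y' ∈ S) (hy'x : y' ≠ x) (hy'w : y' ≠ w)
    (hvy' : G.Adj v y') (hor : y' ≠ y ∨ ∀ b ∈ S, b ≠ x → b ≠ v → b ≠ w → b = y') :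
    Good G (insert z (S.erase w)) := by
  refine ⟨by rw [card_swap hw hz]; exact h3, ?_⟩
  have hxv := h.xv.ne
  refine twoC_conn (X := {x}) (Y := ((S.erase x).erase v).erase w) (α := v) (β := z)
    (a := x) (a' := x) (b := y') (b' := y) (fun a ha b hb hab => ?_)
    ((h.clqB ht).mono fun _ hx => mem_of_mem_erase hx) (fun a => ?_) (fun h' => hz (h' ▸ h.vS))
    ?_ ?_ ?_ ?_ ?_ (mem_singleton_self _) ?_ (mem_singleton_self _) ?_ h.xv.symm hvy' hzx.symm
    hzy.symm (Or.inr fun a ha => mem_singleton.1 ha) ?_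
  · exact absurd ((mem_singleton.1 ha).trans (mem_singleton.1 hb).symm) hab
  · simp only [mem_insert, mem_erase, mem_singleton]
    constructor
    · rintro (h1 | ⟨h1, h2⟩)
      · exact Or.inr (Or.inr (Or.inr h1))
      · by_cases h4 : a = x
        · exact Or.inl h4
        by_cases h5 : a = v
        · exact Or.inr (Or.inr (Or.inl h5))
        exact Or.inr (Or.inl ⟨h1, h5, h4, h2⟩)
    · rintro (rfl | h1 | rfl | h1)
      · exact Or.inr ⟨hwx.symm, h.xS⟩
      · exact Or.inr ⟨h1.1, h1.2.2.2⟩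
      · exact Or.inr ⟨hwv.symm, h.vS⟩
      · exact Or.inl h1
  · simpa using hxv.symm
  · simp
  · simp only [mem_singleton]
    exact fun h' => hz (h' ▸ h.xS)
  · simp only [mem_erase]
    exact fun h' => hz h'.2.2.2
  · intro a ha
    simp [mem_singleton.1 ha]
  · simp only [mem_erase]
    exact ⟨hy'w, hvy'.ne.symm, hy'x, hy'⟩
  · simp only [mem_erase]
    exact ⟨hwy.symm, hyv, hyx, hy⟩
  · rcases hor with h1 | h1
    · exact Or.inl h1
    · refine Or.inr fun b hb => ?_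
      simp only [mem_erase] at hb
      exact h1 b hb.2.2.2 hb.2.2.1 hb.2.1 hb.1

end Pend

variable {ι : Type} [Fintype ι] [DecidableEq ι] {n : ι → ℕ} [Fintype V]

/-- Two non-neighbours of `x` replace `x` and `v`. -/
theorem moveF (c : Ctx G n) {F : ι → Finset V} {i j : ι} (h : St G n F i) (hij : j ≠ i) {x v : V}
    (hp : Pend G (F i) x v) {d1 d2 : V} (h1 : d1 ∈ F j) (h2 : d2 ∈ F j) (h12 : d1 ≠ d2)
    (n1 : ¬G.Adj x d1) (n2 : ¬G.Adj x d2) :
    ∃ F' : ι → Finset V, St G n F' j ∧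
      F' j = insert v (insert x (((F j).erase d1).erase d2)) ∧
      Phi G F' + eH G (F i) + eH G (F j) = Phi G F + eH G (F' j) := by
  have o1 : d1 ∉ F i := h.1.disj j i hij d1 h1
  have o2 : d2 ∉ F i := h.1.disj j i hij d2 h2
  have hclq : Clq G (insert d1 (insert d2 (((F i).erase x).erase v))) := by
    refine c.tri.clq x fun b hb => ?_
    simp only [mem_insert, mem_erase] at hb
    rcases hb with rfl | rfl | hb
    · exact ⟨fun h' => o1 (h' ▸ hp.xS), n1⟩
    · exact ⟨fun h' => o2 (h' ▸ hp.xS), n2⟩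
    · exact ⟨hb.2.1, hp.non b hb.2.2 hb.1⟩
  have hcard : (insert d1 (insert d2 (((F i).erase x).erase v))).card = n i := by
    rw [card_insert_of_notMem, card_insert_of_notMem, ← h.1.card, ← hp.cardB]
    · exact fun h' => o2 (mem_of_mem_erase (mem_of_mem_erase h'))
    · simp only [mem_insert, mem_erase, not_or]
      exact ⟨h12, fun h' => o1 h'.2.2⟩
  have hU : ∀ a, a ∈ insert d1 (insert d2 (((F i).erase x).erase v)) ∨
      a ∈ insert v (insert x (((F j).erase d1).erase d2)) ↔ a ∈ F i ∨ a ∈ F j := by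
    intro a
    simp only [mem_insert, mem_erase]
    constructor
    · rintro ((rfl | rfl | h3) | (rfl | rfl | h3))
      · exact Or.inr h1
      · exact Or.inr h2
      · exact Or.inl h3.2.2
      · exact Or.inl hp.vS
      · exact Or.inl hp.xS
      · exact Or.inr h3.2.2
    · rintro (h3 | h3)
      · by_cases h4 : a = v
        · exact Or.inr (Or.inl h4)
        by_cases h5 : a = x
        · exact Or.inr (Or.inr (Or.inl h5))
        exact Or.inl (Or.inr (Or.inr ⟨h4, h5, h3⟩))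
      · by_cases h4 : a = d1
        · exact Or.inl (Or.inl h4)
        by_cases h5 : a = d2
        · exact Or.inl (Or.inr (Or.inl h5))
        exact Or.inr (Or.inr (Or.inr ⟨h5, h4, h3⟩))
  have hd : ∀ a ∈ insert d1 (insert d2 (((F i).erase x).erase v)),
      a ∉ insert v (insert x (((F j).erase d1).erase d2)) := by
    intro a ha ha'
    simp only [mem_insert, mem_erase] at ha ha'
    rcases ha with rfl | rfl | ha <;> rcases ha' with h3 | h3 | ha'
    · exact o1 (h3 ▸ hp.vS)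
    · exact o1 (h3 ▸ hp.xS)
    · exact ha'.2.1 rfl
    · exact o2 (h3 ▸ hp.vS)
    · exact o2 (h3 ▸ hp.xS)
    · exact ha'.1 rfl
    · exact ha.1 h3
    · exact ha.2.1 h3
    · exact h.1.disj i j hij.symm a ha.2.2 ha'.2.2
  obtain ⟨F', -, e2, -, e4, -, e6⟩ := h.rep hij hU hd hcard
  refine ⟨F', e6 (hclq.good (hcard ▸ c.n3 i)), e2, ?_⟩
  rw [hclq.eH] at e4
  rw [e2]
  omega

/-- The core of the argument for a pendant vertex. -/
theorem coreX (c : Ctx G n) {F : ι → Finset V} {i j : ι} (h : St G n F i) (hij : j ≠ i) {x v : V}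
    (hp : Pend G (F i) x v) {z w : V} (hz : z ∈ F j) (hxz : G.Adj x z) (hw : w ∈ F i)
    (hwx : w ≠ x) (hwv : w ≠ v) (h2 : ¬Good G (insert w ((F j).erase z)))
    (h1z : ¬Good G (insert x ((F j).erase z)))
    (h1 : ∀ t ∈ F j, ¬G.Adj x t → ¬Good G (insert x ((F j).erase t))) :
    ∃ c' ∈ F j, ¬G.Adj w c' ∧ G.Adj x c' ∧ ∃ d1 ∈ F j, ∃ d2 ∈ F j, d1 ≠ d2 ∧ ¬G.Adj x d1 ∧
      ¬G.Adj x d2 ∧ Good G (insert x (((F j).erase d1).erase d2)) := by
  have hT := h.2 j hij
  have hxT : x ∉ F j := h.1.disj i j hij.symm x hp.xS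
  have hwT : w ∉ F j := h.1.disj i j hij.symm w hw
  obtain ⟨u', D', hs', hD'⟩ := cut_data hT hz hwT h2
  obtain ⟨c', hc'⟩ := hs'.ne
  have hc := hs'.sub c' hc'
  have hxc : G.Adj x c' := c.tri w x c' hwx.symm (fun h' => hwT (h' ▸ hc.1))
    (fun h' => hxT (h' ▸ hc.1)) (fun h' => hp.non w hw hwv h'.symm) (hD' c' hc')
  obtain ⟨u, D, hs, hD⟩ := cut_data hT hz hxT h1z
  rcases lemF c.tri hT hs hxT hD hxz hc.1 hc.2.2 hxc with ⟨d, hd, hg⟩ | h3
  · exact absurd hg (h1 d (hs.sub d hd).1 (hD d hd))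
  · exact ⟨c', hc.1, hD' c' hc', hxc, h3⟩

/-- `coreX` when `w` is not adjacent to `v`. -/
theorem lemX (c : Ctx G n) {F : ι → Finset V} {i j : ι} (h : St G n F i) (hij : j ≠ i) {x v : V}
    (hp : Pend G (F i) x v) {z w : V} (hz : z ∈ F j) (hxz : G.Adj x z) (hw : w ∈ F i)
    (hwx : w ≠ x) (hwv : w ≠ v) (hvw : ¬G.Adj v w) (h2 : ¬Good G (insert w ((F j).erase z)))
    (h1z : ¬Good G (insert x ((F j).erase z)))
    (h1 : ∀ t ∈ F j, ¬G.Adj x t → ¬Good G (insert x ((F j).erase t))) : False := by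
  obtain ⟨c', hc', hwc, hxc, d1, hd1, d2, hd2, h12, n1, n2, hg⟩ :=
    coreX c h hij hp hz hxz hw hwx hwv h2 h1z h1
  obtain ⟨F', hst, e, -⟩ := moveF c h hij hp hd1 hd2 h12 n1 n2
  apply c.bad hst
  rw [e]
  have hwT : w ∉ F j := h.1.disj i j hij.symm w hw
  have hvT : v ∉ F j := h.1.disj i j hij.symm v hp.vS
  refine hg.ear (mem_insert_self _ _) (b := c') ?_ hxc.ne hp.xv.symm ?_
  · refine mem_insert_of_mem (mem_erase.2 ⟨?_, mem_erase.2 ⟨?_, hc'⟩⟩)
    · exact fun h' => n2 (h' ▸ hxc)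
    · exact fun h' => n1 (h' ▸ hxc)
  · exact c.tri w v c' hwv.symm (fun h' => hwT (h' ▸ hc')) (fun h' => hvT (h' ▸ hc'))
      (fun h' => hvw h'.symm) hwc

/-- A pendant vertex on a 2-connected rest that is not a clique is impossible. -/
theorem stepA (c : Ctx G n) {F : ι → Finset V} {i : ι} (h : St G n F i) {x v : V}
    (hp : Pend G (F i) x v) (hK : Good G ((F i).erase x)) {w : V} (hw : w ∈ F i) (hwx : w ≠ x)
    (hwv : w ≠ v) (hvw : ¬G.Adj v w) : False := by
  have hvK : v ∈ (F i).erase x := mem_erase.2 ⟨hp.xv.ne.symm, hp.vS⟩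
  obtain ⟨y, hy, y', hy', hyy, hvy, hvy'⟩ := hK.two_nbrs hvK
  have hyK := hy
  have hy'K := hy'
  rw [mem_erase] at hy hy'
  have hxy : ¬G.Adj x y := hp.non y hy.2 hvy.ne.symm
  have hxy' : ¬G.Adj x y' := hp.non y' hy'.2 hvy'.ne.symm
  obtain ⟨j, hj, z, hz, hxz, hyz⟩ := c.exists_z h.1 (i := i) (v := v) hy.1.symm hxy
    fun a ha h1 _ => by
      by_contra h'
      exact hp.non a ha h' h1
  have hzS : z ∉ F i := h.1.disj j i hj z hz
  refine lemX c h hj hp hz hxz hw hwx hwv hvw ?_ ?_ ?_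
  · refine c.swap_bad h hj hw hz ?_
    exact hp.repair c.tri (h.1.card i ▸ c.n3 i) hzS hxz hyz hy.2 hy.1 hvy.ne.symm hw hwx hwv
      (fun h' => hvw (h' ▸ hvy)) hy'.2 hy'.1 (fun h' => hvw (h' ▸ hvy')) hvy' (Or.inl hyy.symm)
  · refine c.swap_bad h hj hp.xS hz ?_
    by_cases hzv : G.Adj z v
    · exact hK.ear hyK hvK hvy.ne.symm hyz.symm hzv
    · refine hK.ear hyK (mem_erase.2 ⟨hwx, hw⟩) (fun h' => hvw (h' ▸ hvy)) hyz.symm ?_
      exact c.tri v z w (fun h' => hzS (h' ▸ hp.vS)) hwv (fun h' => hzS (h' ▸ hw))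
        (fun h' => hzv h'.symm) hvw
  · intro t ht hxt
    have htS : t ∉ F i := h.1.disj j i hj t ht
    refine c.swap_bad h hj hp.xS ht (hK.ear hyK hy'K hyy ?_ ?_)
    · exact c.tri x t y (fun h' => htS (h' ▸ hp.xS)) hy.1 (fun h' => htS (h' ▸ hy.2)) hxt hxy
    · exact c.tri x t y' (fun h' => htS (h' ▸ hp.xS)) hy'.1 (fun h' => htS (h' ▸ hy'.2)) hxt hxy'

end Pool.Agent.Lib.MP_af3016_co
end
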