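import Pool.Agent.Lib.MP_af3016_co.StepA

-- part Pool.Agent.Lib.MP_af3016_co.Spl
section

/-! Building partitions into 2-connected parts from cliques. -/

set_option autoImplicit false
set_option linter.unusedSectionVars false

namespace Pool.Agent.Lib.MP_af3016_co

open Finset

variable {V : Type} [DecidableEq V] {G : SimpleGraph V}
variable {ι : Type} [Fintype ι] [DecidableEq ι] {n : ι → ℕ}

/-- `X` splits into 2-connected parts of sizes `n i`, `i ∈ I`. -/
def Spl (G : SimpleGraph V) (n : ι → ℕ) (I : Finset ι) (X : Finset V) : Prop :=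
  ∃ F : ι → Finset V, (∀ i ∈ I, (F i).card = n i ∧ Good G (F i) ∧ ∀ v ∈ F i, v ∈ X) ∧
    (∀ i ∈ I, ∀ j ∈ I, i ≠ j → ∀ v ∈ F i, v ∉ F j) ∧ ∀ v ∈ X, ∃ i ∈ I, v ∈ F i

theorem Spl.empty : Spl G n ∅ ∅ :=
  ⟨fun _ => ∅, by simp, by simp, by simp⟩

theorem Spl.single {i : ι} {M : Finset V} (h : Good G M) (hc : M.card = n i) : Spl G n {i} M := by
  refine ⟨fun _ => M, fun j hj => ?_, fun j hj l hl hjl => ?_, fun v hv => ⟨i, by simp, hv⟩⟩
  · rw [mem_singleton.1 hj]
    exact ⟨hc, h, fun _ hv => hv⟩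
  · exact absurd ((mem_singleton.1 hj).trans (mem_singleton.1 hl).symm) hjl

theorem Spl.union {I J K : Finset ι} {X Y Z : Finset V} (h1 : Spl G n I X) (h2 : Spl G n J Y)
    (hIJ : ∀ i ∈ I, i ∉ J) (hXY : ∀ v ∈ X, v ∉ Y) (hK : ∀ i, i ∈ K ↔ i ∈ I ∨ i ∈ J)
    (hZ : ∀ v, v ∈ Z ↔ v ∈ X ∨ v ∈ Y) : Spl G n K Z := by
  obtain ⟨F1, a1, b1, c1⟩ := h1
  obtain ⟨F2, a2, b2, c2⟩ := h2
  refine ⟨fun i => if i ∈ I then F1 i else F2 i, fun i hi => ?_, fun i hi j hj hij v hv hv' => ?_,
    fun v hv => ?_⟩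
  · by_cases h : i ∈ I
    · simp only [h, if_true]
      exact ⟨(a1 i h).1, (a1 i h).2.1, fun v hv => (hZ v).2 (Or.inl ((a1 i h).2.2 v hv))⟩
    · simp only [h, if_false]
      have h' := ((hK i).1 hi).resolve_left h
      exact ⟨(a2 i h').1, (a2 i h').2.1, fun v hv => (hZ v).2 (Or.inr ((a2 i h').2.2 v hv))⟩
  · by_cases h : i ∈ I <;> by_cases h' : j ∈ I <;> simp only [h, h', if_true, if_false] at hv hv'
    · exact b1 i h j h' hij v hv hv'
    · exact hXY v ((a1 i h).2.2 v hv) ((a2 j (((hK j).1 hj).resolve_left h')).2.2 v hv')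
    · exact hXY v ((a1 j h').2.2 v hv') ((a2 i (((hK i).1 hi).resolve_left h)).2.2 v hv)
    · exact b2 i (((hK i).1 hi).resolve_left h) j (((hK j).1 hj).resolve_left h') hij v hv hv'
  · rcases (hZ v).1 hv with h | h
    · obtain ⟨i, hi, hvi⟩ := c1 v h
      exact ⟨i, (hK i).2 (Or.inl hi), by simpa [hi] using hvi⟩
    · obtain ⟨i, hi, hvi⟩ := c2 v h
      have : i ∉ I := fun h' => hIJ i h' hi
      exact ⟨i, (hK i).2 (Or.inr hi), by simpa [this] using hvi⟩

theorem Spl.add {I : Finset ι} {i : ι} {X M : Finset V} (hi : i ∉ I) (hM : M ⊆ X)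
    (hg : Good G M) (hc : M.card = n i) (h : Spl G n I (X \ M)) : Spl G n (insert i I) X := by
  refine (Spl.single hg hc).union h (fun j hj => ?_) (fun v hv hv' => (mem_sdiff.1 hv').2 hv)
    (fun j => by simp) fun v => ?_
  · rw [mem_singleton.1 hj]
    exact hi
  · rw [mem_sdiff]
    have := @hM v
    tauto

theorem Spl.clq (h3 : ∀ i, 3 ≤ n i) (I : Finset ι) :
    ∀ X : Finset V, Clq G X → ∑ i ∈ I, n i = X.card → Spl G n I X := by
  induction I using Finset.induction_on with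
  | empty =>
    intro X _ hX
    rw [sum_empty, eq_comm, card_eq_zero] at hX
    rw [hX]
    exact Spl.empty
  | insert i I hi ih =>
    intro X hc hX
    rw [sum_insert hi] at hX
    obtain ⟨M, hM, hMc⟩ := exists_subset_card_eq (s := X) (n := n i) (by omega)
    refine Spl.add hi hM ((hc.mono fun _ h => hM h).good (hMc ▸ h3 i)) hMc
      (ih _ (hc.mono fun _ h => (mem_sdiff.1 h).1) ?_)
    rw [card_sdiff_of_subset hM]
    omega

theorem twoC_pair {R : Finset V} {a b : V} (hab : G.Adj a b) (ha : a ∈ R) (hb : b ∈ R)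
    (h : ∀ x ∈ R, x ≠ a → x ≠ b → G.Adj x a ∧ G.Adj x b) : TwoC G R := by
  have hc : Clq G {a, b} := by
    intro s hs t ht hst
    simp only [mem_insert, mem_singleton] at hs ht
    rcases hs with rfl | rfl <;> rcases ht with rfl | rfl
    · exact absurd rfl hst
    · exact hab
    · exact hab.symm
    · exact absurd rfl hst
  refine hc.twoC.grow (fun x hx => ?_) fun x hx hx' => ?_
  · simp only [mem_insert, mem_singleton] at hx
    rcases hx with rfl | rfl <;> assumption
  · simp only [mem_insert, mem_singleton, not_or] at hx'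
    exact ⟨a, by simp, b, by simp, hab.ne, h x hx hx'.1 hx'.2⟩

theorem Spl.withv (h3 : ∀ i, 3 ≤ n i) {I : Finset ι} {Y : Finset V} {v a b : V} (hY : Clq G Y)
    (hv : v ∉ Y) (ha : a ∈ Y) (hb : b ∈ Y) (hab : a ≠ b) (hva : G.Adj v a) (hvb : G.Adj v b)
    (hs : ∑ i ∈ I, n i = Y.card + 1) : Spl G n I (insert v Y) := by
  obtain ⟨i, hi⟩ : I.Nonempty := by
    by_contra h
    rw [not_nonempty_iff_eq_empty] at h
    rw [h, sum_empty] at hs
    omega
  rw [← insert_erase hi] at hs ⊢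
  rw [sum_insert (notMem_erase i I)] at hs
  have hsub : ({v, a, b} : Finset V) ⊆ insert v Y := by
    intro x hx
    simp only [mem_insert, mem_singleton] at hx ⊢
    rcases hx with rfl | rfl | rfl
    · exact Or.inl rfl
    · exact Or.inr ha
    · exact Or.inr hb
  have hc : (insert v Y).card = Y.card + 1 := card_insert_of_notMem hv
  obtain ⟨M, hM1, hM2, hMc⟩ := exists_subsuperset_card_eq (n := n i) hsub
    (card_le_three.trans (h3 i)) (by omega)
  refine Spl.add (notMem_erase i I) hM2 ⟨hMc ▸ h3 i, ?_⟩ hMc (Spl.clq h3 _ _ ?_ ?_)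
  · refine twoC_pair (hY a ha b hb hab) (hM1 (by simp)) (hM1 (by simp)) fun x hx hxa hxb => ?_
    rcases mem_insert.1 (hM2 hx) with rfl | h
    · exact ⟨hva, hvb⟩
    · exact ⟨hY x h a ha hxa, hY x h b hb hxb⟩
  · refine hY.mono fun x hx => ?_
    rw [mem_sdiff] at hx
    rcases mem_insert.1 hx.1 with rfl | h
    · exact absurd (hM1 (by simp)) hx.2
    · exact h
  · rw [card_sdiff_of_subset hM2]
    omega

theorem Spl.prism (h3 : ∀ i, 3 ≤ n i) (he : ∀ i, n i % 2 = 0) {P R : Finset V} (hP : Clq G P)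
    (hR : Clq G R) (hPR : ∀ a ∈ P, a ∉ R) (f : V → V) (hf : ∀ g ∈ R, f g ∈ P ∧ G.Adj g (f g))
    (hinj : ∀ g ∈ R, ∀ g' ∈ R, f g = f g' → g = g') (I : Finset ι) :
    ∀ X : Finset V, X ⊆ R → ∑ i ∈ I, n i = 2 * X.card → Spl G n I (X ∪ X.image f) := by
  induction I using Finset.induction_on with
  | empty =>
    intro X _ hX
    rw [sum_empty] at hX
    have : X = ∅ := card_eq_zero.1 (by omega)
    rw [this]
    simpa using Spl.empty
  | insert i I hi ih =>
    intro X hXR hX
    rw [sum_insert hi] at hX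
    have h1 := h3 i
    have h2 := he i
    obtain ⟨M, hM, hMc⟩ := exists_subset_card_eq (s := X) (n := n i / 2) (by omega)
    have hMR : M ⊆ R := hM.trans hXR
    have himg : ∀ a ∈ M.image f, a ∈ P := by
      intro a ha
      obtain ⟨g, hg, rfl⟩ := mem_image.1 ha
      exact (hf g (hMR hg)).1
    have hcard : (M ∪ M.image f).card = n i := by
      rw [card_union_of_disjoint, card_image_of_injOn]
      · omega
      · exact fun g hg g' hg' h => hinj g (hMR hg) g' (hMR hg') h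
      · exact disjoint_left.2 fun a ha ha' => hPR a (himg a ha') (hMR ha)
    obtain ⟨a, ha, b, hb, hab⟩ := one_lt_card.1 (show 1 < M.card by omega)
    have hg : Good G (M ∪ M.image f) := by
      refine ⟨hcard ▸ h1, TwoC.union (hR.mono fun _ h => hMR h).twoC (hP.mono himg).twoC
        (fun x => mem_union) ha (mem_image_of_mem f ha) hb (mem_image_of_mem f hb)
        (hf a (hMR ha)).2 (hf b (hMR hb)).2 hab ?_ ?_ ?_⟩
      · exact fun h => hab (hinj a (hMR ha) b (hMR hb) h)
      · exact fun h => hPR _ (hf b (hMR hb)).1 (h ▸ hMR ha)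
      · exact fun h => hPR _ (hf a (hMR ha)).1 (h ▸ hMR hb)
    have hrest := ih (X \ M) (sdiff_subset.trans hXR) (by rw [card_sdiff_of_subset hM]; omega)
    refine (Spl.single hg hcard).union hrest (fun j hj => ?_) (fun v hv hv' => ?_)
      (fun j => by simp) fun v => ?_
    · rw [mem_singleton.1 hj]
      exact hi
    · simp only [mem_union, mem_image, mem_sdiff] at hv hv'
      rcases hv with hv | ⟨g, hg, rfl⟩ <;> rcases hv' with hv' | ⟨g', hg', h⟩
      · exact hv'.2 hv
      · exact hPR v (h ▸ (hf g' (hXR hg'.1)).1) (hMR hv)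
      · exact hPR _ (hf g (hMR hg)).1 (hXR hv'.1)
      · exact hg'.2 (hinj g' (hXR hg'.1) g (hMR hg) h ▸ hg)
    · simp only [mem_union, mem_image, mem_sdiff]
      constructor
      · rintro (h | ⟨g, hg, rfl⟩)
        · by_cases h' : v ∈ M
          · exact Or.inl (Or.inl h')
          · exact Or.inr (Or.inl ⟨h, h'⟩)
        · by_cases h' : g ∈ M
          · exact Or.inl (Or.inr ⟨g, h', rfl⟩)
          · exact Or.inr (Or.inr ⟨g, ⟨hg, h'⟩, rfl⟩)
      · rintro ((h | ⟨g, hg, rfl⟩) | (h | ⟨g, hg, rfl⟩))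
        · exact Or.inl (hM h)
        · exact Or.inr ⟨g, hM hg, rfl⟩
        · exact Or.inl h.1
        · exact Or.inr ⟨g, hg.1, rfl⟩

variable [Fintype V]

theorem Ctx.notSpl (c : Ctx G n) {X : Finset V} (hX : ∀ v, v ∈ X) : ¬Spl G n univ X := by
  rintro ⟨F, a, b, d⟩
  refine c.no F ⟨fun i => (a i (mem_univ _)).1, fun i j => b i (mem_univ _) j (mem_univ _),
    fun v => ?_⟩ fun i => (a i (mem_univ _)).2.1
  obtain ⟨i, -, hi⟩ := d v (hX v)
  exact ⟨i, hi⟩

theorem Ctx.deg_le (c : Ctx G n) (a : V) {R : Finset V} (h : ∀ b, G.Adj a b → b ∈ R) :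
    ∑ i, (n i + 1) / 2 ≤ R.card := by
  classical
  refine (c.deg a).trans (card_le_card fun b hb => h b ?_)
  simpa using hb

/-- Two cliques of equal size joined by a perfect matching, all lengths even. -/
theorem Ctx.prism (c : Ctx G n) {P R : Finset V} (hP : Clq G P) (hR : Clq G R)
    (hPR : ∀ a ∈ P, a ∉ R) (hcov : ∀ a, a ∈ P ∨ a ∈ R) (hc : P.card = R.card)
    (ho : ∑ i, n i % 2 = 0) (h1 : ∀ g ∈ R, ∃ p ∈ P, G.Adj g p)
    (h2 : ∀ p ∈ P, ∀ g ∈ R, ∀ g' ∈ R, G.Adj g p → G.Adj g' p → g = g') : False := by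
  classical
  choose! f hf1 hf2 using h1
  have he : ∀ i, n i % 2 = 0 := fun i => (sum_eq_zero_iff.1 ho) i (mem_univ _)
  have hinj : ∀ g ∈ R, ∀ g' ∈ R, f g = f g' → g = g' := fun g hg g' hg' h =>
    h2 (f g) (hf1 g hg) g hg g' hg' (hf2 g hg) (h ▸ hf2 g' hg')
  have hcard : Fintype.card V = 2 * R.card := by
    have : (univ : Finset V) = P ∪ R := by
      ext a
      simpa using hcov a
    rw [← card_univ, this, card_union_of_disjoint (disjoint_left.2 hPR)]
    omega
  have himg : R.image f = P := by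
    apply eq_of_subset_of_card_le
    · intro a ha
      obtain ⟨g, hg, rfl⟩ := mem_image.1 ha
      exact hf1 g hg
    · rw [card_image_of_injOn fun g hg g' hg' h => hinj g hg g' hg' h, hc]
  refine c.notSpl (X := R ∪ R.image f) (fun a => ?_) (Spl.prism c.n3 he hP hR hPR f
    (fun g hg => ⟨hf1 g hg, hf2 g hg⟩) hinj univ R subset_rfl (c.sum.trans hcard))
  rw [himg, mem_union]
  exact (hcov a).symm

theorem exists_prefix (n : ι → ℕ) (i0 : ι) (hmax : ∀ i, n i ≤ n i0) (σ : ℕ)
    (hσ : σ ≤ ∑ i, n i) :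
    ∃ I : Finset ι, i0 ∉ I ∧ ∑ i ∈ I, n i ≤ σ ∧ σ ≤ ∑ i ∈ I, n i + n i0 := by
  obtain ⟨I, hI, hmx⟩ := exists_max_image
    ((univ : Finset (Finset ι)).filter fun I => i0 ∉ I ∧ ∑ i ∈ I, n i ≤ σ) card
    ⟨∅, by simp⟩
  rw [mem_filter] at hI
  refine ⟨I, hI.2.1, hI.2.2, ?_⟩
  by_cases h : ∃ j, j ≠ i0 ∧ j ∉ I
  · obtain ⟨j, h1, h2⟩ := h
    by_contra h3
    have := hmx (insert j I) (mem_filter.2 ⟨mem_univ _, by
      simp only [mem_insert, not_or]
      exact ⟨h1.symm, hI.2.1⟩, by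
      rw [sum_insert h2]
      have := hmax j
      omega⟩)
    rw [card_insert_of_notMem h2] at this
    omega
  · push Not at h
    have : (univ : Finset ι) = insert i0 I := by
      ext j
      simp only [mem_univ, mem_insert, true_iff]
      by_cases h1 : j = i0
      · exact Or.inl h1
      · exact Or.inr (h j h1)
    rw [this, sum_insert hI.2.1] at hσ
    omega

end Pool.Agent.Lib.MP_af3016_co
end

-- part Pool.Agent.Lib.MP_af3016_co.Cob
section

/-! Two cliques and one further vertex: direct construction of the partition. -/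

set_option autoImplicit false
set_option linter.unusedSectionVars false

namespace Pool.Agent.Lib.MP_af3016_co

open Finset

variable {V : Type} [DecidableEq V] {G : SimpleGraph V}
variable {ι : Type} [Fintype ι] [DecidableEq ι] {n : ι → ℕ} [Fintype V]

/-- The structure forced by a pendant vertex on a clique. -/
structure Two (G : SimpleGraph V) (P Q : Finset V) (v x y1 y2 : V) : Prop where
  cP : Clq G P
  cQ : Clq G Q
  cov : ∀ a, a ∈ P ∨ a ∈ Q ∨ a = v
  dis : ∀ a ∈ P, a ∉ Q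
  vP : v ∉ P
  vQ : v ∉ Q
  xP : x ∈ P
  xQ : ∀ q ∈ Q, ¬G.Adj x q
  xv : G.Adj x v
  m1 : y1 ∈ Q
  m2 : y2 ∈ Q
  ne : y1 ≠ y2
  a1 : G.Adj v y1
  a2 : G.Adj v y2
  poor : ∀ p ∈ P, G.Adj p y1 → ¬G.Adj p v

variable {P Q : Finset V} {v x y1 y2 : V}

theorem Two.card (t : Two G P Q v x y1 y2) : Fintype.card V = P.card + Q.card + 1 := by
  have : (univ : Finset V) = insert v (P ∪ Q) := by
    ext a
    have := t.cov a
    simp only [mem_univ, mem_insert, mem_union, true_iff]
    tauto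
  rw [← card_univ, this, card_insert_of_notMem, card_union_of_disjoint (disjoint_left.2 t.dis)]
  simp only [mem_union, not_or]
  exact ⟨t.vP, t.vQ⟩

theorem Two.dis' (t : Two G P Q v x y1 y2) : ∀ a ∈ P, a ∉ insert v Q := by
  intro a ha h
  rcases mem_insert.1 h with rfl | h
  · exact t.vP ha
  · exact t.dis a ha h

theorem assemble (c : Ctx G n) (t : Two G P Q v x y1 y2) {i0 : ι} {I : Finset ι} (hI : i0 ∉ I)
    {MP MQ : Finset V} (hP : MP ⊆ P) (hQ : MQ ⊆ insert v Q) (hg : TwoC G (MP ∪ MQ))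
    (h1 : ∑ i ∈ I, n i + MP.card = P.card) (h2 : MP.card + MQ.card = n i0)
    (hside : Clq G (insert v Q \ MQ) ∨
      (v ∉ MQ ∧ ∃ a ∈ Q, ∃ b ∈ Q, a ∉ MQ ∧ b ∉ MQ ∧ a ≠ b ∧ G.Adj v a ∧ G.Adj v b)) : False := by
  set J : Finset ι := (univ.erase i0) \ I with hJ
  have hIsub : I ⊆ univ.erase i0 := fun i hi =>
    mem_erase.2 ⟨fun h => hI (h ▸ hi), mem_univ _⟩
  have hsum : ∑ i ∈ J, n i + ∑ i ∈ I, n i + n i0 = Fintype.card V := by
    rw [sum_sdiff hIsub, ← c.sum, ← add_sum_erase _ _ (mem_univ i0)]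
    omega
  have hc := t.card
  have hvQ : (insert v Q).card = Q.card + 1 := card_insert_of_notMem t.vQ
  have hle := card_le_card hQ
  have hM : (MP ∪ MQ).card = n i0 := by
    rw [card_union_of_disjoint, h2]
    exact disjoint_left.2 fun a ha ha' => t.dis' a (hP ha) (hQ ha')
  have s1 : Spl G n I (P \ MP) := by
    refine Spl.clq c.n3 _ _ (t.cP.mono fun _ h => (mem_sdiff.1 h).1) ?_
    rw [card_sdiff_of_subset hP]
    omega
  have s2 : Spl G n J (insert v Q \ MQ) := by
    rcases hside with h | ⟨hv, a, ha, b, hb, ha', hb', hab, hva, hvb⟩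
    · refine Spl.clq c.n3 _ _ h ?_
      rw [card_sdiff_of_subset hQ]
      omega
    · have hQ' : MQ ⊆ Q := fun q hq => (mem_insert.1 (hQ hq)).resolve_left fun h => hv (h ▸ hq)
      rw [insert_sdiff_of_notMem _ hv]
      refine Spl.withv c.n3 (t.cQ.mono fun _ h => (mem_sdiff.1 h).1)
        (fun h => t.vQ (mem_sdiff.1 h).1) (mem_sdiff.2 ⟨ha, ha'⟩) (mem_sdiff.2 ⟨hb, hb'⟩) hab
        hva hvb ?_
      rw [card_sdiff_of_subset hQ']
      have := card_le_card hQ'
      omega
  have s3 : Spl G n (univ.erase i0) ((P \ MP) ∪ (insert v Q \ MQ)) := by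
    refine s1.union s2 (fun i hi hi' => (mem_sdiff.1 hi').2 hi)
      (fun a ha ha' => t.dis' a (mem_sdiff.1 ha).1 (mem_sdiff.1 ha').1) (fun i => ?_)
      fun a => mem_union
    rw [hJ, mem_sdiff]
    have := @hIsub i
    tauto
  refine c.notSpl (X := univ) mem_univ ((Spl.single ⟨hM ▸ c.n3 i0, hg⟩ hM).union s3 ?_ ?_ ?_ ?_)
  · intro i hi
    rw [mem_singleton.1 hi]
    exact notMem_erase _ _
  · intro a ha ha'
    simp only [mem_union, mem_sdiff] at ha ha'
    rcases ha with ha | ha <;> rcases ha' with ha' | ha'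
    · exact ha'.2 ha
    · exact t.dis' a (hP ha) ha'.1
    · exact t.dis' a ha'.1 (hQ ha)
    · exact ha'.2 ha
  · intro i
    simp only [mem_univ, mem_singleton, mem_erase, and_true, true_iff]
    exact em _
  · intro a
    have := t.cov a
    simp only [mem_univ, mem_union, mem_sdiff, mem_insert, true_iff]
    tauto

theorem Two.nbr (t : Two G P Q v x y1 y2) (c : Ctx G n) {q : V} (hq : q ∈ Q) :
    ∃ p1 p2, p1 ≠ p2 ∧ p1 ∈ P ∧ G.Adj q p1 ∧ G.Adj q p2 ∧ (p2 ∈ P ∨ p2 = v) := by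
  classical
  have hxq : x ≠ q := fun h => t.dis x t.xP (h ▸ hq)
  have h1 := c.codeg hxq (t.xQ q hq)
  obtain ⟨a, ha, b, hb, hab⟩ := one_lt_card.1 (lt_of_lt_of_le (by omega) h1)
  simp only [mem_filter, mem_univ, true_and] at ha hb
  have f : ∀ a, G.Adj x a → a ∈ P ∨ a = v := by
    intro a h
    rcases t.cov a with h' | h' | h'
    · exact Or.inl h'
    · exact absurd h (t.xQ a h')
    · exact Or.inr h'
  rcases f a ha.1 with h2 | h2
  · exact ⟨a, b, hab, h2, ha.2, hb.2, f b hb.1⟩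
  · rcases f b hb.1 with h3 | h3
    · exact ⟨b, a, hab.symm, h3, hb.2, ha.2, Or.inr h2⟩
    · exact absurd (h2.trans h3.symm) hab

theorem Two.degx (t : Two G P Q v x y1 y2) (c : Ctx G n) : ∑ i, (n i + 1) / 2 ≤ P.card := by
  have := c.deg_le x (R := insert v (P.erase x)) fun b hb => by
    rcases t.cov b with h | h | h
    · exact mem_insert_of_mem (mem_erase.2 ⟨hb.ne.symm, h⟩)
    · exact absurd hb (t.xQ b h)
    · exact h ▸ mem_insert_self _ _
  rw [card_insert_of_notMem fun h => t.vP (mem_of_mem_erase h), card_erase_of_mem t.xP] at this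
  have := card_pos.2 ⟨x, t.xP⟩
  omega

theorem Two.cov' (t : Two G P Q v x y1 y2) (a : V) : a ∈ P ∨ a ∈ insert v Q := by
  have := t.cov a
  rw [mem_insert]
  tauto

theorem Two.two_le (t : Two G P Q v x y1 y2) : 2 ≤ Q.card :=
  one_lt_card.2 ⟨y1, t.m1, y2, t.m2, t.ne⟩

/-- in the two-clique case some vertex of the second clique has two neighbours in `P` -/
theorem Two.exG (t : Two G P Q v x y1 y2) (c : Ctx G n) (hR : Clq G (insert v Q)) :
    ∃ g ∈ insert v Q, ∃ p ∈ P, ∃ p' ∈ P, p ≠ p' ∧ G.Adj g p ∧ G.Adj g p' := by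
  by_contra hn
  have hn' : ∀ g ∈ insert v Q, ∀ p ∈ P, ∀ p' ∈ P, G.Adj p g → G.Adj p' g → p = p' := by
    intro g hg p hp p' hp' h1 h2
    by_contra h
    exact hn ⟨g, hg, p, hp, p', hp', h, h1.symm, h2.symm⟩
  have h1 := t.degx c
  have h2 := c.deg_le v (R := insert x Q) fun b hb => by
    rcases t.cov b with h | h | h
    · exact mem_insert.2 (Or.inl (hn' v (mem_insert_self _ _) b h x t.xP hb.symm t.xv))
    · exact mem_insert_of_mem h
    · exact absurd h hb.ne.symm
  rw [card_insert_of_notMem (t.dis x t.xP)] at h2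
  have h3 := two_mul_sum n
  have h4 := c.sum
  have h5 := t.card
  have hvQ : (insert v Q).card = Q.card + 1 := card_insert_of_notMem t.vQ
  refine c.prism hR t.cP (fun a ha ha' => t.dis' a ha' ha) (fun a => (t.cov' a).symm) (by omega)
    (by omega) (fun p hp => ?_) hn'
  by_contra h
  have h6 := c.deg_le p (R := P.erase p) fun b hb => by
    rcases t.cov' b with h' | h'
    · exact mem_erase.2 ⟨hb.ne.symm, h'⟩
    · exact absurd ⟨b, h', hb⟩ h
  rw [card_erase_of_mem hp] at h6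
  have := t.two_le
  omega

/-- in the two-clique case some vertex of `P` has two neighbours in the second clique -/
theorem Two.exP (t : Two G P Q v x y1 y2) (c : Ctx G n) (hR : Clq G (insert v Q)) :
    ∃ p ∈ P, ∃ g ∈ insert v Q, ∃ g' ∈ insert v Q, g ≠ g' ∧ G.Adj p g ∧ G.Adj p g' := by
  classical
  by_contra hn
  have hn' : ∀ p ∈ P, ∀ g ∈ insert v Q, ∀ g' ∈ insert v Q, G.Adj g p → G.Adj g' p → g = g' := by
    intro p hp g hg g' hg' h1 h2
    by_contra h
    exact hn ⟨p, hp, g, hg, g', hg', h, h1.symm, h2.symm⟩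
  have h1 := t.degx c
  have h3 := two_mul_sum n
  have h4 := c.sum
  have h5 := t.card
  have h7 := t.two_le
  have hvQ : (insert v Q).card = Q.card + 1 := card_insert_of_notMem t.vQ
  have hcross : ∀ g ∈ insert v Q,
      ∑ i, (n i + 1) / 2 - Q.card ≤ (P.filter fun p => G.Adj g p).card := by
    intro g hg
    have h6 := c.deg_le g (R := (insert v Q).erase g ∪ P.filter fun p => G.Adj g p)
      fun b hb => by
        rcases t.cov' b with h' | h'
        · exact mem_union_right _ (mem_filter.2 ⟨h', hb⟩)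
        · exact mem_union_left _ (mem_erase.2 ⟨hb.ne.symm, h'⟩)
    have h8 := card_union_le ((insert v Q).erase g) (P.filter fun p => G.Adj g p)
    rw [card_erase_of_mem hg] at h8
    omega
  have hsum : (insert v Q).card * (∑ i, (n i + 1) / 2 - Q.card) ≤ P.card := by
    have e1 := card_nsmul_le_sum (insert v Q) (fun g => (P.filter fun p => G.Adj g p).card) _
      hcross
    rw [smul_eq_mul, ← card_biUnion] at e1
    · refine e1.trans (card_le_card fun p hp => ?_)
      obtain ⟨g, -, hg⟩ := mem_biUnion.1 hp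
      exact (mem_filter.1 hg).1
    · intro g hg g' hg' hgg
      refine disjoint_left.2 fun p hp hp' => ?_
      rw [mem_filter] at hp hp'
      exact hgg (hn' p hp.1 g hg g' hg' hp.2 hp'.2)
  obtain ⟨e, he⟩ : ∃ e, ∑ i, (n i + 1) / 2 = Q.card + 1 + e := ⟨∑ i, (n i + 1) / 2 - Q.card - 1,
    by omega⟩
  have he0 : e = 0 := by
    rw [hvQ, he, show Q.card + 1 + e - Q.card = e + 1 by omega] at hsum
    have : (Q.card + 1) * (e + 1) = Q.card * e + Q.card + e + 1 := by ring
    have h9 : 2 * e ≤ Q.card * e := Nat.mul_le_mul_right e h7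
    omega
  refine c.prism t.cP hR t.dis' t.cov' (by omega) (by omega) (fun g hg => ?_) hn'
  obtain ⟨p, hp⟩ := card_pos.1 (lt_of_lt_of_le (by omega) (hcross g hg))
  rw [mem_filter] at hp
  exact ⟨p, hp.1, hp.2⟩

theorem Two.twoCQ (t : Two G P Q v x y1 y2) {M : Finset V} (hM : M ⊆ insert v Q) (h1 : y1 ∈ M)
    (h2 : y2 ∈ M) : TwoC G M := by
  refine twoC_pair (t.cQ y1 t.m1 y2 t.m2 t.ne) h1 h2 fun a ha ha1 ha2 => ?_
  rcases mem_insert.1 (hM ha) with rfl | h
  · exact ⟨t.a1, t.a2⟩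
  · exact ⟨t.cQ a h y1 t.m1 ha1, t.cQ a h y2 t.m2 ha2⟩

theorem Two.side (t : Two G P Q v x y1 y2) {M : Finset V} (h : v ∈ M) : Clq G (insert v Q \ M) := by
  refine t.cQ.mono fun a ha => ?_
  rw [mem_sdiff] at ha
  exact (mem_insert.1 ha.1).resolve_left fun h' => ha.2 (h' ▸ h)

theorem sub3 {a b d : V} {R : Finset V} (ha : a ∈ R) (hb : b ∈ R) (hd : d ∈ R) :
    ({a, b, d} : Finset V) ⊆ R := by
  intro y hy
  simp only [mem_insert, mem_singleton] at hy
  rcases hy with rfl | rfl | rfl <;> assumption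

theorem sub2 {a b : V} {R : Finset V} (ha : a ∈ R) (hb : b ∈ R) : ({a, b} : Finset V) ⊆ R := by
  intro y hy
  simp only [mem_insert, mem_singleton] at hy
  rcases hy with rfl | rfl <;> assumption

theorem Two.false (t : Two G P Q v x y1 y2) (c : Ctx G n) {i1 : ι} (h4 : 4 ≤ n i1) : False := by
  obtain ⟨i0, -, hmax⟩ := exists_max_image (univ : Finset ι) n ⟨i1, mem_univ _⟩
  have hN : 4 ≤ n i0 := h4.trans (hmax i1 (mem_univ _))
  have hc := t.card
  have hs := c.sum
  obtain ⟨I, hI, l1, l2⟩ := exists_prefix n i0 (fun i => hmax i (mem_univ _)) P.card (by omega)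
  have hvQ : (insert v Q).card = Q.card + 1 := card_insert_of_notMem t.vQ
  set J : Finset ι := (univ.erase i0) \ I with hJ
  have hIsub : I ⊆ univ.erase i0 := fun i hi =>
    mem_erase.2 ⟨fun h => hI (h ▸ hi), mem_univ _⟩
  have hsum : ∑ i ∈ J, n i + ∑ i ∈ I, n i + n i0 = Fintype.card V := by
    rw [sum_sdiff hIsub, ← c.sum, ← add_sum_erase _ _ (mem_univ i0)]
    omega
  have hJ3 : ∑ i ∈ J, n i = 0 ∨ 3 ≤ ∑ i ∈ J, n i := by
    rcases J.eq_empty_or_nonempty with h | ⟨j, hj⟩
    · rw [h, sum_empty]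
      exact Or.inl rfl
    · exact Or.inr ((c.n3 j).trans (single_le_sum (fun _ _ => Nat.zero_le _) hj))
  obtain ⟨p', hp'⟩ : ∃ p', ∑ i ∈ I, n i + p' = P.card := ⟨P.card - ∑ i ∈ I, n i, by omega⟩
  obtain ⟨q', hq'⟩ : ∃ q', p' + q' = n i0 := ⟨n i0 - p', by omega⟩
  have mv : v ∈ insert v Q := mem_insert_self _ _
  have my1 : y1 ∈ insert v Q := mem_insert_of_mem t.m1
  have my2 : y2 ∈ insert v Q := mem_insert_of_mem t.m2
  by_cases c1 : p' = 0
  · obtain ⟨M, hM1, hM2, hM3⟩ := exists_subsuperset_card_eq (n := q') (sub3 mv my1 my2)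
      (card_le_three.trans (by omega)) (by omega)
    refine assemble c t hI (MP := ∅) (empty_subset _) hM2 ?_ (by simpa [c1] using hp')
      (by simp only [card_empty]; omega) (Or.inl (t.side (hM1 (by simp))))
    rw [empty_union]
    exact t.twoCQ hM2 (hM1 (by simp)) (hM1 (by simp))
  by_cases c2 : q' = 0
  · obtain ⟨M, hM, hMc⟩ := exists_subset_card_eq (s := P) (n := p') (by omega)
    refine assemble c t hI (MQ := ∅) hM (empty_subset _) ?_ (by omega)
      (by simp only [card_empty]; omega)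
      (Or.inr ⟨by simp, y1, t.m1, y2, t.m2, by simp, by simp, t.ne, t.a1, t.a2⟩)
    rw [union_empty]
    exact (t.cP.mono fun _ h => hM h).twoC
  by_cases c3 : q' = 1
  · have key : ∀ g ∈ insert v Q, ∀ p ∈ P, ∀ p2 ∈ P, p ≠ p2 → G.Adj g p → G.Adj g p2 →
        (Clq G (insert v Q \ {g}) ∨ (v ∉ ({g} : Finset V) ∧ ∃ a ∈ Q, ∃ b ∈ Q,
          a ∉ ({g} : Finset V) ∧ b ∉ ({g} : Finset V) ∧ a ≠ b ∧ G.Adj v a ∧ G.Adj v b)) →
        False := by
      intro g hg p hp p2 hp2 hpp g1 g2 hside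
      obtain ⟨M, hM1, hM2, hM3⟩ := exists_subsuperset_card_eq (n := p') (sub2 hp hp2)
        (card_le_two.trans (by omega)) (by omega)
      refine assemble c t hI (MQ := {g}) hM2 (singleton_subset_iff.2 hg) ?_ (by omega)
        (by simp only [card_singleton]; omega) hside
      rw [union_comm, ← insert_eq]
      exact (t.cP.mono fun _ h => hM2 h).twoC.ear (hM1 (by simp)) (hM1 (by simp)) hpp g1 g2
    by_cases hv : ∀ q ∈ Q, G.Adj v q
    · have hR : Clq G (insert v Q) := by
        intro a ha b hb hab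
        rcases mem_insert.1 ha with h1 | h1 <;> rcases mem_insert.1 hb with h2 | h2
        · exact absurd (h1.trans h2.symm) hab
        · exact h1 ▸ hv b h2
        · exact h2 ▸ (hv a h1).symm
        · exact t.cQ a h1 b h2 hab
      obtain ⟨g, hg, p, hp, p2, hp2, hpp, g1, g2⟩ := t.exG c hR
      exact key g hg p hp p2 hp2 hpp g1 g2 (Or.inl (hR.mono fun _ h => (mem_sdiff.1 h).1))
    · push Not at hv
      obtain ⟨q0, hq0, hvq⟩ := hv
      obtain ⟨p1, p2, hpp, hp1, g1, g2, hp2⟩ := t.nbr c hq0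
      have hp2' : p2 ∈ P := hp2.resolve_right fun h => hvq (h ▸ g2.symm)
      refine key q0 (mem_insert_of_mem hq0) p1 hp1 p2 hp2' hpp g1 g2
        (Or.inr ⟨?_, y1, t.m1, y2, t.m2, ?_, ?_, t.ne, t.a1, t.a2⟩)
      · rw [mem_singleton]
        exact fun h => t.vQ (h ▸ hq0)
      · rw [mem_singleton]
        exact fun h => hvq (h ▸ t.a1)
      · rw [mem_singleton]
        exact fun h => hvq (h ▸ t.a2)
  by_cases c4 : p' = 1
  · have key : ∀ p ∈ P, ∀ M : Finset V, M ⊆ insert v Q → M.card = q' → TwoC G M →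
        ∀ g ∈ M, ∀ g' ∈ M, g ≠ g' → G.Adj p g → G.Adj p g' →
        (Clq G (insert v Q \ M) ∨ (v ∉ M ∧ ∃ a ∈ Q, ∃ b ∈ Q,
          a ∉ M ∧ b ∉ M ∧ a ≠ b ∧ G.Adj v a ∧ G.Adj v b)) → False := by
      intro p hp M hM hMc hM2 g hg g' hg' hgg g1 g2 hside
      refine assemble c t hI (MP := {p}) (singleton_subset_iff.2 hp) hM ?_
        (by simp only [card_singleton]; omega) (by simp only [card_singleton]; omega) hside
      rw [← insert_eq]
      exact hM2.ear hg hg' hgg g1 g2
    by_cases hv : ∀ q ∈ Q, G.Adj v q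
    · have hR : Clq G (insert v Q) := by
        intro a ha b hb hab
        rcases mem_insert.1 ha with h1 | h1 <;> rcases mem_insert.1 hb with h2 | h2
        · exact absurd (h1.trans h2.symm) hab
        · exact h1 ▸ hv b h2
        · exact h2 ▸ (hv a h1).symm
        · exact t.cQ a h1 b h2 hab
      obtain ⟨p, hp, g, hg, g', hg', hgg, g1, g2⟩ := t.exP c hR
      obtain ⟨M, hM1, hM2, hM3⟩ := exists_subsuperset_card_eq (n := q') (sub2 hg hg')
        (card_le_two.trans (by omega)) (by omega)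
      exact key p hp M hM2 hM3 (hR.mono fun _ h => hM2 h).twoC g (hM1 (by simp)) g'
        (hM1 (by simp)) hgg g1 g2 (Or.inl (hR.mono fun _ h => (mem_sdiff.1 h).1))
    · push Not at hv
      obtain ⟨q0, hq0, hvq⟩ := hv
      obtain ⟨z, -, -, hz, hyz, -, -⟩ := t.nbr c t.m1
      have hzv : ¬G.Adj v z := fun h => t.poor z hz hyz.symm h.symm
      have hzq : ∀ q ∈ Q, ¬G.Adj v q → G.Adj z q := fun q hq h =>
        c.tri v z q (fun h' => t.vP (h' ▸ hz)) (fun h' => t.vQ (h' ▸ hq))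
          (fun h' => t.dis z hz (h' ▸ hq)) hzv h
      have n1 : y1 ≠ q0 := fun h => hvq (h ▸ t.a1)
      have n2 : y2 ≠ q0 := fun h => hvq (h ▸ t.a2)
      by_cases c5 : 4 ≤ q'
      · have hsub : ({v, y1, y2, q0} : Finset V) ⊆ insert v Q :=
          insert_subset mv (sub3 my1 my2 (mem_insert_of_mem hq0))
        have hc4 : ({v, y1, y2, q0} : Finset V).card ≤ 4 :=
          (card_insert_le _ _).trans (Nat.succ_le_succ card_le_three)
        obtain ⟨M, hM1, hM2, hM3⟩ := exists_subsuperset_card_eq (n := q') hsub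
          (hc4.trans c5) (by omega)
        exact key z hz M hM2 hM3 (t.twoCQ hM2 (hM1 (by simp)) (hM1 (by simp))) y1 (hM1 (by simp))
          q0 (hM1 (by simp)) n1 hyz.symm (hzq q0 hq0 hvq) (Or.inl (t.side (hM1 (by simp))))
      have hQ3 : 3 ≤ Q.card := by
        have := card_le_card (sub3 t.m1 t.m2 hq0)
        rw [card_eq_three.2 ⟨y1, y2, q0, t.ne, n1, n2, rfl⟩] at this
        exact this
      have hQ5 : 5 ≤ Q.card := by omega
      by_cases c6 : ∃ q1 ∈ Q, q1 ≠ q0 ∧ ¬G.Adj v q1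
      · obtain ⟨q1, hq1, hqq, hvq1⟩ := c6
        have m0 : q0 ∈ (Q.erase y1).erase y2 :=
          mem_erase.2 ⟨n2.symm, mem_erase.2 ⟨n1.symm, hq0⟩⟩
        have m1 : q1 ∈ (Q.erase y1).erase y2 :=
          mem_erase.2 ⟨fun h => hvq1 (h ▸ t.a2), mem_erase.2 ⟨fun h => hvq1 (h ▸ t.a1), hq1⟩⟩
        have hcc : ((Q.erase y1).erase y2).card = Q.card - 1 - 1 := by
          rw [card_erase_of_mem (mem_erase.2 ⟨t.ne.symm, t.m2⟩), card_erase_of_mem t.m1]
        obtain ⟨M, hM1, hM2, hM3⟩ := exists_subsuperset_card_eq (n := q') (sub2 m0 m1)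
          (card_le_two.trans (by omega)) (by omega)
        have hMQ : ∀ a ∈ M, a ∈ Q := fun a ha => mem_of_mem_erase (mem_of_mem_erase (hM2 ha))
        refine key z hz M (fun a ha => mem_insert_of_mem (hMQ a ha)) hM3 (t.cQ.mono hMQ).twoC
          q0 (hM1 (by simp)) q1 (hM1 (by simp)) hqq.symm (hzq q0 hq0 hvq) (hzq q1 hq1 hvq1)
          (Or.inr ⟨fun h => t.vQ (hMQ v h), y1, t.m1, y2, t.m2, fun h => ?_, fun h => ?_, t.ne,
            t.a1, t.a2⟩)
        · exact (mem_erase.1 (mem_of_mem_erase (hM2 h))).1 rfl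
        · exact (mem_erase.1 (hM2 h)).1 rfl
      · push Not at c6
        obtain ⟨M, hM1, hM2, hM3⟩ := exists_subsuperset_card_eq (n := q') (sub2 t.m1 hq0)
          (card_le_two.trans (by omega)) (by omega)
        refine key z hz M (fun a ha => mem_insert_of_mem (hM2 ha)) hM3
          (t.cQ.mono fun _ h => hM2 h).twoC y1 (hM1 (by simp)) q0 (hM1 (by simp)) n1 hyz.symm
          (hzq q0 hq0 hvq) (Or.inl fun a ha b hb hab => ?_)
        rw [mem_sdiff] at ha hb
        have hq0M : q0 ∈ M := hM1 (by simp)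
        rcases mem_insert.1 ha.1 with rfl | ha' <;> rcases mem_insert.1 hb.1 with rfl | hb'
        · exact absurd rfl hab
        · exact c6 b hb' fun h => hb.2 (h ▸ hq0M)
        · exact (c6 a ha' fun h => ha.2 (h ▸ hq0M)).symm
        · exact t.cQ a ha' b hb' hab
  -- both portions have at least two vertices
  obtain ⟨z, -, -, hz, hyz, -, -⟩ := t.nbr c t.m2
  have hzx : x ≠ z := fun h => t.xQ y2 t.m2 (h ▸ hyz.symm)
  obtain ⟨MP, hP1, hP2, hP3⟩ := exists_subsuperset_card_eq (n := p') (sub2 t.xP hz)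
    (card_le_two.trans (by omega)) (by omega)
  obtain ⟨MQ, hQ2, hQ3, hQ4, hQv, hQy⟩ : ∃ MQ : Finset V, MQ ⊆ insert v Q ∧ MQ.card = q' ∧
      TwoC G MQ ∧ v ∈ MQ ∧ y2 ∈ MQ := by
    by_cases c5 : q' = 2
    · refine ⟨{v, y2}, sub2 mv my2, by rw [card_pair t.a2.ne, c5], ?_, by simp, by simp⟩
      refine twoC_pair t.a2 (by simp) (by simp) fun a ha h1 h2 => ?_
      simp only [mem_insert, mem_singleton] at ha
      exact absurd (ha.resolve_left h1) h2
    · obtain ⟨M, hM1, hM2, hM3⟩ := exists_subsuperset_card_eq (n := q') (sub3 mv my1 my2)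
        (card_le_three.trans (by omega)) (by omega)
      exact ⟨M, hM2, hM3, t.twoCQ hM2 (hM1 (by simp)) (hM1 (by simp)), hM1 (by simp),
        hM1 (by simp)⟩
  refine assemble c t hI hP2 hQ2 ?_ (by omega) (by omega) (Or.inl (t.side hQv))
  exact TwoC.union (t.cP.mono fun _ h => hP2 h).twoC hQ4 (fun _ => mem_union) (hP1 (by simp)) hQv
    (hP1 (by simp)) hQy t.xv hyz.symm hzx t.a2.ne (fun h => t.dis x t.xP (h ▸ t.m2))
    fun h => t.vP (h ▸ hz)

end Pool.Agent.Lib.MP_af3016_co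
end

-- part Pool.Agent.Lib.MP_af3016_co.StepB
section

/-! A pendant vertex on a 2-connected rest is impossible. -/

set_option autoImplicit false
set_option linter.unusedSectionVars false

namespace Pool.Agent.Lib.MP_af3016_co

open Finset

variable {V : Type} [DecidableEq V] {G : SimpleGraph V}

theorem Good.pend_of_bad {K : Finset V} (h : Good G K) {p a : V} (ha : a ∈ K)
    (hpa : G.Adj p a) (hb : ¬Good G (insert p K)) : Pend G (insert p K) p a := by
  refine ⟨mem_insert_self _ _, mem_insert_of_mem ha, hpa, fun b hb' hba hpb => ?_⟩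
  rcases mem_insert.1 hb' with h1 | h1
  · exact hpb.ne h1.symm
  · exact hb (h.ear ha h1 hba.symm hpa hpb)

theorem Pend.clqK {S : Finset V} {x v : V} (h : Pend G S x v) (ht : Tri G)
    (hv : ∀ w ∈ S, w ≠ x → w ≠ v → G.Adj v w) : Clq G (S.erase x) := by
  intro a ha b hb hab
  by_cases h1 : a = v
  · rw [mem_erase] at hb
    exact h1 ▸ hv b hb.2 hb.1 fun h' => hab (h1.trans h'.symm)
  by_cases h2 : b = v
  · rw [mem_erase] at ha
    exact h2 ▸ (hv a ha.2 ha.1 h1).symm
  exact h.clqB ht a (mem_erase.2 ⟨h1, ha⟩) b (mem_erase.2 ⟨h2, hb⟩) hab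

variable {ι : Type} [Fintype ι] [DecidableEq ι] {n : ι → ℕ} [Fintype V]

theorem stepB (c : Ctx G n) (m : ℕ) : ∀ (F : ι → Finset V) (i : ι) (x v : V), Phi G F = m →
    St G n F i → Pend G (F i) x v → Clq G ((F i).erase x) → 4 ≤ n i → False := by
  classical
  induction m using Nat.strong_induction_on with
  | _ m ih =>
  intro F i x v hm h hp hK h4
  have hcS := h.1.card i
  have hcB := hp.cardB
  have hKg : Good G ((F i).erase x) := hK.good (by rw [card_erase_of_mem hp.xS]; omega)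
  have hvK : v ∈ (F i).erase x := mem_erase.2 ⟨hp.xv.ne.symm, hp.vS⟩
  have hpoor : ∀ z, z ∉ F i → G.Adj x z → ∀ a ∈ (F i).erase x, ∀ b ∈ (F i).erase x, a ≠ b →
      G.Adj z a → G.Adj z b → False := by
    intro z hzS hxz a ha b hb hab hza hzb
    obtain ⟨j, hz⟩ := h.1.cover z
    have hj : j ≠ i := fun h' => hzS (h' ▸ hz)
    obtain ⟨y, hy, hyv, hzy⟩ : ∃ y ∈ (F i).erase x, y ≠ v ∧ G.Adj z y := by
      by_cases h1 : a = v
      · exact ⟨b, hb, fun h' => hab (h1.trans h'.symm), hzb⟩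
      · exact ⟨a, ha, h1, hza⟩
    obtain ⟨w, hw, hwy⟩ : ∃ w ∈ ((F i).erase x).erase v, w ≠ y := by
      obtain ⟨s, hs, t, ht, hst⟩ := one_lt_card.1 (show 1 < (((F i).erase x).erase v).card by omega)
      by_cases h1 : s = y
      · exact ⟨t, ht, fun h' => hst (h1.trans h'.symm)⟩
      · exact ⟨s, hs, h1⟩
    have hwK := mem_of_mem_erase hw
    rw [mem_erase, mem_erase] at hw
    have hyK := hy
    rw [mem_erase] at hy
    have h2 : Good G (insert z ((F i).erase w)) := by
      by_cases h1 : ∃ y' ∈ F i, y' ≠ x ∧ y' ≠ v ∧ y' ≠ w ∧ y' ≠ y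
      · obtain ⟨y', g1, g2, g3, g4, g5⟩ := h1
        exact hp.repair c.tri (by omega) hzS hxz hzy.symm hy.2 hy.1 hyv hw.2.2 hw.2.1 hw.1 hwy
          g1 g2 g4 (hK v hvK y' (mem_erase.2 ⟨g2, g1⟩) g3.symm) (Or.inl g5)
      · push Not at h1
        exact hp.repair c.tri (by omega) hzS hxz hzy.symm hy.2 hy.1 hyv hw.2.2 hw.2.1 hw.1 hwy
          hy.2 hy.1 hwy.symm (hK v hvK y hyK hyv.symm) (Or.inr h1)
    have h1 : ∀ t ∈ F j, ¬G.Adj x t → ¬Good G (insert x ((F j).erase t)) := by
      intro t ht hxt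
      have htS : t ∉ F i := h.1.disj j i hj t ht
      refine c.swap_bad h hj hp.xS ht (hKg.ear hyK hwK hwy.symm ?_ ?_)
      · exact c.tri x t y (fun h' => htS (h' ▸ hp.xS)) hy.1 (fun h' => htS (h' ▸ hy.2)) hxt
          (hp.non y hy.2 hyv)
      · exact c.tri x t w (fun h' => htS (h' ▸ hp.xS)) hw.2.1 (fun h' => htS (h' ▸ hw.2.2)) hxt
          (hp.non w hw.2.2 hw.1)
    obtain ⟨-, -, -, -, d1, hd1, d2, hd2, h12, n1, n2, hg⟩ :=
      coreX c h hj hp hz hxz hw.2.2 hw.2.1 hw.1 (c.swap_bad h hj hw.2.2 hz h2)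
        (c.swap_bad h hj hp.xS hz (hKg.ear ha hb hab hza hzb)) h1
    obtain ⟨F', hst, e, hphi⟩ := moveF c h hj hp hd1 hd2 h12 n1 n2
    have hxT : x ∉ F j := h.1.disj i j hj.symm x hp.xS
    have hvT : v ∉ F j := h.1.disj i j hj.symm v hp.vS
    have hvK' : v ∉ insert x (((F j).erase d1).erase d2) := by
      simp only [mem_insert, mem_erase, not_or]
      exact ⟨hp.xv.ne.symm, fun h' => hvT h'.2.2⟩
    have hbad := c.bad hst
    have hp' : Pend G (F' j) v x := by
      rw [e] at hbad ⊢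
      exact hg.pend_of_bad (mem_insert_self _ _) hp.xv.symm hbad
    have herase : (F' j).erase v = insert x (((F j).erase d1).erase d2) := by
      rw [e, erase_insert hvK']
    by_cases hw' : ∃ w' ∈ F' j, w' ≠ v ∧ w' ≠ x ∧ ¬G.Adj x w'
    · obtain ⟨w', g1, g2, g3, g4⟩ := hw'
      exact stepA c hst hp' (herase ▸ hg) g1 g2 g3 g4
    push Not at hw'
    have hK' := hp'.clqK c.tri hw'
    have hcT := h.1.card j
    have hcC : (((F j).erase d1).erase d2).card + 2 = n j := by
      rw [card_erase_of_mem (mem_erase.2 ⟨h12.symm, hd2⟩), card_erase_of_mem hd1]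
      have := c.n3 j
      omega
    have hcK' : (insert x (((F j).erase d1).erase d2)).card = (((F j).erase d1).erase d2).card + 1 :=
      card_insert_of_notMem fun h' => hxT (mem_of_mem_erase (mem_of_mem_erase h'))
    have hg3 := hg.1
    refine ih (Phi G F') ?_ F' j v x rfl hst hp' hK' (by omega)
    have a1 := eH_erase (G := G) hp'.xS
    rw [hK'.eH] at a1
    have a2 : dH G v (F' j) ≤ (((F j).erase d1).erase d2).card := by
      refine dH_le fun b hb hbv hn => ?_
      rw [e] at hb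
      rcases mem_insert.1 hb with h' | h'
      · exact absurd h' hbv
      rcases mem_insert.1 h' with h' | h'
      · exact absurd (h' ▸ hp.xv.symm) hn
      · exact h'
    have a3 := eH_erase (G := G) hp.xS
    have a4 : (((F i).erase x).erase v).card ≤ dH G x (F i) := by
      refine le_dH fun b hb => ?_
      rw [mem_erase, mem_erase] at hb
      exact ⟨hb.2.2, hb.2.1, hp.non b hb.2.2 hb.1⟩
    have a5 := eH_erase (G := G) hd1
    have a6 : (((F j).erase d1).erase d2).card ≤ dH G d1 (F j) + 1 := by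
      have hbad2 := h1 d2 hd2 n2
      have hset : insert x ((F j).erase d2) = insert d1 (insert x (((F j).erase d1).erase d2)) := by
        ext y
        simp only [mem_insert, mem_erase]
        constructor
        · rintro (g | g)
          · exact Or.inr (Or.inl g)
          · by_cases g' : y = d1
            · exact Or.inl g'
            · exact Or.inr (Or.inr ⟨g.1, g', g.2⟩)
        · rintro (rfl | g | g)
          · exact Or.inr ⟨h12, hd1⟩
          · exact Or.inl g
          · exact Or.inr ⟨g.1, g.2.2⟩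
      rw [hset] at hbad2
      by_cases hex : ∃ e ∈ ((F j).erase d1).erase d2, G.Adj d1 e
      · obtain ⟨e', he', hde⟩ := hex
        have := le_dH (G := G) (a := d1) (S := F j) (R := (((F j).erase d1).erase d2).erase e')
          fun b hb => by
            have hb' := mem_erase.1 hb
            have hb2 := mem_erase.1 (mem_of_mem_erase hb'.2)
            exact ⟨hb2.2, hb2.1, fun hdb => hbad2 (hg.ear (mem_insert_of_mem he')
              (mem_insert_of_mem hb'.2) hb'.1.symm hde hdb)⟩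
        rw [card_erase_of_mem he'] at this
        omega
      · have := le_dH (G := G) (a := d1) (S := F j) (R := ((F j).erase d1).erase d2)
          fun b hb => by
            have hb2 := mem_erase.1 (mem_of_mem_erase hb)
            exact ⟨hb2.2, hb2.1, fun hdb => hex ⟨b, hb, hdb⟩⟩
        omega
    omega
  obtain ⟨y1, hy1, y2, hy2, hyy⟩ := one_lt_card.1
    (show 1 < (((F i).erase x).erase v).card by omega)
  have hy1K := mem_of_mem_erase hy1
  have hy2K := mem_of_mem_erase hy2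
  rw [mem_erase, mem_erase] at hy1 hy2
  have hQ : ∀ q, q ∈ (univ.filter fun q => q ≠ x ∧ ¬G.Adj x q) ↔ q ≠ x ∧ ¬G.Adj x q := by simp
  have hP : ∀ p, p ∈ insert x (univ.filter fun z => z ∉ F i ∧ G.Adj x z) ↔
      p = x ∨ p ∉ F i ∧ G.Adj x p := by simp
  refine Two.false (P := insert x (univ.filter fun z => z ∉ F i ∧ G.Adj x z))
    (Q := univ.filter fun q => q ≠ x ∧ ¬G.Adj x q) (v := v) (x := x) (y1 := y1) (y2 := y2)
    ⟨?_, c.tri.clq x fun q hq => (hQ q).1 hq, fun a => ?_, fun a ha ha' => ?_, fun hv => ?_,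
      fun hv => ((hQ v).1 hv).2 hp.xv, mem_insert_self _ _, fun q hq => ((hQ q).1 hq).2, hp.xv,
      (hQ y1).2 ⟨hy1.2.1, hp.non y1 hy1.2.2 hy1.1⟩, (hQ y2).2 ⟨hy2.2.1, hp.non y2 hy2.2.2 hy2.1⟩,
      hyy, hK v hvK y1 hy1K hy1.1.symm, hK v hvK y2 hy2K hy2.1.symm, fun p hp' hpy hpv => ?_⟩
    c h4
  · intro a ha b hb hab
    rcases (hP a).1 ha with g1 | g1 <;> rcases (hP b).1 hb with g2 | g2
    · exact absurd (g1.trans g2.symm) hab
    · exact g1 ▸ g2.2
    · exact g2 ▸ g1.2.symm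
    have com : ∀ u ∈ (F i).erase x, ¬G.Adj a u → ¬G.Adj b u → G.Adj a b := fun u hu f1 f2 =>
      c.tri u a b (fun h' => g1.1 (h' ▸ mem_of_mem_erase hu))
        (fun h' => g2.1 (h' ▸ mem_of_mem_erase hu)) hab (fun h' => f1 h'.symm)
        fun h' => f2 h'.symm
    have pa := hpoor a g1.1 g1.2
    have pb := hpoor b g2.1 g2.2
    have a1 := pa v hvK y1 hy1K hy1.1.symm
    have a2 := pa v hvK y2 hy2K hy2.1.symm
    have a3 := pa y1 hy1K y2 hy2K hyy
    have b1 := pb v hvK y1 hy1K hy1.1.symm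
    have b2 := pb v hvK y2 hy2K hy2.1.symm
    have b3 := pb y1 hy1K y2 hy2K hyy
    have c1 := com v hvK
    have c2 := com y1 hy1K
    have c3 := com y2 hy2K
    by_contra hn
    by_cases f1 : G.Adj a v
    · by_cases f2 : G.Adj b y1
      · exact hn (c3 (a2 f1) (b3 f2))
      · exact hn (c2 (a1 f1) f2)
    · by_cases f2 : G.Adj b v
      · by_cases f3 : G.Adj a y1
        · exact hn (c3 (a3 f3) (b2 f2))
        · exact hn (c2 f3 (b1 f2))
      · exact hn (c1 f1 f2)
  · rw [hP, hQ]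
    by_cases g1 : a = x
    · exact Or.inl (Or.inl g1)
    by_cases g2 : G.Adj x a
    · by_cases g3 : a ∈ F i
      · refine Or.inr (Or.inr ?_)
        by_contra g4
        exact hp.non a g3 g4 g2
      · exact Or.inl (Or.inr ⟨g3, g2⟩)
    · exact Or.inr (Or.inl ⟨g1, g2⟩)
  · rw [hP] at ha
    rw [hQ] at ha'
    rcases ha with g | g
    · exact ha'.1 g
    · exact ha'.2 g.2
  · rcases (hP v).1 hv with g | g
    · exact hp.xv.ne g.symm
    · exact g.1 hp.vS
  · rcases (hP p).1 hp' with g | g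
    · exact hp.non y1 hy1.2.2 hy1.1 (g ▸ hpy)
    · exact hpoor p g.1 g.2 v hvK y1 hy1K hy1.1.symm hpv hpy

/-- No state whose exceptional part is a 2-connected set plus an attached vertex. -/
theorem noSemi (c : Ctx G n) {F : ι → Finset V} {i : ι} (h : St G n F i) {K : Finset V} {p a : V}
    (hK : Good G K) (ha : a ∈ K) (hpa : G.Adj p a) (e : ∀ y, y ∈ F i ↔ y = p ∨ y ∈ K) :
    False := by
  have e' : F i = insert p K := by
    ext y
    rw [e, mem_insert]
  have hbad := c.bad h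
  have hpK : p ∉ K := by
    intro hpK
    rw [e', insert_eq_of_mem hpK] at hbad
    exact hbad hK
  have hp : Pend G (F i) p a := by
    rw [e'] at hbad ⊢
    exact hK.pend_of_bad ha hpa hbad
  have herase : (F i).erase p = K := by rw [e', erase_insert hpK]
  by_cases hw : ∃ w ∈ F i, w ≠ p ∧ w ≠ a ∧ ¬G.Adj a w
  · obtain ⟨w, g1, g2, g3, g4⟩ := hw
    exact stepA c h hp (herase ▸ hK) g1 g2 g3 g4
  push Not at hw
  refine stepB c _ F i p a rfl h hp (hp.clqK c.tri hw) ?_
  have h1 := h.1.card i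
  rw [e', card_insert_of_notMem hpK] at h1
  have := hK.1
  omega

/-- After an exchange giving a 2-connected set plus an attached vertex the other part is bad. -/
theorem swap_semi (c : Ctx G n) {F : ι → Finset V} {i j : ι} (h : St G n F i) (hij : j ≠ i)
    {w t : V} (hw : w ∈ F i) (ht : t ∈ F j) {K : Finset V} {p a : V} (hK : Good G K) (ha : a ∈ K)
    (hpa : G.Adj p a) (e : ∀ y, y ∈ insert t ((F i).erase w) ↔ y = p ∨ y ∈ K) :
    ¬Good G (insert w ((F j).erase t)) := by
  intro hg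
  obtain ⟨F', e1, -, -, -, h3, -⟩ := h.swap hij hw ht
  exact noSemi c (h3 hg) hK ha hpa (e1 ▸ e)

/-- A repartition of two parts into a 2-connected set and a 2-connected set with an attached
vertex is impossible. -/
theorem rep_semi (c : Ctx G n) {F : ι → Finset V} {i j : ι} (h : St G n F i) (hij : j ≠ i)
    {S' K : Finset V} {p a : V} (hU : ∀ y, y ∈ S' ∨ y = p ∨ y ∈ K ↔ y ∈ F i ∨ y ∈ F j)
    (hd : ∀ y ∈ S', y ≠ p ∧ y ∉ K) (hc : S'.card = n i) (h1 : Good G S') (hK : Good G K)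
    (ha : a ∈ K) (hpa : G.Adj p a) : False := by
  obtain ⟨F', -, e2, -, -, -, h3⟩ := h.rep hij (S' := S') (T' := insert p K)
    (by simpa only [mem_insert] using hU) (by simpa only [mem_insert, not_or] using hd) hc
  exact noSemi c (h3 h1) hK ha hpa fun y => by rw [e2, mem_insert]

end Pool.Agent.Lib.MP_af3016_co
end

-- part Pool.Agent.Lib.MP_af3016_co.StepD
section

/-! The tail of length two, and the data for the shifting argument. -/

set_option autoImplicit false
set_option linter.unusedSectionVars false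

namespace Pool.Agent.Lib.MP_af3016_co

open Finset

variable {V : Type} [DecidableEq V] {G : SimpleGraph V}

theorem side_single {T D D' : Finset V} {z w u d : V} (hs : Side G T u z D)
    (hs' : Side G T d z D') (hwD : ∀ e ∈ D, ¬G.Adj w e) (hw : w ∉ T) (huD' : u ∈ D')
    (hDD : ∀ e ∈ D, e ∉ D') (hg : Good G (insert w (T.erase d))) : ∀ e ∈ D, e = d := by
  intro e he
  by_contra hed
  have hse := hs.sub e he
  obtain ⟨a, -, b, hb, hab, haD, hbD⟩ := (hg.2.2 z).cross (fun y => y ∈ D.erase d)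
    (a := e) (b := w) (mem_erase.2 ⟨hse.2.2, mem_insert_of_mem (mem_erase.2 ⟨hed, hse.1⟩)⟩)
    (mem_erase.2 ⟨fun h => hw (h ▸ hs.zT), mem_insert_self _ _⟩) (mem_erase.2 ⟨hed, he⟩)
    fun h => hw (hs.sub w (mem_of_mem_erase h)).1
  rw [mem_erase] at haD hb hbD
  rcases mem_insert.1 hb.2 with h | h
  · exact hwD a haD.2 (h ▸ hab.symm)
  rw [mem_erase] at h
  have hsa := hs.sub a haD.2
  by_cases hbu : b = u
  · exact hs'.sep u huD' a hsa.1 (hDD a haD.2) haD.1 hsa.2.2 (hbu ▸ hab.symm)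
  · exact hs.sep a haD.2 b h.2 (fun h' => hbD ⟨h.1, h'⟩) hbu hb.1 hab

theorem side_count {T D : Finset V} {z u c d : V} (hs : Side G T u z D) (hd : d ∈ D)
    (hc : c ∈ T) (hcD : c ∉ D) (hcu : c ≠ u) (hcz : c ≠ z) :
    ¬G.Adj c d ∧ T.card ≤ dH G c T + dH G d T + 2 := by
  refine ⟨fun h => hs.sep d hd c hc hcD hcu hcz h.symm, ?_⟩
  have h1 := hs.card_co
  have h2 : D.card ≤ dH G c T := le_dH fun b hb =>
    ⟨(hs.sub b hb).1, fun h => hcD (h ▸ hb), fun h => hs.sep b hb c hc hcD hcu hcz h.symm⟩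
  have h3 : (Side.co T u z D).card ≤ dH G d T := le_dH fun b hb => by
    rw [Side.mem_co] at hb
    exact ⟨hb.1, fun h => hb.2.1 (h ▸ hd), hs.sep d hd b hb.1 hb.2.1 hb.2.2.1 hb.2.2.2⟩
  omega

theorem shift_pair (ht : Tri G) {T D D' : Finset V} {z w w' u u' c d : V} (hT : Good G T)
    (h4 : 4 ≤ T.card) (hw : w ∉ T) (hw' : w' ∉ T) (hww : w ≠ w') (nww : ¬G.Adj w w')
    (hs : Side G T u z D) (hwD : ∀ e ∈ D, ¬G.Adj w e) (hs' : Side G T u' z D')
    (hwD' : ∀ e ∈ D', ¬G.Adj w' e) (hd : d ∈ D) (hc : c ∈ D')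
    (hg : Good G (insert w (T.erase d))) (hg' : Good G (insert w' (T.erase c))) :
    c ≠ d ∧ ¬G.Adj c d ∧ T.card ≤ dH G c T + dH G d T + 2 := by
  have hDD : ∀ e ∈ D, e ∉ D' := fun e he he' =>
    nww (ht e w w' (fun h => hw (h ▸ (hs.sub e he).1)) (fun h => hw' (h ▸ (hs.sub e he).1)) hww
      (fun h => hwD e he h.symm) fun h => hwD' e he' h.symm)
  have hsc := hs'.sub c hc
  have hsd := hs.sub d hd
  refine ⟨fun h => hDD d hd (h ▸ hc), ?_⟩
  by_cases h1 : c = u
  swap
  · exact side_count hs hd hsc.1 (fun h => hDD c h hc) h1 hsc.2.2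
  by_cases h2 : d = u'
  swap
  · have := side_count hs' hc hsd.1 (hDD d hd) h2 hsd.2.2
    exact ⟨fun h => this.1 h.symm, by omega⟩
  subst h1 h2
  exfalso
  have e1 := side_single hs hs' hwD hw hc hDD hg
  have e2 := side_single hs' hs hwD' hw' hd (fun e he he' => hDD e he' he) hg'
  obtain ⟨e, he, g1, g2, g3⟩ : ∃ e ∈ T, e ≠ c ∧ e ≠ d ∧ e ≠ z := by
    by_contra hn
    push Not at hn
    have : T ⊆ {c, d, z} := by
      intro e he
      by_cases g1 : e = c
      · simp [g1]
      by_cases g2 : e = d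
      · simp [g2]
      simp [hn e he g1 g2]
    have h5 := card_le_card this
    have h6 : ({c, d, z} : Finset V).card ≤ 3 := card_le_three
    omega
  obtain ⟨a, -, b, hb, hab, ha', hb'⟩ := (hT.2.2 z).cross (fun y => y = c ∨ y = d) (a := c) (b := e)
    (mem_erase.2 ⟨hsc.2.2, hsc.1⟩) (mem_erase.2 ⟨g3, he⟩) (Or.inl rfl) (not_or.2 ⟨g1, g2⟩)
  rw [mem_erase] at hb
  rw [not_or] at hb'
  rcases ha' with rfl | rfl
  · exact hs'.sep a hc b hb.2 (fun h => hb'.1 (e2 b h)) hb'.2 hb.1 hab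
  · exact hs.sep a hd b hb.2 (fun h => hb'.2 (e1 b h)) hb'.1 hb.1 hab

variable {ι : Type} [Fintype ι] [DecidableEq ι] {n : ι → ℕ} [Fintype V]

/-- A pendant path with two vertices on a clique is impossible. -/
theorem stepD (c : Ctx G n) {F : ι → Finset V} {i : ι} (h : St G n F i) {x v u0 : V}
    (hp : Pend G (F i) x v) (hu : u0 ∈ F i) (hux : u0 ≠ x) (hvu : G.Adj v u0)
    (huniq : ∀ b ∈ F i, b ≠ x → b ≠ u0 → ¬G.Adj v b) (h4 : 4 ≤ n i) : False := by
  have hcS := h.1.card i
  have hcB := hp.cardB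
  have hB := hp.clqB c.tri
  have mB : ∀ b, b ∈ ((F i).erase x).erase v ↔ b ≠ v ∧ b ≠ x ∧ b ∈ F i := by
    intro b
    rw [mem_erase, mem_erase]
  have huB : u0 ∈ ((F i).erase x).erase v := (mB u0).2 ⟨hvu.ne.symm, hux, hu⟩
  obtain ⟨w, hwB, hwu⟩ : ∃ w ∈ ((F i).erase x).erase v, w ≠ u0 := by
    obtain ⟨s, hs, t, ht, hst⟩ := one_lt_card.1 (show 1 < (((F i).erase x).erase v).card by omega)
    by_cases h1 : s = u0
    · exact ⟨t, ht, fun h' => hst (h1.trans h'.symm)⟩
    · exact ⟨s, hs, h1⟩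
  have hw := (mB w).1 hwB
  have hvw : ¬G.Adj v w := huniq w hw.2.2 hw.2.1 hwu
  obtain ⟨y, hyB, hyw, hor⟩ : ∃ y ∈ ((F i).erase x).erase v, y ≠ w ∧
      (u0 ≠ y ∨ (y = u0 ∧ ∀ b ∈ F i, b ≠ x → b ≠ v → b ≠ w → b = u0)) := by
    by_cases h1 : ∃ y ∈ F i, y ≠ x ∧ y ≠ v ∧ y ≠ w ∧ y ≠ u0
    · obtain ⟨y, g1, g2, g3, g4, g5⟩ := h1
      exact ⟨y, (mB y).2 ⟨g3, g2, g1⟩, g4, Or.inl g5.symm⟩
    · push Not at h1
      exact ⟨u0, huB, hwu.symm, Or.inr ⟨rfl, h1⟩⟩
  have hy := (mB y).1 hyB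
  obtain ⟨j, hj, z, hz, hxz, hyz⟩ := c.exists_z h.1 (i := i) (v := v) hy.2.1.symm
    (hp.non y hy.2.2 hy.1) fun a ha h1 _ => by
      by_contra h'
      exact hp.non a ha h' h1
  have hzS : z ∉ F i := h.1.disj j i hj z hz
  have hset : ∀ t a, a ∈ insert t ((F i).erase x) ↔
      a = v ∨ a ∈ insert t (((F i).erase x).erase v) := by
    intro t a
    simp only [mem_insert, mem_erase]
    constructor
    · rintro (g | g)
      · exact Or.inr (Or.inl g)
      · by_cases g' : a = v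
        · exact Or.inl g'
        · exact Or.inr (Or.inr ⟨g', g⟩)
    · rintro (rfl | g | g)
      · exact Or.inr ⟨hp.xv.ne.symm, hp.vS⟩
      · exact Or.inl g
      · exact Or.inr g.2
  have hcard : ∀ t, t ∉ F i → 3 ≤ (insert t (((F i).erase x).erase v)).card := by
    intro t ht
    rw [card_insert_of_notMem fun h' => ht ((mB t).1 h').2.2]
    omega
  refine lemX c h hj hp hz hxz hw.2.2 hw.2.1 hw.1 hvw ?_ ?_ ?_
  · refine c.swap_bad h hj hw.2.2 hz ?_
    refine hp.repair c.tri (by omega) hzS hxz hyz hy.2.2 hy.2.1 hy.1 hw.2.2 hw.2.1 hw.1 hyw.symm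
      hu hux hwu.symm hvu ?_
    rcases hor with g | g
    · exact Or.inl g
    · exact Or.inr g.2
  · by_cases hzv : G.Adj z v
    · rcases hor with g | g
      · refine c.swap_bad h hj hp.xS hz ⟨by rw [card_swap hp.xS hzS]; omega, ?_⟩
        have hY : TwoC G {v, z} := by
          refine twoC_pair hzv (by simp) (by simp) fun a ha h1 h2 => ?_
          simp only [mem_insert, mem_singleton] at ha
          exact absurd (ha.resolve_left h2) h1
        refine TwoC.union hB.twoC hY (fun a => ?_) huB (b := v) (by simp) hyB (b' := z) (by simp)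
          hvu.symm hyz g hzv.ne.symm (fun h' => hzS (h' ▸ hu)) hy.1.symm
        rw [hset]
        simp only [mem_insert, mem_singleton]
        tauto
      · have hK : Good G {v, u0, z} := by
          have hzu : G.Adj u0 z := g.1 ▸ hyz
          refine ⟨by rw [card_eq_three.2 ⟨v, u0, z, hvu.ne, hzv.ne.symm, hzu.ne, rfl⟩], ?_⟩
          refine twoC_pair hvu (by simp) (by simp) fun a ha h1 h2 => ?_
          simp only [mem_insert, mem_singleton] at ha
          rcases ha with g' | g' | g'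
          · exact absurd g' h1
          · exact absurd g' h2
          · exact g' ▸ ⟨hzv, hzu.symm⟩
        refine swap_semi c h hj hp.xS hz hK (p := w) (a := u0) (by simp) (hB w hwB u0 huB hwu)
          fun a => ?_
        simp only [mem_insert, mem_erase, mem_singleton]
        constructor
        · rintro (g' | g')
          · exact Or.inr (Or.inr (Or.inr g'))
          · by_cases g1 : a = v
            · exact Or.inr (Or.inl g1)
            by_cases g2 : a = w
            · exact Or.inl g2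
            exact Or.inr (Or.inr (Or.inl (g.2 a g'.2 g'.1 g1 g2)))
        · rintro (rfl | rfl | rfl | g')
          · exact Or.inr ⟨hw.2.1, hw.2.2⟩
          · exact Or.inr ⟨hp.xv.ne.symm, hp.vS⟩
          · exact Or.inr ⟨hux, hu⟩
          · exact Or.inl g'
    · refine swap_semi c h hj hp.xS hz (K := insert z (((F i).erase x).erase v))
        ⟨hcard z hzS, hB.twoC.ear hyB hwB hyw hyz.symm ?_⟩ (mem_insert_of_mem huB) hvu (hset z)
      exact c.tri v z w (fun h' => hzS (h' ▸ hp.vS)) hw.1 (fun h' => hzS (h' ▸ hw.2.2))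
        (fun h' => hzv h'.symm) hvw
  · intro t ht hxt
    have htS : t ∉ F i := h.1.disj j i hj t ht
    refine swap_semi c h hj hp.xS ht (K := insert t (((F i).erase x).erase v))
      (Clq.good (c.tri.clq x fun b hb => ?_) (hcard t htS)) (mem_insert_of_mem huB) hvu (hset t)
    rcases mem_insert.1 hb with rfl | hb
    · exact ⟨fun h' => htS (h' ▸ hp.xS), hxt⟩
    · rw [mB] at hb
      exact ⟨hb.2.1, hp.non b hb.2.2 hb.1⟩

end Pool.Agent.Lib.MP_af3016_co
end
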